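import Pool.Agent.H.MP_36be4a.Defs

/-! Two families of small positive integers have nonempty subfamilies of equal sum. -/

namespace EMx

open Finset

/-- Partial sums. -/
def blkP {l : ℕ} (x : Fin l → ℤ) (i : ℕ) : ℤ :=
  ∑ k ∈ univ.filter (fun k : Fin l => k.val < i), x k

theorem blkP_zero {l : ℕ} (x : Fin l → ℤ) : blkP x 0 = 0 := by
  simp [blkP]

theorem blkP_full {l : ℕ} (x : Fin l → ℤ) : blkP x l = ∑ i, x i := by
  unfold blkP
  congr 1
  ext k
  simp

theorem blkP_diff {l : ℕ} (x : Fin l → ℤ) {i i' : ℕ} (h : i ≤ i') :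
    blkP x i' = blkP x i + ∑ k ∈ univ.filter (fun k : Fin l => i ≤ k.val ∧ k.val < i'), x k := by
  unfold blkP
  rw [← sum_union]
  · congr 1
    ext k
    simp only [mem_filter, mem_univ, true_and, mem_union]
    omega
  · rw [disjoint_left]
    intro k hk hk'
    simp only [mem_filter, mem_univ, true_and] at hk hk'
    omega

theorem blkP_mono {l : ℕ} (x : Fin l → ℤ) (hx : ∀ i, 1 ≤ x i) {i i' : ℕ} (h : i ≤ i') :
    blkP x i ≤ blkP x i' := by
  rw [blkP_diff x h]
  have : 0 ≤ ∑ k ∈ univ.filter (fun k : Fin l => i ≤ k.val ∧ k.val < i'), x k :=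
    sum_nonneg fun k _ => le_trans zero_le_one (hx k)
  linarith

theorem blkP_succ {l : ℕ} (x : Fin l → ℤ) (i : ℕ) (h : i < l) :
    blkP x (i + 1) = blkP x i + x ⟨i, h⟩ := by
  rw [blkP_diff x (Nat.le_succ i)]
  congr 1
  have : univ.filter (fun k : Fin l => i ≤ k.val ∧ k.val < i + 1) = {⟨i, h⟩} := by
    ext k
    simp only [mem_filter, mem_univ, true_and, mem_singleton, Fin.ext_iff]
    omega
  rw [this, sum_singleton]

theorem blk_aux (l : ℕ) (hl : 0 < l) (x y : Fin l → ℤ) (hx : ∀ i, 1 ≤ x i ∧ x i ≤ l)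
    (hy : ∀ i, 1 ≤ y i ∧ y i ≤ l) (hle : ∑ i, x i ≤ ∑ i, y i) :
    ∃ I J : Finset (Fin l), I.Nonempty ∧ J.Nonempty ∧ ∑ i ∈ I, x i = ∑ j ∈ J, y j := by
  classical
  have key : ∀ i : Fin (l + 1), ∃ j : ℕ, j ≤ l ∧ 0 ≤ blkP x i.val - blkP y j ∧
      blkP x i.val - blkP y j < l := by
    intro i
    set j := Nat.findGreatest (fun j => blkP y j ≤ blkP x i.val) l with hj
    have hjl : j ≤ l := Nat.findGreatest_le l
    have h0 : blkP y 0 ≤ blkP x i.val := by
      rw [blkP_zero, ← blkP_zero x]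
      exact blkP_mono x (fun i => (hx i).1) (Nat.zero_le _)
    have hs : blkP y j ≤ blkP x i.val :=
      Nat.findGreatest_spec (P := fun j => blkP y j ≤ blkP x i.val) (Nat.zero_le l) h0
    refine ⟨j, hjl, by linarith, ?_⟩
    rcases hjl.lt_or_eq with hlt | heq
    · have hn : ¬ blkP y (j + 1) ≤ blkP x i.val :=
        Nat.findGreatest_is_greatest (P := fun j => blkP y j ≤ blkP x i.val)
          (Nat.lt_succ_self _) hlt
      rw [blkP_succ y j hlt] at hn
      have := (hy ⟨j, hlt⟩).2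
      push Not at hn
      linarith
    · have h1 : blkP x i.val ≤ blkP x l := blkP_mono x (fun i => (hx i).1) (by omega)
      have h2 : blkP y j = ∑ i, y i := by rw [heq, blkP_full]
      rw [blkP_full] at h1
      have h3 : (0 : ℤ) < l := by exact_mod_cast hl
      linarith
  choose j hjl hj0 hjl2 using key
  have hmaps : ∀ i ∈ (univ : Finset (Fin (l + 1))),
      (blkP x i.val - blkP y (j i)).toNat ∈ range l := by
    intro i _
    rw [mem_range]
    have h1 := hj0 i
    have h2 := hjl2 i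
    omega
  obtain ⟨i, -, i', -, hne, heq⟩ := exists_ne_map_eq_of_card_lt_of_maps_to
    (s := (univ : Finset (Fin (l + 1)))) (t := range l) (by simp) hmaps
  have fin : ∀ i i' : Fin (l + 1), i.val < i'.val →
      (blkP x i.val - blkP y (j i)).toNat = (blkP x i'.val - blkP y (j i')).toNat →
      ∃ I J : Finset (Fin l), I.Nonempty ∧ J.Nonempty ∧ ∑ i ∈ I, x i = ∑ j ∈ J, y j := by
    intro i i' hlt heq
    have e1 : blkP x i.val - blkP y (j i) = blkP x i'.val - blkP y (j i') := by
      have h1 := hj0 i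
      have h2 := hj0 i'
      omega
    have hil : i.val < l := by omega
    have hx1 : blkP x i.val < blkP x i'.val := by
      have h1 := blkP_succ x i.val hil
      have h2 := blkP_mono x (fun i => (hx i).1) (Nat.succ_le_of_lt hlt)
      have h3 := (hx ⟨i.val, hil⟩).1
      simp only [Nat.succ_eq_add_one] at h2
      linarith
    have hjj : j i < j i' := by
      by_contra hcon
      push Not at hcon
      have := blkP_mono y (fun i => (hy i).1) hcon
      linarith
    refine ⟨univ.filter (fun k : Fin l => i.val ≤ k.val ∧ k.val < i'.val),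
      univ.filter (fun k : Fin l => j i ≤ k.val ∧ k.val < j i'), ?_, ?_, ?_⟩
    · exact ⟨⟨i.val, hil⟩, by simp [hlt]⟩
    · have := hjl i'
      exact ⟨⟨j i, by omega⟩, by simp [hjj]⟩
    · have h1 := blkP_diff x hlt.le
      have h2 := blkP_diff y hjj.le
      linarith
  rcases lt_or_gt_of_ne (fun h => hne (Fin.ext h) : i.val ≠ i'.val) with h | h
  · exact fin i i' h heq
  · exact fin i' i h heq.symm

/-- Classical: `l` integers in `[1,l]` and `l` integers in `[1,l]` have nonempty subfamilies with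
equal sums. -/
theorem blk (l : ℕ) (hl : 0 < l) (x y : Fin l → ℤ) (hx : ∀ i, 1 ≤ x i ∧ x i ≤ l)
    (hy : ∀ i, 1 ≤ y i ∧ y i ≤ l) :
    ∃ I J : Finset (Fin l), I.Nonempty ∧ J.Nonempty ∧ ∑ i ∈ I, x i = ∑ j ∈ J, y j := by
  rcases le_total (∑ i, x i) (∑ i, y i) with h | h
  · exact blk_aux l hl x y hx hy h
  · obtain ⟨I, J, hI, hJ, he⟩ := blk_aux l hl y x hy hx h
    exact ⟨J, I, hJ, hI, he.symm⟩

end EMx
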