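import Pool.Agent.H.MP_36be4a.Defs

/-! Simultaneous approximation of the two coefficients `a ≥ 1`, `b` by small integers. -/

namespace EMx

theorem dir_aux (c L : ℤ) (hL : 0 < L) (Q : ℕ) (hQ : 0 < Q) :
    ∃ k j : ℤ, 0 < k ∧ k ≤ Q ∧ Q * |k * c - j * L| ≤ L := by
  obtain ⟨j, k, hk, hkQ, hjk⟩ := Real.exists_int_int_abs_mul_sub_le ((c : ℝ) / L) hQ
  refine ⟨k, j, hk, hkQ, ?_⟩
  have hLr : (0 : ℝ) < L := by exact_mod_cast hL
  have hQr : (0 : ℝ) < Q := by exact_mod_cast hQ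
  have h1 : |(k : ℝ) * c - j * L| = L * |(k : ℝ) * (c / L) - j| := by
    rw [← abs_of_pos hLr, ← abs_mul, abs_of_pos hLr]
    congr 1
    field_simp
  have h2 : (Q : ℝ) * |(k : ℝ) * c - j * L| ≤ L := by
    rw [h1]
    have h3 : (Q : ℝ) * (L * |(k : ℝ) * (c / L) - j|) ≤ Q * (L * (1 / (Q + 1))) := by
      gcongr
    refine h3.trans ?_
    rw [mul_one_div, mul_div_assoc', div_le_iff₀ (by positivity)]
    nlinarith
  exact_mod_cast h2

theorem dir (a b : ℤ) (ha : 1 ≤ a) (L Q : ℕ) (hL : (L : ℤ) = max a |b|) (hQ : 2 ≤ Q) :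
    ∃ (q : ℕ) (α β : ℤ), 0 < q ∧ q ≤ Q ∧ 0 ≤ α ∧ (α ≠ 0 ∨ β ≠ 0) ∧ (b = 0 → 1 ≤ α ∧ β = 0) ∧
      Q * |q * a - α * L| ≤ L ∧ Q * |q * b - β * L| ≤ L := by
  by_cases hb : b = 0
  · subst hb
    have hLa : (L : ℤ) = a := by
      rw [hL, abs_zero]
      exact max_eq_left (by omega)
    refine ⟨1, 1, 0, one_pos, by omega, by omega, Or.inl one_ne_zero, fun _ => ⟨le_rfl, rfl⟩, ?_, ?_⟩
    · rw [hLa]
      simp
      omega
    · simp
  · have hLpos : (0 : ℤ) < L := by
      rw [hL]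
      exact lt_of_lt_of_le (by omega) (le_max_left a |b|)
    have hQpos : 0 < Q := by omega
    rcases le_total |b| a with hba | hab
    · have hLa : (L : ℤ) = a := by rw [hL, max_eq_left hba]
      obtain ⟨k, j, hk, hkQ, hj⟩ := dir_aux b L hLpos Q hQpos
      obtain ⟨q, rfl⟩ := Int.eq_ofNat_of_zero_le hk.le
      refine ⟨q, q, j, by omega, by omega, by omega, Or.inl (by omega),
        fun h => absurd h hb, ?_, hj⟩
      rw [hLa]
      simp
      omega
    · have hLb : (L : ℤ) = |b| := by rw [hL, max_eq_right hab]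
      obtain ⟨k, j, hk, hkQ, hj⟩ := dir_aux a L hLpos Q hQpos
      obtain ⟨q, rfl⟩ := Int.eq_ofNat_of_zero_le hk.le
      have hQ' : (2 : ℤ) ≤ Q := by exact_mod_cast hQ
      refine ⟨q, j, q * Int.sign b, by omega, by omega, ?_, Or.inr ?_,
        fun h => absurd h hb, hj, ?_⟩
      · -- `j ≥ 0`
        by_contra hneg
        have hj1 : j ≤ -1 := by omega
        have h1 : (q : ℤ) * a - j * L ≥ L := by nlinarith
        have h2 : |(q : ℤ) * a - j * L| ≥ L := h1.trans (le_abs_self _)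
        nlinarith
      · exact mul_ne_zero hk.ne' (fun h => hb (Int.sign_eq_zero_iff_zero.1 h))
      · have h0 : (q : ℤ) * b - q * Int.sign b * L = 0 := by
          rw [hLb, mul_assoc, Int.sign_mul_abs]
          ring
        rw [h0]
        simp
end EMx
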