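import Pool.Agent.H.MP_36be4a.Walks

/-! Products of disjoint admissible permutations. -/

namespace EMx

open Finset

variable {V : Type*} [Fintype V] [DecidableEq V]

/-- Product of a family of admissible permutations with pairwise disjoint supports. -/
theorem prd (A : V → V → Prop) (S : Finset V) {ι : Type*} [DecidableEq ι] (I : Finset ι)
    (g : ι → Equiv.Perm V) (hg : ∀ i ∈ I, Adm A S (g i))
    (hd : ∀ i ∈ I, ∀ j ∈ I, i ≠ j → Disjoint (g i).support (g j).support) :
    ∃ π : Equiv.Perm V, Adm A S π ∧ (∀ f : V → V → ℤ, pw f π = ∑ i ∈ I, pw f (g i)) ∧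
      π.support ⊆ I.biUnion (fun i => (g i).support) := by
  induction I using Finset.induction_on with
  | empty => exact ⟨1, Adm.one A S, fun f => by simp [pw, aw], by simp⟩
  | insert i0 I hi ih =>
    obtain ⟨π', hA, hpw, hsup⟩ := ih (fun i hi => hg i (mem_insert_of_mem hi))
      (fun i hi j hj => hd i (mem_insert_of_mem hi) j (mem_insert_of_mem hj))
    have hdis : Disjoint (g i0).support π'.support := by
      refine Disjoint.mono_right hsup ?_
      rw [disjoint_biUnion_right]
      intro i hiI
      exact hd i0 (mem_insert_self _ _) i (mem_insert_of_mem hiI) (fun h => hi (h ▸ hiI))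
    have hD : (g i0).Disjoint π' := Equiv.Perm.disjoint_iff_disjoint_support.2 hdis
    have h1 : ∀ x, π' x = x → (g i0 * π') x = g i0 x := by
      intro x hx
      rw [Equiv.Perm.mul_apply, hx]
    have h2 : ∀ x, g i0 x = x → (g i0 * π') x = π' x := by
      intro x hx
      rw [hD.commute.eq, Equiv.Perm.mul_apply, hx]
    have hg0 := hg i0 (mem_insert_self _ _)
    refine ⟨g i0 * π', ⟨?_, ?_⟩, ?_, ?_⟩
    · intro x hx
      rcases hD x with h | h
      · rw [h2 x h] at hx ⊢
        exact hA.1 x hx
      · rw [h1 x h] at hx ⊢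
        exact hg0.1 x hx
    · intro x hx
      rw [h1 x (hA.2 x hx)]
      exact hg0.2 x hx
    · intro f
      rw [sum_insert hi, ← hpw f]
      unfold pw
      rw [← sum_add_distrib]
      refine sum_congr rfl fun x _ => ?_
      rcases hD x with h | h
      · rw [h2 x h, h, aw_self, zero_add]
      · rw [h1 x h, h, aw_self, add_zero]
    · intro x hx
      rw [Equiv.Perm.mem_support] at hx
      rw [mem_biUnion]
      rcases hD x with h | h
      · rw [h2 x h, ← Equiv.Perm.mem_support] at hx
        obtain ⟨i, hiI, hxi⟩ := mem_biUnion.1 (hsup hx)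
        exact ⟨i, mem_insert_of_mem hiI, hxi⟩
      · rw [h1 x h, ← Equiv.Perm.mem_support] at hx
        exact ⟨i0, mem_insert_self _ _, hx⟩

end EMx
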