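import Pool.Agent.H.MP_36be4a.Blk
import Pool.Agent.H.MP_36be4a.Prd

/-! The exchange lemma. -/

namespace EMx

open Finset

variable {V : Type*} [Fintype V] [DecidableEq V]

theorem Exc_pw_abs (f : V → V → ℤ) (hf : ∀ x y, |aw f x y| ≤ 1) (π : Equiv.Perm V) :
    |pw f π| ≤ π.support.card := by
  have h1 : pw f π = ∑ x ∈ π.support, aw f x (π x) := by
    unfold pw
    symm
    apply Finset.sum_subset (Finset.subset_univ _)
    intro x _ hx
    have : π x = x := by
      by_contra hne
      exact hx (Equiv.Perm.mem_support.mpr hne)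
    rw [this, aw_self]
  rw [h1]
  calc |∑ x ∈ π.support, aw f x (π x)| ≤ ∑ x ∈ π.support, |aw f x (π x)| :=
        Finset.abs_sum_le_sum_abs _ _
    _ ≤ ∑ x ∈ π.support, (1 : ℤ) := Finset.sum_le_sum (fun x _ => hf _ _)
    _ = π.support.card := by simp

theorem Exc_cross_pos (p q p' q' : ℤ) (hq : q ≠ 0) (hq' : q' ≠ 0) (h : 0 < q * q')
    (hle : (p : ℚ) / q ≤ (p' : ℚ) / q') : p * q' ≤ p' * q := by
  have hq0 : (q : ℚ) ≠ 0 := by exact_mod_cast hq
  have hq0' : (q' : ℚ) ≠ 0 := by exact_mod_cast hq'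
  have hpos : (0 : ℚ) < (q : ℚ) * q' := by exact_mod_cast h
  have h1 := mul_le_mul_of_nonneg_right hle hpos.le
  have h2 : (p : ℚ) / q * (q * q') = p * q' := by field_simp
  have h3 : (p' : ℚ) / q' * (q * q') = p' * q := by field_simp
  rw [h2, h3] at h1
  exact_mod_cast h1

theorem Exc_cross_neg (p q p' q' : ℤ) (hq : q ≠ 0) (hq' : q' ≠ 0) (h : q * q' < 0)
    (hle : (p : ℚ) / q ≤ (p' : ℚ) / q') : p' * q ≤ p * q' := by
  have hq0 : (q : ℚ) ≠ 0 := by exact_mod_cast hq
  have hq0' : (q' : ℚ) ≠ 0 := by exact_mod_cast hq'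
  have hneg : (q : ℚ) * q' < 0 := by exact_mod_cast h
  have h1 := mul_le_mul_of_nonpos_right hle hneg.le
  have h2 : (p : ℚ) / q * (q * q') = p * q' := by field_simp
  have h3 : (p' : ℚ) / q' * (q * q') = p' * q := by field_simp
  rw [h2, h3] at h1
  exact_mod_cast h1

/-- Short admissible permutations of negative type. -/
def ExcN (A : V → V → Prop) (r : V → V → ℤ) (l : ℕ) (S : Finset V) (π : Equiv.Perm V) : Prop :=
  Adm A S π ∧ π.support.card ≤ l ∧ pw r π < 0

/-- Short admissible permutations of positive type. -/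
def ExcP (A : V → V → Prop) (r : V → V → ℤ) (l : ℕ) (S : Finset V) (π : Equiv.Perm V) : Prop :=
  Adm A S π ∧ π.support.card ≤ l ∧ 0 < pw r π

/-- The slope. -/
noncomputable def Excs (c r : V → V → ℤ) (π : Equiv.Perm V) : ℚ := (pw c π : ℚ) / (pw r π : ℚ)

/-- The conclusion of the exchange lemma. -/
def ExcConcl (A : V → V → Prop) (S : Finset V) (c r : V → V → ℤ) (l : ℕ) : Prop :=
    ∃ (S' : Finset V) (a b : ℤ), S ⊆ S' ∧ S'.card ≤ S.card + 4 * l ^ 2 ∧
      1 ≤ a ∧ a ≤ l ∧ |b| ≤ l ∧ ((∀ π, Adm A S π → pw r π = 0) → b = 0) ∧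
      ∀ π, Adm A S' π → π.support.card ≤ l → 0 ≤ a * pw c π - b * pw r π

/-- The inductive data. -/
def ExcGood (A : V → V → Prop) (S : Finset V) (c r : V → V → ℤ) (l t : ℕ) : Prop :=
    ∃ (T : Finset V) (C C' : ℕ → Equiv.Perm V), S ⊆ T ∧ T.card ≤ S.card + 2 * l * t ∧
      (∀ i < t, ExcN A r l S (C i) ∧ ExcP A r l S (C' i) ∧ (C i).support ⊆ T ∧
        (C' i).support ⊆ T) ∧
      (∀ i < t, ∀ j < t, i ≠ j → Disjoint (C i).support (C j).support ∧
        Disjoint (C i).support (C' j).support ∧ Disjoint (C' i).support (C' j).support) ∧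
      (∀ i < t, ∀ π, ExcN A r l T π → Excs c r π ≤ Excs c r (C i)) ∧
      (∀ i < t, ∀ π, ExcP A r l T π → Excs c r (C' i) ≤ Excs c r π) ∧
      (∀ i < t, ∀ j < t, Excs c r (C' j) < Excs c r (C i))

theorem Exc_maxN (A : V → V → Prop) (c r : V → V → ℤ) (l : ℕ) (S : Finset V)
    (h : ∃ π, ExcN A r l S π) :
    ∃ C, ExcN A r l S C ∧ ∀ π, ExcN A r l S π → Excs c r π ≤ Excs c r C := by
  classical
  obtain ⟨π0, h0⟩ := h
  obtain ⟨C, hC, hmax⟩ := Finset.exists_max_image
    ((Finset.univ : Finset (Equiv.Perm V)).filter (fun π => ExcN A r l S π)) (Excs c r)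
    ⟨π0, by simp [h0]⟩
  refine ⟨C, by simpa using hC, fun π hπ => hmax π (by simp [hπ])⟩

theorem Exc_minP (A : V → V → Prop) (c r : V → V → ℤ) (l : ℕ) (S : Finset V)
    (h : ∃ π, ExcP A r l S π) :
    ∃ C, ExcP A r l S C ∧ ∀ π, ExcP A r l S π → Excs c r C ≤ Excs c r π := by
  classical
  obtain ⟨π0, h0⟩ := h
  obtain ⟨C, hC, hmax⟩ := Finset.exists_min_image
    ((Finset.univ : Finset (Equiv.Perm V)).filter (fun π => ExcP A r l S π)) (Excs c r)
    ⟨π0, by simp [h0]⟩
  refine ⟨C, by simpa using hC, fun π hπ => hmax π (by simp [hπ])⟩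

/-- Case B: all slopes of negative type are at most all slopes of positive type. -/
theorem Exc_caseB (A : V → V → Prop) (S : Finset V) (c r : V → V → ℤ)
    (hc : ∀ x y, |aw c x y| ≤ 1) (hr : ∀ x y, |aw r x y| ≤ 1)
    (hmin : ∀ π, Adm A S π → pw r π = 0 → 0 ≤ pw c π) (l : ℕ) (hl : 0 < l)
    (T : Finset V) (hST : S ⊆ T) (hT : T.card ≤ S.card + 4 * l ^ 2)
    (hB : ∀ π π', ExcN A r l T π → ExcP A r l T π' → Excs c r π ≤ Excs c r π') :
    ExcConcl A S c r l := by
  have hmono : ∀ π, Adm A T π → Adm A S π := fun π h => h.mono (fun _ _ h => h) hST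
  by_cases hN : ∃ π, ExcN A r l T π
  · obtain ⟨C, hC, hmax⟩ := Exc_maxN A c r l T hN
    have hCr := Exc_pw_abs r hr C
    have hCc := Exc_pw_abs c hc C
    have hCl : (C.support.card : ℤ) ≤ l := by exact_mod_cast hC.2.1
    have hneg := hC.2.2
    refine ⟨T, -pw r C, -pw c C, hST, hT, by linarith, ?_, ?_, ?_, ?_⟩
    · have := neg_abs_le (pw r C)
      linarith
    · rw [abs_neg]; linarith
    · intro hall
      have := hall C (hmono C hC.1)
      omega
    · intro π hπ hcard
      rcases lt_trichotomy (pw r π) 0 with hlt | heq | hgt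
      · have h1 := hmax π ⟨hπ, hcard, hlt⟩
        have h2 := Exc_cross_pos _ _ _ _ hlt.ne hneg.ne (mul_pos_of_neg_of_neg hlt hneg) h1
        nlinarith
      · have h1 := hmin π (hmono π hπ) heq
        rw [heq]
        nlinarith
      · have h1 := hB C π hC ⟨hπ, hcard, hgt⟩
        have h2 := Exc_cross_neg _ _ _ _ hneg.ne hgt.ne' (mul_neg_of_neg_of_pos hneg hgt) h1
        nlinarith
  · by_cases hP : ∃ π, ExcP A r l T π
    · obtain ⟨C, hC, hmin'⟩ := Exc_minP A c r l T hP
      have hCr := Exc_pw_abs r hr C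
      have hCc := Exc_pw_abs c hc C
      have hCl : (C.support.card : ℤ) ≤ l := by exact_mod_cast hC.2.1
      have hpos := hC.2.2
      refine ⟨T, pw r C, pw c C, hST, hT, by linarith, ?_, ?_, ?_, ?_⟩
      · have := le_abs_self (pw r C)
        linarith
      · linarith
      · intro hall
        have := hall C (hmono C hC.1)
        omega
      · intro π hπ hcard
        rcases lt_trichotomy (pw r π) 0 with hlt | heq | hgt
        · exact absurd ⟨π, hπ, hcard, hlt⟩ hN
        · have h1 := hmin π (hmono π hπ) heq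
          rw [heq]
          nlinarith
        · have h1 := hmin' π ⟨hπ, hcard, hgt⟩
          have h2 := Exc_cross_pos _ _ _ _ hpos.ne' hgt.ne' (mul_pos hpos hgt) h1
          nlinarith
    · refine ⟨T, 1, 0, hST, hT, le_refl _, by exact_mod_cast hl, by simp, fun _ => rfl, ?_⟩
      intro π hπ hcard
      rcases lt_trichotomy (pw r π) 0 with hlt | heq | hgt
      · exact absurd ⟨π, hπ, hcard, hlt⟩ hN
      · have h1 := hmin π (hmono π hπ) heq
        linarith
      · exact absurd ⟨π, hπ, hcard, hgt⟩ hP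

theorem Exc_supp_disj {A : V → V → Prop} {T : Finset V} {π σ : Equiv.Perm V}
    (hπ : Adm A T π) (hσ : σ.support ⊆ T) : Disjoint π.support σ.support := by
  rw [Finset.disjoint_left]
  intro x hx hx'
  exact (Equiv.Perm.mem_support.mp hx) (hπ.2 x (hσ hx'))

theorem Exc_step (A : V → V → Prop) (S : Finset V) (c r : V → V → ℤ)
    (hc : ∀ x y, |aw c x y| ≤ 1) (hr : ∀ x y, |aw r x y| ≤ 1)
    (hmin : ∀ π, Adm A S π → pw r π = 0 → 0 ≤ pw c π) (l : ℕ) (hl : 0 < l) (t : ℕ)
    (ht : t < 2 * l) (hG : ExcGood A S c r l t) :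
    ExcConcl A S c r l ∨ ExcGood A S c r l (t + 1) := by
  classical
  obtain ⟨T, C, C', hST, hcard, hC, hdis, hN, hP, hlt⟩ := hG
  by_cases hB : ∀ π π', ExcN A r l T π → ExcP A r l T π' → Excs c r π ≤ Excs c r π'
  · left
    refine Exc_caseB A S c r hc hr hmin l hl T hST (hcard.trans ?_) hB
    have : 2 * l * t ≤ 2 * l * (2 * l) := Nat.mul_le_mul_left _ ht.le
    nlinarith
  · right
    push Not at hB
    obtain ⟨π0, π0', h0, h0', hlt0⟩ := hB
    obtain ⟨D, hD, hDmax⟩ := Exc_maxN A c r l T ⟨π0, h0⟩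
    obtain ⟨D', hD', hDmin⟩ := Exc_minP A c r l T ⟨π0', h0'⟩
    have hDD : Excs c r D' < Excs c r D :=
      (hDmin π0' h0').trans_lt (hlt0.trans_le (hDmax π0 h0))
    have hmono : ∀ π, Adm A T π → Adm A S π := fun π h => h.mono (fun _ _ h => h) hST
    refine ⟨T ∪ D.support ∪ D'.support, fun i => if i = t then D else C i,
      fun i => if i = t then D' else C' i, ?_, ?_, ?_, ?_, ?_, ?_, ?_⟩
    · intro x hx
      simp [hST hx]
    · have h1 := Finset.card_union_le (T ∪ D.support) D'.support
      have h2 := Finset.card_union_le T D.support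
      have h3 := hD.2.1
      have h4 := hD'.2.1
      have h5 : 2 * l * (t + 1) = 2 * l * t + 2 * l := by ring
      omega
    · intro i hi
      by_cases hit : i = t
      · subst hit
        simp only [if_true]
        refine ⟨⟨hmono _ hD.1, hD.2⟩, ⟨hmono _ hD'.1, hD'.2⟩, ?_, ?_⟩
        · intro x hx
          simp only [Finset.mem_union]
          exact Or.inl (Or.inr hx)
        · intro x hx
          simp only [Finset.mem_union]
          exact Or.inr hx
      · have hi' : i < t := by omega
        simp only [hit, if_false]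
        obtain ⟨h1, h2, h3, h4⟩ := hC i hi'
        refine ⟨h1, h2, ?_, ?_⟩
        · intro x hx
          simp only [Finset.mem_union]
          exact Or.inl (Or.inl (h3 hx))
        · intro x hx
          simp only [Finset.mem_union]
          exact Or.inl (Or.inl (h4 hx))
    · intro i hi j hj hij
      by_cases hit : i = t
      · have hjt : j ≠ t := fun h => hij (hit.trans h.symm)
        have hj' : j < t := by omega
        obtain ⟨h1, h2, h3, h4⟩ := hC j hj'
        simp only [hit, if_true, hjt, if_false]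
        exact ⟨Exc_supp_disj hD.1 h3, Exc_supp_disj hD.1 h4, Exc_supp_disj hD'.1 h4⟩
      · have hi' : i < t := by omega
        obtain ⟨h1, h2, h3, h4⟩ := hC i hi'
        by_cases hjt : j = t
        · simp only [hit, if_false, hjt, if_true]
          exact ⟨(Exc_supp_disj hD.1 h3).symm, (Exc_supp_disj hD'.1 h3).symm,
            (Exc_supp_disj hD'.1 h4).symm⟩
        · have hj' : j < t := by omega
          simp only [hit, hjt, if_false]
          exact hdis i hi' j hj' hij
    · intro i hi π hπ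
      have hπT : ExcN A r l T π := ⟨hπ.1.mono (fun _ _ h => h) (by
        intro x hx
        simp only [Finset.mem_union]
        exact Or.inl (Or.inl hx)), hπ.2⟩
      by_cases hit : i = t
      · simp only [hit, if_true]
        exact hDmax π hπT
      · have hi' : i < t := by omega
        simp only [hit, if_false]
        exact hN i hi' π hπT
    · intro i hi π hπ
      have hπT : ExcP A r l T π := ⟨hπ.1.mono (fun _ _ h => h) (by
        intro x hx
        simp only [Finset.mem_union]
        exact Or.inl (Or.inl hx)), hπ.2⟩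
      by_cases hit : i = t
      · simp only [hit, if_true]
        exact hDmin π hπT
      · have hi' : i < t := by omega
        simp only [hit, if_false]
        exact hP i hi' π hπT
    · intro i hi j hj
      by_cases hit : i = t
      · by_cases hjt : j = t
        · simp only [hit, hjt, if_true]
          exact hDD
        · have hj' : j < t := by omega
          simp only [hit, hjt, if_true, if_false]
          exact (hP j hj' D' hD').trans_lt hDD
      · have hi' : i < t := by omega
        by_cases hjt : j = t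
        · simp only [hit, hjt, if_true, if_false]
          exact hDD.trans_le (hN i hi' D hD)
        · have hj' : j < t := by omega
          simp only [hit, hjt, if_false]
          exact hlt i hi' j hj'

theorem Exc_final (A : V → V → Prop) (S : Finset V) (c r : V → V → ℤ)
    (hr : ∀ x y, |aw r x y| ≤ 1)
    (hmin : ∀ π, Adm A S π → pw r π = 0 → 0 ≤ pw c π) (l : ℕ) (hl : 0 < l)
    (hG : ExcGood A S c r l (2 * l)) : False := by
  classical
  obtain ⟨T, C, C', hST, hcard, hC, hdis, hN, hP, hlt⟩ := hG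
  have hCi : ∀ i : Fin l, (i : ℕ) < 2 * l := fun i => by omega
  have hCj : ∀ i : Fin l, l + (i : ℕ) < 2 * l := fun i => by omega
  obtain ⟨I, J, hI, hJ, hsum⟩ := blk l hl (fun i => - pw r (C i)) (fun j => pw r (C' (l + j)))
    (by
      intro i
      obtain ⟨h1, -, -, -⟩ := hC i (hCi i)
      have h2 := Exc_pw_abs r hr (C i)
      have h3 : ((C i).support.card : ℤ) ≤ l := by exact_mod_cast h1.2.1
      have h4 := h1.2.2
      have h5 := neg_abs_le (pw r (C i))
      constructor
      · show 1 ≤ - pw r (C i)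
        linarith
      · show - pw r (C i) ≤ l
        linarith)
    (by
      intro j
      obtain ⟨-, h1, -, -⟩ := hC (l + j) (hCj j)
      have h2 := Exc_pw_abs r hr (C' (l + j))
      have h3 : ((C' (l + j)).support.card : ℤ) ≤ l := by exact_mod_cast h1.2.1
      have h4 := h1.2.2
      have h5 := le_abs_self (pw r (C' (l + j)))
      constructor
      · show 1 ≤ pw r (C' (l + j))
        linarith
      · show pw r (C' (l + j)) ≤ l
        linarith)
  -- the product
  let g : Fin l ⊕ Fin l → Equiv.Perm V := Sum.elim (fun i => C i) (fun j => C' (l + j))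
  obtain ⟨π, hπ, hpw, -⟩ := prd A S (I.disjSum J) g
    (by
      intro k hk
      rcases k with i | j
      · exact (hC i (hCi i)).1.1
      · exact (hC (l + j) (hCj j)).2.1.1)
    (by
      intro k hk k' hk' hne
      rcases k with i | j <;> rcases k' with i' | j'
      · refine (hdis i (hCi i) i' (hCi i') ?_).1
        intro h
        exact hne (by rw [Fin.ext h])
      · refine (hdis i (hCi i) (l + j') (hCj j') ?_).2.1
        omega
      · refine ((hdis i' (hCi i') (l + j) (hCj j) ?_).2.1).symm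
        omega
      · refine (hdis (l + j) (hCj j) (l + j') (hCj j') ?_).2.2
        intro h
        exact hne (by rw [Fin.ext (by omega : (j : ℕ) = j')]))
  have hpwr : pw r π = 0 := by
    rw [hpw r, Finset.sum_disjSum]
    simp only [g, Sum.elim_inl, Sum.elim_inr]
    have : ∑ i ∈ I, pw r (C i) = - ∑ i ∈ I, (- pw r (C i)) := by
      rw [Finset.sum_neg_distrib, neg_neg]
    rw [this, hsum]
    ring
  have hpos := hmin π hπ hpwr
  -- the minimum slope
  obtain ⟨i0, hi0, hi0min⟩ := Finset.exists_min_image I (fun i => Excs c r (C i)) hI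
  set lam : ℚ := Excs c r (C i0) with hlam
  have hcI : ∀ i ∈ I, (pw c (C i) : ℚ) - lam * pw r (C i) ≤ 0 := by
    intro i hi
    have h1 : lam ≤ Excs c r (C i) := hi0min i hi
    have h2 : (pw r (C i) : ℚ) < 0 := by
      exact_mod_cast (hC i (hCi i)).1.2.2
    have h3 : Excs c r (C i) * pw r (C i) = pw c (C i) := div_mul_cancel₀ _ h2.ne
    nlinarith
  have hcJ : ∀ j ∈ J, (pw c (C' (l + j)) : ℚ) - lam * pw r (C' (l + j)) < 0 := by
    intro j hj
    have h1 : Excs c r (C' (l + j)) < lam := hlt i0 (hCi i0) (l + j) (hCj j)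
    have h2 : (0 : ℚ) < pw r (C' (l + j)) := by
      exact_mod_cast (hC (l + j) (hCj j)).2.1.2.2
    have h3 : Excs c r (C' (l + j)) * pw r (C' (l + j)) = pw c (C' (l + j)) :=
      div_mul_cancel₀ _ h2.ne'
    nlinarith
  have hsumlt : (pw c π : ℚ) - lam * pw r π < 0 := by
    have e1 : (pw c π : ℚ) = ∑ i ∈ I, (pw c (C i) : ℚ) + ∑ j ∈ J, (pw c (C' (l + j)) : ℚ) := by
      rw [hpw c, Finset.sum_disjSum]
      simp only [g, Sum.elim_inl, Sum.elim_inr]
      push_cast
      rfl
    have e2 : (pw r π : ℚ) = ∑ i ∈ I, (pw r (C i) : ℚ) + ∑ j ∈ J, (pw r (C' (l + j)) : ℚ) := by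
      rw [hpw r, Finset.sum_disjSum]
      simp only [g, Sum.elim_inl, Sum.elim_inr]
      push_cast
      rfl
    have s1 : ∑ i ∈ I, ((pw c (C i) : ℚ) - lam * pw r (C i)) ≤ 0 := Finset.sum_nonpos hcI
    have s2 : ∑ j ∈ J, ((pw c (C' (l + j)) : ℚ) - lam * pw r (C' (l + j))) < 0 :=
      Finset.sum_neg hcJ hJ
    rw [Finset.sum_sub_distrib, ← Finset.mul_sum] at s1 s2
    rw [e1, e2]
    linarith
  rw [hpwr] at hsumlt
  have : (0 : ℚ) ≤ pw c π := by exact_mod_cast hpos
  simp at hsumlt
  have h5 : (pw c π : ℤ) < 0 := by exact_mod_cast hsumlt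
  omega

/-- If the identity minimises `c` among all admissible permutations with `r = 0`, then after
deleting `4 l²` vertices there are coefficients `a ≥ 1`, `b` such that all short admissible
permutations satisfy `a c - b r ≥ 0`. -/
theorem exc (A : V → V → Prop) (S : Finset V) (c r : V → V → ℤ)
    (hc : ∀ x y, |aw c x y| ≤ 1) (hr : ∀ x y, |aw r x y| ≤ 1)
    (hmin : ∀ π, Adm A S π → pw r π = 0 → 0 ≤ pw c π) (l : ℕ) (hl : 0 < l) :
    ∃ (S' : Finset V) (a b : ℤ), S ⊆ S' ∧ S'.card ≤ S.card + 4 * l ^ 2 ∧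
      1 ≤ a ∧ a ≤ l ∧ |b| ≤ l ∧ ((∀ π, Adm A S π → pw r π = 0) → b = 0) ∧
      ∀ π, Adm A S' π → π.support.card ≤ l → 0 ≤ a * pw c π - b * pw r π := by
  have key : ∀ t, t ≤ 2 * l → ExcConcl A S c r l ∨ ExcGood A S c r l t := by
    intro t
    induction t with
    | zero =>
        intro _
        right
        refine ⟨S, fun _ => 1, fun _ => 1, subset_refl _, by simp, ?_, ?_, ?_, ?_, ?_⟩ <;>
          intro i hi <;> omega
    | succ t ih =>
        intro ht
        rcases ih (by omega) with h | h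
        · exact Or.inl h
        · exact Exc_step A S c r hc hr hmin l hl t (by omega) h
  rcases key (2 * l) le_rfl with h | h
  · exact h
  · exact (Exc_final A S c r hr hmin l hl h).elim

end EMx
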