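import Pool.Agent.H.MP_36be4a.Walks

/-! Low-diameter decomposition of a directed graph by deleting few vertices. -/

namespace EMx

open Finset

variable {V : Type*} [Fintype V] [DecidableEq V]

/-- Reversal of walks. -/
theorem ldd_flip {A : V → V → Prop} {S : Finset V} {i : ℕ} {x y : V} (h : Wl A S i x y) :
    Wl (fun a b => A b a) S i y x := by
  induction h with
  | nil x hx => exact .nil x hx
  | cons h' ha hne hy ih =>
      have h1 : Wl (fun a b => A b a) S 1 _ _ :=
        .cons (.nil _ hy) ha hne.symm h'.right_notMem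
      have h2 := h1.append ih
      rwa [Nat.add_comm] at h2

/-- The growth lemma: a bounded sequence cannot grow by a factor `1 + 1/k` too often. -/
theorem ldd_growth (b : ℕ → ℕ) (n k : ℕ) (hk : 0 < k) (h0 : 1 ≤ b 0) (hb : ∀ i, b i ≤ n) :
    ∃ i < k * (Nat.log 2 n + 1), k * (b (i + 1) - b i) ≤ b i := by
  by_contra hcon
  push Not at hcon
  have key : ∀ i, i ≤ k * (Nat.log 2 n + 1) → (k + 1) ^ i ≤ k ^ i * b i := by
    intro i
    induction i with
    | zero => intro _; simpa using h0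
    | succ i ih =>
        intro hi
        have h1 := ih (by omega)
        have h2 := hcon i (by omega)
        have h3 : (k + 1) * b i ≤ k * b (i + 1) := by
          rcases le_or_gt (b (i + 1)) (b i) with h | h
          · rw [Nat.sub_eq_zero_of_le h] at h2
            omega
          · obtain ⟨d, hd⟩ := Nat.exists_eq_add_of_lt h
            have h4 : b (i + 1) - b i = d + 1 := by omega
            rw [h4] at h2
            rw [hd]
            nlinarith
        calc (k + 1) ^ (i + 1) = (k + 1) ^ i * (k + 1) := pow_succ _ _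
          _ ≤ (k ^ i * b i) * (k + 1) := Nat.mul_le_mul_right _ h1
          _ = k ^ i * ((k + 1) * b i) := by ring
          _ ≤ k ^ i * (k * b (i + 1)) := Nat.mul_le_mul_left _ h3
          _ = k ^ (i + 1) * b (i + 1) := by ring
  have h1 := key _ le_rfl
  have h2 : 2 * k ^ k ≤ (k + 1) ^ k := by
    have hbern : (1 : ℚ) + (k : ℚ) * (1 / k) ≤ (1 + 1 / k) ^ k := by
      apply one_add_mul_le_pow
      have : (0 : ℚ) ≤ 1 / k := by positivity
      linarith
    have hk' : (0 : ℚ) < k := by exact_mod_cast hk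
    have h3 : (1 : ℚ) + (k : ℚ) * (1 / k) = 2 := by field_simp; norm_num
    have h4 : ((1 : ℚ) + 1 / k) ^ k * (k : ℚ) ^ k = ((k : ℚ) + 1) ^ k := by
      rw [← mul_pow]
      congr 1
      field_simp
    have h5 : (2 : ℚ) * (k : ℚ) ^ k ≤ ((k : ℚ) + 1) ^ k := by
      rw [← h4, ← h3]
      exact mul_le_mul_of_nonneg_right hbern (by positivity)
    exact_mod_cast h5
  have h3 : (k + 1) ^ (k * (Nat.log 2 n + 1)) ≥ 2 ^ (Nat.log 2 n + 1) *
      k ^ (k * (Nat.log 2 n + 1)) := by
    rw [pow_mul, pow_mul, ← mul_pow]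
    exact Nat.pow_le_pow_left h2 _
  have h4 : 0 < k ^ (k * (Nat.log 2 n + 1)) := by positivity
  have h5 : 2 ^ (Nat.log 2 n + 1) ≤ b (k * (Nat.log 2 n + 1)) := by
    have : k ^ (k * (Nat.log 2 n + 1)) * 2 ^ (Nat.log 2 n + 1) ≤
        k ^ (k * (Nat.log 2 n + 1)) * b (k * (Nat.log 2 n + 1)) := by
      linarith [h1, h3, Nat.mul_comm (2 ^ (Nat.log 2 n + 1)) (k ^ (k * (Nat.log 2 n + 1)))]
    exact Nat.le_of_mul_le_mul_left this h4
  have h6 : n < 2 ^ (Nat.log 2 n + 1) := Nat.lt_pow_succ_log_self (by norm_num) n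
  have h7 := hb (k * (Nat.log 2 n + 1))
  omega

open Classical in
/-- Balls. -/
noncomputable def lddBall (A : V → V → Prop) (X : Finset V) (i : ℕ) (v : V) : Finset V :=
  univ.filter (fun u => ∃ j ≤ i, Wl A Xᶜ j v u)

theorem mem_lddBall {A : V → V → Prop} {X : Finset V} {i : ℕ} {v u : V} :
    u ∈ lddBall A X i v ↔ ∃ j ≤ i, Wl A Xᶜ j v u := by
  classical
  simp [lddBall]

theorem lddBall_sub (A : V → V → Prop) (X : Finset V) (i : ℕ) (v : V) :
    lddBall A X i v ⊆ X := by
  intro u hu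
  obtain ⟨j, _, hj⟩ := mem_lddBall.1 hu
  simpa using hj.right_notMem

theorem lddBall_mono (A : V → V → Prop) (X : Finset V) {i j : ℕ} (hij : i ≤ j) (v : V) :
    lddBall A X i v ⊆ lddBall A X j v := by
  intro u hu
  obtain ⟨l, hl, h⟩ := mem_lddBall.1 hu
  exact mem_lddBall.2 ⟨l, hl.trans hij, h⟩

/-- The cut step. -/
theorem ldd_cut (A : V → V → Prop) (X : Finset V) (k : ℕ) (hk : 0 < k) (v : V) (hv : v ∈ X)
    (hX : 2 * (lddBall A X (k * (Nat.log 2 (Fintype.card V) + 1)) v).card ≤ X.card) :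
    ∃ P R : Finset V, P ⊆ X ∧ R ⊆ X ∧ Disjoint P R ∧ 1 ≤ P.card ∧ 2 * P.card ≤ X.card ∧
      k * (X \ (P ∪ R)).card ≤ P.card ∧ ∀ a ∈ P, ∀ b ∈ R, a ≠ b → ¬ A a b := by
  obtain ⟨i, hi, hgr⟩ := ldd_growth (fun i => (lddBall A X i v).card) (Fintype.card V) k hk
    (by
      have : v ∈ lddBall A X 0 v := mem_lddBall.2 ⟨0, le_rfl, .nil v (by simpa using hv)⟩
      exact card_pos.2 ⟨v, this⟩)
    (fun i => card_le_univ _)
  refine ⟨lddBall A X i v, X \ lddBall A X (i + 1) v, lddBall_sub _ _ _ _, sdiff_subset, ?_, ?_,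
    ?_, ?_, ?_⟩
  · rw [Finset.disjoint_left]
    intro a ha hb
    exact (mem_sdiff.1 hb).2 (lddBall_mono A X (Nat.le_succ i) v ha)
  · have : v ∈ lddBall A X i v := mem_lddBall.2 ⟨0, Nat.zero_le _, .nil v (by simpa using hv)⟩
    exact card_pos.2 ⟨v, this⟩
  · have := card_le_card (lddBall_mono A X hi.le v)
    omega
  · have h1 : X \ (lddBall A X i v ∪ X \ lddBall A X (i + 1) v) =
        lddBall A X (i + 1) v \ lddBall A X i v := by
      ext u
      have := @lddBall_sub V _ _ A X (i + 1) v u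
      simp only [mem_sdiff, mem_union]
      tauto
    rw [h1, card_sdiff_of_subset (lddBall_mono A X (Nat.le_succ i) v)]
    exact hgr
  · intro a ha b hb hne hab
    obtain ⟨j, hj, hw⟩ := mem_lddBall.1 ha
    apply (mem_sdiff.1 hb).2
    exact mem_lddBall.2 ⟨j + 1, by omega, .cons hw hab hne (by simpa using (mem_sdiff.1 hb).1)⟩

/-- Mutually reachable vertices inside `Y` are close. -/
def LddGood (A : V → V → Prop) (L : ℕ) (Y : Finset V) : Prop :=
  ∀ x y, Rch A Yᶜ x y → Rch A Yᶜ y x → ∃ i ≤ L, Wl A Yᶜ i x y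

theorem ldd_stay {A : V → V → Prop} {P R : Finset V}
    (hPR : ∀ a ∈ P, ∀ b ∈ R, a ≠ b → ¬ A a b) {i : ℕ} {x y : V}
    (h : Wl A (P ∪ R)ᶜ i x y) (hx : x ∈ P) : Wl A Pᶜ i x y := by
  induction h with
  | nil x _ => exact .nil x (by simpa using hx)
  | @cons i x y y' _ ha hne hy ih =>
      have h1 := ih hx
      have h2 : y ∈ P := by simpa using h1.right_notMem
      have h3 : y' ∈ P ∪ R := by
        by_contra h
        exact hy (mem_compl.2 h)
      have h4 : y' ∈ P := by
        rcases mem_union.1 h3 with h | h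
        · exact h
        · exact absurd ha (hPR y h2 y' h hne)
      exact .cons h1 ha hne (by simpa using h4)

theorem ldd_stay' {A : V → V → Prop} {P R : Finset V}
    (hPR : ∀ a ∈ P, ∀ b ∈ R, a ≠ b → ¬ A a b) {i : ℕ} {x y : V}
    (h : Wl A (P ∪ R)ᶜ i x y) (hy : y ∈ R) : Wl A Rᶜ i x y := by
  induction h with
  | nil x _ => exact .nil x (by simpa using hy)
  | @cons i x y y' h' ha hne hy' ih =>
      have h3 : y ∈ P ∪ R := by
        by_contra h
        exact h'.right_notMem (mem_compl.2 h)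
      have h4 : y ∈ R := by
        rcases mem_union.1 h3 with h | h
        · exact absurd ha (hPR y h y' hy hne)
        · exact h
      exact .cons (ih h4) ha hne (by simpa using hy)

theorem ldd_union {A : V → V → Prop} {P R : Finset V} {L : ℕ}
    (hPR : ∀ a ∈ P, ∀ b ∈ R, a ≠ b → ¬ A a b) (hP : LddGood A L P) (hR : LddGood A L R) :
    LddGood A L (P ∪ R) := by
  intro x y ⟨i, hi⟩ ⟨j, hj⟩
  have hx : x ∈ P ∪ R := by
    by_contra h
    exact hi.left_notMem (mem_compl.2 h)
  rcases mem_union.1 hx with hx | hx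
  · have h1 := ldd_stay hPR hi hx
    have hy : y ∈ P := by simpa using h1.right_notMem
    have h2 := ldd_stay hPR hj hy
    obtain ⟨l, hl, hw⟩ := hP x y ⟨i, h1⟩ ⟨j, h2⟩
    exact ⟨l, hl, hw.mono (fun _ _ h => h) (compl_subset_compl.2 subset_union_left)⟩
  · have h1 := ldd_stay' hPR hj hx
    have hy : y ∈ R := by simpa using h1.left_notMem
    have h2 := ldd_stay' hPR hi hy
    obtain ⟨l, hl, hw⟩ := hR x y ⟨i, h2⟩ ⟨j, h1⟩
    exact ⟨l, hl, hw.mono (fun _ _ h => h) (compl_subset_compl.2 subset_union_right)⟩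

theorem ldd_claim (A : V → V → Prop) (k : ℕ) (hk : 0 < k) (X : Finset V) :
    ∃ Y ⊆ X, k * (X \ Y).card ≤ X.card * Nat.log 2 X.card ∧
      LddGood A (2 * k * (Nat.log 2 (Fintype.card V) + 1)) Y := by
  induction X using Finset.strongInduction with
  | H X ih =>
  set M := Nat.log 2 (Fintype.card V) + 1 with hM
  -- the inductive step given a cut
  have step : ∀ P R : Finset V, P ⊆ X → R ⊆ X → Disjoint P R → 1 ≤ P.card →
      2 * P.card ≤ X.card → k * (X \ (P ∪ R)).card ≤ P.card →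
      ((∀ a ∈ P, ∀ b ∈ R, a ≠ b → ¬ A a b) ∨ (∀ a ∈ R, ∀ b ∈ P, a ≠ b → ¬ A a b)) →
      ∃ Y ⊆ X, k * (X \ Y).card ≤ X.card * Nat.log 2 X.card ∧ LddGood A (2 * k * M) Y := by
    intro P R hPX hRX hdis hP1 hP2 hBd hno
    have hPs : P ⊂ X := by
      refine ssubset_of_subset_of_ne hPX ?_
      rintro rfl
      omega
    have hRs : R ⊂ X := by
      refine ssubset_of_subset_of_ne hRX ?_
      rintro rfl
      obtain ⟨p, hp⟩ := card_pos.1 hP1
      exact Finset.disjoint_left.1 hdis hp (hPX hp)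
    obtain ⟨YP, hYP, hcP, hgP⟩ := ih P hPs
    obtain ⟨YR, hYR, hcR, hgR⟩ := ih R hRs
    refine ⟨YP ∪ YR, union_subset (hYP.trans hPX) (hYR.trans hRX), ?_, ?_⟩
    · have h1 : (X \ (YP ∪ YR)) ⊆ (X \ (P ∪ R)) ∪ ((P \ YP) ∪ (R \ YR)) := by
        intro u hu
        simp only [mem_sdiff, mem_union] at hu ⊢
        tauto
      have h2 : (X \ (YP ∪ YR)).card ≤ (X \ (P ∪ R)).card + ((P \ YP).card + (R \ YR).card) :=
        (card_le_card h1).trans ((card_union_le _ _).trans
          (Nat.add_le_add_left (card_union_le _ _) _))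
      have h3 : Nat.log 2 P.card + 1 ≤ Nat.log 2 X.card := by
        have h4 : Nat.log 2 (P.card * 2) = Nat.log 2 P.card + 1 :=
          Nat.log_mul_base (by norm_num) (by omega)
        rw [← h4]
        exact Nat.log_mono_right (by omega)
      have h5 : Nat.log 2 R.card ≤ Nat.log 2 X.card := Nat.log_mono_right (card_le_card hRX)
      have h6 : P.card + R.card ≤ X.card := by
        rw [← card_union_of_disjoint hdis]
        exact card_le_card (union_subset hPX hRX)
      calc k * (X \ (YP ∪ YR)).card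
          ≤ k * ((X \ (P ∪ R)).card + ((P \ YP).card + (R \ YR).card)) :=
            Nat.mul_le_mul_left _ h2
        _ = k * (X \ (P ∪ R)).card + (k * (P \ YP).card + k * (R \ YR).card) := by ring
        _ ≤ P.card + (P.card * Nat.log 2 P.card + R.card * Nat.log 2 R.card) := by gcongr
        _ = P.card * (Nat.log 2 P.card + 1) + R.card * Nat.log 2 R.card := by ring
        _ ≤ P.card * Nat.log 2 X.card + R.card * Nat.log 2 X.card := by gcongr
        _ = (P.card + R.card) * Nat.log 2 X.card := by ring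
        _ ≤ X.card * Nat.log 2 X.card := by gcongr
    · rcases hno with hno | hno
      · exact ldd_union (fun a ha b hb => hno a (hYP ha) b (hYR hb)) hgP hgR
      · rw [union_comm]
        exact ldd_union (fun a ha b hb => hno a (hYR ha) b (hYP hb)) hgR hgP
  by_cases hout : ∃ v ∈ X, 2 * (lddBall A X (k * M) v).card ≤ X.card
  · obtain ⟨v, hv, hv2⟩ := hout
    obtain ⟨P, R, h1, h2, h3, h4, h5, h6, h7⟩ := ldd_cut A X k hk v hv hv2
    exact step P R h1 h2 h3 h4 h5 h6 (Or.inl h7)
  by_cases hin : ∃ v ∈ X, 2 * (lddBall (fun a b => A b a) X (k * M) v).card ≤ X.card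
  · obtain ⟨v, hv, hv2⟩ := hin
    obtain ⟨P, R, h1, h2, h3, h4, h5, h6, h7⟩ := ldd_cut (fun a b => A b a) X k hk v hv hv2
    exact step P R h1 h2 h3 h4 h5 h6 (Or.inr (fun a ha b hb hne => h7 b hb a ha hne.symm))
  push Not at hout hin
  refine ⟨X, Subset.refl _, by simp, ?_⟩
  intro x y ⟨i, hi⟩ ⟨j, hj⟩
  have hx : x ∈ X := by simpa using hi.left_notMem
  have hy : y ∈ X := by simpa using hi.right_notMem
  have h1 := hout x hx
  have h2 := hin y hy
  have h3 : ¬ Disjoint (lddBall A X (k * M) x) (lddBall (fun a b => A b a) X (k * M) y) := by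
    intro hd
    have h4 := card_union_of_disjoint hd
    have h5 := card_le_card (union_subset (lddBall_sub A X (k * M) x)
      (lddBall_sub (fun a b => A b a) X (k * M) y))
    omega
  obtain ⟨u, hu1, hu2⟩ := Finset.not_disjoint_iff.1 h3
  obtain ⟨a, ha, hwa⟩ := mem_lddBall.1 hu1
  obtain ⟨b, hb, hwb⟩ := mem_lddBall.1 hu2
  have hwb' : Wl A Xᶜ b u y := ldd_flip hwb
  refine ⟨a + b, ?_, hwa.append hwb'⟩
  have : 2 * k * M = k * M + k * M := by ring
  omega

/-- Low-diameter decomposition: after deleting few vertices, mutually reachable vertices are at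
distance at most `2 k (log₂ n + 1)`. -/
theorem ldd (A : V → V → Prop) (S : Finset V) (k : ℕ) (hk : 0 < k) :
    ∃ S' : Finset V, S ⊆ S' ∧ k * (S' \ S).card ≤ Fintype.card V * Nat.log 2 (Fintype.card V) ∧
      ∀ x y, Rch A S' x y → Rch A S' y x →
        ∃ i ≤ 2 * k * (Nat.log 2 (Fintype.card V) + 1), Wl A S' i x y := by
  obtain ⟨Y, hY, hc, hg⟩ := ldd_claim A k hk Sᶜ
  refine ⟨Yᶜ, ?_, ?_, hg⟩
  · intro u hu
    rw [mem_compl]
    intro h
    exact (mem_compl.1 (hY h)) hu
  · have h1 : Yᶜ \ S = Sᶜ \ Y := by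
      ext u
      simp only [mem_sdiff, mem_compl]
      tauto
    rw [h1]
    refine hc.trans ?_
    have h2 : (Sᶜ : Finset V).card ≤ Fintype.card V := card_le_univ _
    exact Nat.mul_le_mul h2 (Nat.log_mono_right h2)

end EMx
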