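import Pool.Agent.H.MP_36be4a.Walks

/-! Potentials from short walks. -/

namespace EMx

open Finset

variable {V : Type*} [Fintype V] [DecidableEq V]

/-- A choice of base points in the classes of mutual reachability. -/
theorem pot_base (A : V → V → Prop) (S : Finset V) :
    ∃ base : V → V, (∀ x, x ∉ S → Rch A S (base x) x ∧ Rch A S x (base x)) ∧
      ∀ x y, Rch A S x y → Rch A S y x → base x = base y := by
  classical
  let r : Setoid V := {
    r := fun x y => x = y ∨ (Rch A S x y ∧ Rch A S y x)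
    iseqv := ⟨fun x => Or.inl rfl, fun {x y} h => by
      rcases h with h | h
      · exact Or.inl h.symm
      · exact Or.inr ⟨h.2, h.1⟩, fun {x y z} h h' => by
      rcases h with rfl | h
      · exact h'
      · rcases h' with rfl | h'
        · exact Or.inr h
        · exact Or.inr ⟨h.1.trans h'.1, h'.2.trans h.2⟩⟩ }
  refine ⟨fun x => (Quotient.mk r x).out, ?_, ?_⟩
  · intro x hx
    have h1 : r.r (Quotient.mk r x).out x := Quotient.mk_out x
    rcases h1 with h1 | h1
    · simp only [h1]
      exact ⟨Rch.refl hx, Rch.refl hx⟩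
    · exact h1
  · intro x y h h'
    have h2 : Quotient.mk r x = Quotient.mk r y := Quotient.sound (Or.inr ⟨h, h'⟩)
    simp only [h2]

/-- If closed walks with at most `2 s + m` arcs have nonnegative weight, arcs have weight at most
`B` in absolute value and mutually reachable vertices are at distance at most `s`, then there is a
potential which is feasible for the weights `m * w` up to the additive error `2 B s`. -/
theorem pot (A : V → V → Prop) (S : Finset V) (w : V → V → ℤ) (B s m : ℕ)
    (hB : ∀ x y, A x y → |w x y| ≤ B)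
    (hcl : ∀ (i : ℕ) (x : V) (z : ℤ), Wk A S w i x x z → i ≤ 2 * s + m → 0 ≤ z)
    (hd : ∀ x y, Rch A S x y → Rch A S y x → ∃ i ≤ s, Wl A S i x y) :
    ∃ Φ : V → ℤ, ∀ x y, x ∉ S → y ∉ S → A x y → x ≠ y → Rch A S y x →
      Φ y ≤ Φ x + m * w x y + 2 * B * s := by
  classical
  obtain ⟨base, hbase, hbeq⟩ := pot_base A S
  let W : ℕ → V → Set ℤ := fun j x => {z | ∃ i ≤ j, Wk A S w i (base x) x z}
  have hbdd : ∀ j x, BddBelow (W j x) := by
    intro j x
    refine ⟨-((B : ℤ) * j), ?_⟩
    rintro z ⟨i, hi, hz⟩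
    have h1 := hz.abs_le hB
    have h2 : (B : ℤ) * i ≤ B * j := by
      have : (i : ℤ) ≤ j := by exact_mod_cast hi
      exact mul_le_mul_of_nonneg_left this (by positivity)
    have h3 := neg_le_of_abs_le h1
    linarith
  let h : ℕ → V → ℤ := fun j x => sInf (W j x)
  -- a short walk from the base point
  have hshort : ∀ x, x ∉ S → ∃ i ≤ s, ∃ z, Wk A S w i (base x) x z ∧ z ≤ (B : ℤ) * s := by
    intro x hx
    obtain ⟨i, hi, hw⟩ := hd (base x) x (hbase x hx).1 (hbase x hx).2
    obtain ⟨z, hz⟩ := hw.toWk w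
    refine ⟨i, hi, z, hz, ?_⟩
    have h1 := le_of_abs_le (hz.abs_le hB)
    have h2 : (B : ℤ) * i ≤ B * s := by
      have : (i : ℤ) ≤ s := by exact_mod_cast hi
      exact mul_le_mul_of_nonneg_left this (by positivity)
    linarith
  have hne : ∀ j x, x ∉ S → s ≤ j → (W j x).Nonempty := by
    intro j x hx hj
    obtain ⟨i, hi, z, hz, -⟩ := hshort x hx
    exact ⟨z, i, hi.trans hj, hz⟩
  have hmem : ∀ j x, x ∉ S → s ≤ j → h j x ∈ W j x := by
    intro j x hx hj
    exact Int.csInf_mem (hne j x hx hj) (hbdd j x)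
  -- upper bound
  have hup : ∀ j x, x ∉ S → s ≤ j → h j x ≤ (B : ℤ) * s := by
    intro j x hx hj
    obtain ⟨i, hi, z, hz, hzB⟩ := hshort x hx
    exact (csInf_le (hbdd j x) ⟨i, hi.trans hj, hz⟩).trans hzB
  -- lower bound
  have hlow : ∀ j x, x ∉ S → s ≤ j → j ≤ s + m → -((B : ℤ) * s) ≤ h j x := by
    intro j x hx hj hj'
    obtain ⟨i, hi, hz⟩ := hmem j x hx hj
    obtain ⟨i', hi', hw'⟩ := hd x (base x) (hbase x hx).2 (hbase x hx).1
    obtain ⟨z', hz'⟩ := hw'.toWk w
    have h0 := hcl _ _ _ (hz.append hz') (by omega)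
    have h1 := le_of_abs_le (hz'.abs_le hB)
    have h2 : (B : ℤ) * i' ≤ B * s := by
      have : (i' : ℤ) ≤ s := by exact_mod_cast hi'
      exact mul_le_mul_of_nonneg_left this (by positivity)
    linarith
  -- the arc inequality
  have harc : ∀ j x y, x ∉ S → y ∉ S → A x y → x ≠ y → Rch A S y x → s ≤ j →
      h (j + 1) y ≤ h j x + w x y := by
    intro j x y hx hy ha hxy hr hj
    have hb : base x = base y := hbeq x y (Rch.arc hx hy ha hxy) hr
    obtain ⟨i, hi, hz⟩ := hmem j x hx hj
    have h1 : Wk A S w (i + 1) (base y) y (h j x + w x y) := by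
      rw [← hb]
      exact .cons hz ha hxy hy
    exact csInf_le (hbdd (j + 1) y) ⟨i + 1, by omega, h1⟩
  refine ⟨fun x => ∑ j ∈ range m, h (s + j) x, ?_⟩
  intro x y hx hy ha hxy hr
  have h1 : ∑ j ∈ range m, h (s + (j + 1)) y ≤ ∑ j ∈ range m, (h (s + j) x + w x y) := by
    refine sum_le_sum fun j _ => ?_
    have := harc (s + j) x y hx hy ha hxy hr (by omega)
    simpa [add_assoc] using this
  have h2 : ∑ j ∈ range m, (h (s + j) x + w x y) = ∑ j ∈ range m, h (s + j) x + m * w x y := by
    rw [sum_add_distrib]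
    simp
  have h3 : ∑ j ∈ range m, h (s + (j + 1)) y + h (s + 0) y
      = ∑ j ∈ range m, h (s + j) y + h (s + m) y := by
    rw [← sum_range_succ' (fun j => h (s + j) y) m, sum_range_succ]
  have h4 := hup (s + 0) y hy (by omega)
  have h5 := hlow (s + m) y hy (by omega) le_rfl
  show ∑ j ∈ range m, h (s + j) y ≤ ∑ j ∈ range m, h (s + j) x + m * w x y + 2 * B * s
  linarith

end EMx
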