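import Pool.Agent.H.MP_36be4a.Defs

/-! Rounding an approximate potential to an exact integral one by deleting a random phase. -/

namespace EMx

open Finset

variable {V : Type*} [Fintype V] [DecidableEq V]

private theorem rnd_count (a : ℤ) (D η : ℕ) (hD : 0 < D) :
    ((range D).filter (fun θ : ℕ => (a + (θ : ℤ)) % (D : ℤ) < (η : ℤ))).card ≤ η := by
  have hD' : (D : ℤ) ≠ 0 := by exact_mod_cast hD.ne'
  have hDpos : (0 : ℤ) < (D : ℤ) := by exact_mod_cast hD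
  have hinj : ((range D).filter (fun θ : ℕ => (a + (θ : ℤ)) % (D : ℤ) < (η : ℤ))).card
      ≤ (range η).card := by
    refine Finset.card_le_card_of_injOn (fun θ : ℕ => ((a + (θ : ℤ)) % (D : ℤ)).toNat) ?_ ?_
    · intro θ hθ
      have hθ' := Finset.mem_filter.mp (Finset.mem_coe.mp hθ)
      have h0 : 0 ≤ (a + (θ : ℤ)) % (D : ℤ) := Int.emod_nonneg _ hD'
      have h1 : (a + (θ : ℤ)) % (D : ℤ) < (η : ℤ) := hθ'.2
      simp only [Finset.coe_range, Set.mem_Iio]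
      omega
    · intro θ hθ θ' hθ' he
      have h1 := Finset.mem_filter.mp (Finset.mem_coe.mp hθ)
      have h2 := Finset.mem_filter.mp (Finset.mem_coe.mp hθ')
      have l1 : θ < D := Finset.mem_range.mp h1.1
      have l2 : θ' < D := Finset.mem_range.mp h2.1
      have p1 : 0 ≤ (a + (θ : ℤ)) % (D : ℤ) := Int.emod_nonneg _ hD'
      have p2 : 0 ≤ (a + (θ' : ℤ)) % (D : ℤ) := Int.emod_nonneg _ hD'
      have he' : (a + (θ : ℤ)) % (D : ℤ) = (a + (θ' : ℤ)) % (D : ℤ) := by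
        have : ((a + (θ : ℤ)) % (D : ℤ)).toNat = ((a + (θ' : ℤ)) % (D : ℤ)).toNat := he
        omega
      have hm : ((θ : ℤ)) % (D : ℤ) = ((θ' : ℤ)) % (D : ℤ) := by
        have hd : (D : ℤ) ∣ (a + (θ : ℤ)) - (a + (θ' : ℤ)) :=
          Int.ModEq.dvd (Int.ModEq.symm he')
        have hd' : (D : ℤ) ∣ (θ : ℤ) - (θ' : ℤ) := by
          have e : (a + (θ : ℤ)) - (a + (θ' : ℤ)) = (θ : ℤ) - (θ' : ℤ) := by ring
          rwa [e] at hd
        exact (Int.emod_emod_of_dvd _ (dvd_refl _)).symm.trans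
          ((Int.emod_eq_emod_iff_emod_sub_eq_zero.mpr (Int.emod_eq_zero_of_dvd hd')) ▸
            Int.emod_emod_of_dvd _ (dvd_refl _))
      have q1 : (θ : ℤ) % (D : ℤ) = (θ : ℤ) :=
        Int.emod_eq_of_lt (by exact_mod_cast Nat.zero_le θ) (by exact_mod_cast l1)
      have q2 : (θ' : ℤ) % (D : ℤ) = (θ' : ℤ) :=
        Int.emod_eq_of_lt (by exact_mod_cast Nat.zero_le θ') (by exact_mod_cast l2)
      rw [q1, q2] at hm
      exact_mod_cast hm
  simpa using hinj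

theorem rnd (E : V → V → Prop) (Ψ : V → ℤ) (w : V → V → ℤ) (D η : ℕ) (hD : 0 < D)
    (h : ∀ x y, E x y → Ψ y ≤ Ψ x + D * w x y + η) :
    ∃ (T : Finset V) (t : V → ℤ), D * T.card ≤ Fintype.card V * η ∧
      ∀ x y, x ∉ T → y ∉ T → E x y → t y ≤ t x + w x y := by
  have hD' : (D : ℤ) ≠ 0 := by exact_mod_cast hD.ne'
  have hDpos : (0 : ℤ) < (D : ℤ) := by exact_mod_cast hD
  let Del : ℕ → Finset V := fun θ =>
    (univ : Finset V).filter (fun x => (Ψ x + (θ : ℤ)) % (D : ℤ) < (η : ℤ))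
  have hsum : ∑ θ ∈ range D, (Del θ).card ≤ Fintype.card V * η := by
    have e1 : ∑ θ ∈ range D, (Del θ).card
        = ∑ x : V, ((range D).filter
            (fun θ : ℕ => (Ψ x + (θ : ℤ)) % (D : ℤ) < (η : ℤ))).card := by
      simp only [Del, Finset.card_filter]
      rw [Finset.sum_comm]
    rw [e1]
    calc ∑ x : V, ((range D).filter
            (fun θ : ℕ => (Ψ x + (θ : ℤ)) % (D : ℤ) < (η : ℤ))).card
        ≤ ∑ _x : V, η := Finset.sum_le_sum (fun x _ => rnd_count (Ψ x) D η hD)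
      _ = Fintype.card V * η := by simp [Finset.card_univ]
  obtain ⟨θ, hθ, hθc⟩ : ∃ θ ∈ range D, D * (Del θ).card ≤ Fintype.card V * η := by
    by_contra hcon
    push Not at hcon
    have hlt : ∑ _θ ∈ range D, (Fintype.card V * η) < ∑ θ ∈ range D, D * (Del θ).card :=
      Finset.sum_lt_sum_of_nonempty ⟨0, Finset.mem_range.mpr hD⟩ (fun θ hθ => hcon θ hθ)
    rw [Finset.sum_const, Finset.card_range, ← Finset.mul_sum, smul_eq_mul] at hlt
    exact absurd (Nat.mul_le_mul_left D hsum) (not_le.mpr hlt)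
  refine ⟨Del θ, fun x => (Ψ x + (θ : ℤ)) / (D : ℤ), hθc, ?_⟩
  intro x y hx hy hE
  have hyρ : (η : ℤ) ≤ (Ψ y + (θ : ℤ)) % (D : ℤ) := by
    by_contra hc
    push Not at hc
    exact hy (Finset.mem_filter.mpr ⟨Finset.mem_univ _, hc⟩)
  have hxρ : (Ψ x + (θ : ℤ)) % (D : ℤ) < (D : ℤ) := Int.emod_lt_of_pos _ hDpos
  have ey := Int.mul_ediv_add_emod (Ψ y + (θ : ℤ)) (D : ℤ)
  have ex := Int.mul_ediv_add_emod (Ψ x + (θ : ℤ)) (D : ℤ)
  have hh := h x y hE
  have key : (D : ℤ) * ((Ψ y + (θ : ℤ)) / (D : ℤ))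
      < (D : ℤ) * ((Ψ x + (θ : ℤ)) / (D : ℤ) + w x y + 1) := by
    have e : (D : ℤ) * ((Ψ x + (θ : ℤ)) / (D : ℤ) + w x y + 1)
        = (D : ℤ) * ((Ψ x + (θ : ℤ)) / (D : ℤ)) + (D : ℤ) * w x y + (D : ℤ) := by ring
    rw [e]
    linarith
  have := lt_of_mul_lt_mul_left key hDpos.le
  show (Ψ y + (θ : ℤ)) / (D : ℤ) ≤ (Ψ x + (θ : ℤ)) / (D : ℤ) + w x y
  omega

end EMx
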