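import Pool.Agent.H.MP_36be4a.Close
import Pool.Agent.H.MP_36be4a.Ldd
import Pool.Agent.H.MP_36be4a.Pot
import Pool.Agent.H.MP_36be4a.Rnd
import Pool.Agent.H.MP_36be4a.Dir
import Pool.Agent.H.MP_36be4a.Exc

/-! One round: the reference matching becomes optimal for an integral combination
`α c - β r` after deleting few vertices. -/

namespace EMx

open Finset

variable {V : Type*} [Fintype V] [DecidableEq V]

/-- `Cst n k Q m d`: `d` is an admissible number of deleted vertices in one round, with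
`s = 2 k (log₂ n + 1)` and `l = 2 s + m`. -/
def Cst (n k Q m d : ℕ) : Prop :=
  ∃ d₁ d₂ : ℕ, k * d₁ ≤ n * Nat.log 2 n ∧
    m * Q * d₂ ≤ n * (2 * m + 4 * Q ^ 2 * (2 * k * (Nat.log 2 n + 1))) ∧
    d ≤ 4 * (2 * (2 * k * (Nat.log 2 n + 1)) + m) ^ 2 + d₁ + d₂

/-- Sum over the support of a linear combination of arc weights. -/
theorem Rla_sum_support (c r : V → V → ℤ) (a b : ℤ) (π : Equiv.Perm V) :
    ∑ x ∈ π.support, (a * aw c x (π x) - b * aw r x (π x)) = a * pw c π - b * pw r π := by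
  have h1 : ∑ x ∈ π.support, (a * aw c x (π x) - b * aw r x (π x)) =
      ∑ x, (a * aw c x (π x) - b * aw r x (π x)) := by
    apply Finset.sum_subset (Finset.subset_univ _)
    intro x _ hx
    rw [Equiv.Perm.notMem_support] at hx
    rw [hx, aw_self, aw_self]
    ring
  rw [h1, Finset.sum_sub_distrib, ← Finset.mul_sum, ← Finset.mul_sum]
  rfl

/-- The key numerical inequality. -/
theorem Rla_num (a b q α β L Q m u v : ℤ) (hQ : 0 < Q) (hm : 0 ≤ m) (_hL : 0 ≤ L)
    (hu : |u| ≤ 1) (hv : |v| ≤ 1)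
    (h1 : Q * |q * a - α * L| ≤ L) (h2 : Q * |q * b - β * L| ≤ L) :
    m * (q * (a * u - b * v) - L * (α * u - β * v)) ≤ 2 * m * L / Q := by
  rw [Int.le_ediv_iff_mul_le hQ]
  have e : q * (a * u - b * v) - L * (α * u - β * v) =
      (q * a - α * L) * u - (q * b - β * L) * v := by ring
  rw [e]
  have a1 : (q * a - α * L) * u ≤ |q * a - α * L| := by
    calc (q * a - α * L) * u ≤ |(q * a - α * L) * u| := le_abs_self _
      _ = |q * a - α * L| * |u| := abs_mul _ _
      _ ≤ |q * a - α * L| * 1 := by gcongr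
      _ = |q * a - α * L| := mul_one _
  have a2 : -((q * b - β * L) * v) ≤ |q * b - β * L| := by
    calc -((q * b - β * L) * v) ≤ |(q * b - β * L) * v| := neg_le_abs _
      _ = |q * b - β * L| * |v| := abs_mul _ _
      _ ≤ |q * b - β * L| * 1 := by gcongr
      _ = |q * b - β * L| := mul_one _
  have a3 : (q * a - α * L) * u - (q * b - β * L) * v ≤ |q * a - α * L| + |q * b - β * L| := by
    linarith
  have a4 : Q * ((q * a - α * L) * u - (q * b - β * L) * v) ≤ 2 * L := by
    have := mul_le_mul_of_nonneg_left a3 hQ.le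
    rw [mul_add] at this
    linarith
  have a5 := mul_le_mul_of_nonneg_left a4 hm
  calc m * ((q * a - α * L) * u - (q * b - β * L) * v) * Q
      = m * (Q * ((q * a - α * L) * u - (q * b - β * L) * v)) := by ring
    _ ≤ m * (2 * L) := a5
    _ = 2 * m * L := by ring

theorem roundA (A : V → V → Prop) (S : Finset V) (c r : V → V → ℤ)
    (hc : ∀ x y, |aw c x y| ≤ 1) (hr : ∀ x y, |aw r x y| ≤ 1)
    (hmin : ∀ π, Adm A S π → pw r π = 0 → 0 ≤ pw c π)
    (k Q m : ℕ) (hk : 0 < k) (hQ : 2 ≤ Q) (hm : 0 < m) :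
    ∃ (S' : Finset V) (A' : V → V → Prop) (α β : ℤ) (Y Z : V → ℤ),
      S ⊆ S' ∧ (∀ x y, A' x y → A x y) ∧
      Cst (Fintype.card V) k Q m (S' \ S).card ∧
      0 ≤ α ∧ (α ≠ 0 ∨ β ≠ 0) ∧ ((∀ π, Adm A S π → pw r π = 0) → 1 ≤ α) ∧
      (∀ x y, x ∉ S' → y ∉ S' → (A' x y ∨ x = y) → α * c x y - β * r x y = Y x + Z y) ∧
      (∀ π, Adm A S' π → pw r π = 0 → pw c π = 0 → Adm A' S' π) := by
  obtain ⟨s, hs⟩ : ∃ s : ℕ, s = 2 * k * (Nat.log 2 (Fintype.card V) + 1) := ⟨_, rfl⟩
  have hl : 0 < 2 * s + m := by omega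
  obtain ⟨S₁, a, b, hS1, hcard1, ha1, hal, hbl, hb0, hexc⟩ :=
    exc A S c r hc hr hmin (2 * s + m) hl
  obtain ⟨S₂, hS2, hcard2, hdist⟩ := ldd A S₁ k hk
  rw [← hs] at hdist
  obtain ⟨L, hL⟩ : ∃ L : ℕ, (L : ℤ) = max a |b| :=
    ⟨(max a |b|).toNat, Int.toNat_of_nonneg (le_trans (by omega) (le_max_left _ _))⟩
  have haL : a ≤ L := hL ▸ le_max_left _ _
  have hbL : |b| ≤ L := hL ▸ le_max_right _ _
  have hLpos : (1 : ℤ) ≤ L := ha1.trans haL
  have hLpos' : 0 < L := by exact_mod_cast hLpos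
  have hw : ∀ x y, A x y → |a * aw c x y - b * aw r x y| ≤ ((2 * L : ℕ) : ℤ) := by
    intro x y _
    have e1 : |a * aw c x y| ≤ L := by
      rw [abs_mul, abs_of_nonneg (by omega : (0 : ℤ) ≤ a)]
      calc a * |aw c x y| ≤ a * 1 := by
            apply mul_le_mul_of_nonneg_left (hc x y) (by omega)
        _ ≤ L := by linarith
    have e2 : |b * aw r x y| ≤ L := by
      rw [abs_mul]
      calc |b| * |aw r x y| ≤ |b| * 1 := by
            apply mul_le_mul_of_nonneg_left (hr x y) (abs_nonneg _)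
        _ ≤ L := by linarith
    have e3 := abs_sub (a * aw c x y) (b * aw r x y)
    push_cast
    linarith
  have hcl : ∀ (i : ℕ) (x : V) (z : ℤ),
      Wk A S₂ (fun x y => a * aw c x y - b * aw r x y) i x x z → i ≤ 2 * s + m → 0 ≤ z := by
    intro i x z h hi
    refine closed_nonneg A S₂ _ (2 * s + m) ?_ i x z h hi
    intro π hπ hcard
    rw [Rla_sum_support c r a b π]
    exact hexc π (hπ.mono (fun _ _ h => h) hS2) hcard
  obtain ⟨Φ, hΦ⟩ := pot A S₂ (fun x y => a * aw c x y - b * aw r x y) (2 * L) s m hw hcl hdist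
  obtain ⟨q, α, β, hq0, hqQ, hα0, hαβ, hb0', hqa, hqb⟩ := dir a b ha1 L Q hL hQ
  have hQ0 : (0 : ℤ) < Q := by exact_mod_cast (by omega : 0 < Q)
  -- rounding
  obtain ⟨T, t, hT, ht⟩ := rnd
    (fun x y => A x y ∧ x ≠ y ∧ x ∉ S₂ ∧ y ∉ S₂ ∧ Rch A S₂ y x)
    (fun x => (q : ℤ) * Φ x) (fun x y => α * aw c x y - β * aw r x y) (m * L)
    (2 * m * L / Q + 4 * Q * L * s) (Nat.mul_pos hm hLpos') (by
      rintro x y ⟨hA, hne, hx, hy, hre⟩
      have h1 := hΦ x y hx hy hA hne hre
      have h2 := Rla_num a b q α β L Q m (aw c x y) (aw r x y) hQ0 (by positivity) (by positivity)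
        (hc x y) (hr x y) hqa hqb
      have hq0' : (0 : ℤ) ≤ q := by positivity
      have h3 := mul_le_mul_of_nonneg_left h1 hq0'
      have hqQ' : (q : ℤ) ≤ Q := by exact_mod_cast hqQ
      have h4 : (q : ℤ) * (2 * ((2 * L : ℕ) : ℤ) * s) ≤ 4 * Q * L * s := by
        push_cast
        have : (0 : ℤ) ≤ 4 * L * s := by positivity
        nlinarith [mul_le_mul_of_nonneg_right hqQ' this]
      have e : (((2 * m * L / Q + 4 * Q * L * s : ℕ)) : ℤ) = 2 * m * L / Q + 4 * Q * L * s := by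
        push_cast
        ring
      rw [e]
      push_cast
      have e5 : (q : ℤ) * (Φ x + m * (a * aw c x y - b * aw r x y) + 2 * ((2 * L : ℕ) : ℤ) * s)
          = q * Φ x + m * L * (α * aw c x y - β * aw r x y) +
            m * (q * (a * aw c x y - b * aw r x y) - L * (α * aw c x y - β * aw r x y)) +
            q * (2 * ((2 * L : ℕ) : ℤ) * s) := by
        ring
      rw [e5] at h3
      linarith)
  refine ⟨S₂ ∪ T, fun x y => A x y ∧ x ≠ y ∧ x ∉ S₂ ∪ T ∧ y ∉ S₂ ∪ T ∧ Rch A S₂ y x ∧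
      t y = t x + (α * aw c x y - β * aw r x y), α, β,
      fun x => α * c x x - β * r x x - t x, fun y => t y, ?_, ?_, ?_, hα0, hαβ, ?_, ?_, ?_⟩
  · exact (hS1.trans hS2).trans Finset.subset_union_left
  · intro x y h
    exact h.1
  · refine ⟨(S₂ \ S₁).card, T.card, hcard2, ?_, ?_⟩
    · -- numerics
      have h1 : Q * (m * L * T.card) ≤ Q * (Fintype.card V * (2 * m * L / Q + 4 * Q * L * s)) :=
        Nat.mul_le_mul_left _ hT
      have h2 : Q * (2 * m * L / Q) ≤ 2 * m * L := Nat.mul_div_le _ _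
      have h3 : Q * (Fintype.card V * (2 * m * L / Q + 4 * Q * L * s)) =
          Fintype.card V * (Q * (2 * m * L / Q) + 4 * Q ^ 2 * L * s) := by ring
      have h4 : Fintype.card V * (Q * (2 * m * L / Q) + 4 * Q ^ 2 * L * s) ≤
          Fintype.card V * (2 * m * L + 4 * Q ^ 2 * L * s) := by
        apply Nat.mul_le_mul_left
        omega
      rw [← hs]
      apply Nat.le_of_mul_le_mul_left _ hLpos'
      calc L * (m * Q * T.card) = Q * (m * L * T.card) := by ring
        _ ≤ _ := h1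
        _ = _ := h3
        _ ≤ _ := h4
        _ = L * (Fintype.card V * (2 * m + 4 * Q ^ 2 * s)) := by ring
    · rw [← hs]
      have h1 : ((S₂ ∪ T) \ S).card ≤ (S₁ \ S).card + (S₂ \ S₁).card + T.card := by
        have hsub : (S₂ ∪ T) \ S ⊆ (S₁ \ S) ∪ (S₂ \ S₁) ∪ T := by
          intro x hx
          simp only [Finset.mem_sdiff, Finset.mem_union] at hx ⊢
          tauto
        calc ((S₂ ∪ T) \ S).card ≤ ((S₁ \ S) ∪ (S₂ \ S₁) ∪ T).card := Finset.card_le_card hsub
          _ ≤ ((S₁ \ S) ∪ (S₂ \ S₁)).card + T.card := Finset.card_union_le _ _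
          _ ≤ (S₁ \ S).card + (S₂ \ S₁).card + T.card := by
            have := Finset.card_union_le (S₁ \ S) (S₂ \ S₁)
            omega
      have h2 : (S₁ \ S).card = S₁.card - S.card := Finset.card_sdiff_of_subset hS1
      omega
  · intro h
    exact (hb0' (hb0 h)).1
  · intro x y hx hy h
    rcases h with ⟨_, _, _, _, _, ht'⟩ | rfl
    · simp only [aw] at ht'
      show α * c x y - β * r x y = α * c x x - β * r x x - t x + t y
      rw [ht']
      ring
    · show α * c x x - β * r x x = α * c x x - β * r x x - t x + t x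
      ring
  · intro π hπ hr0 hc0
    have hπ2 : Adm A S₂ π := hπ.mono (fun _ _ h => h) Finset.subset_union_left
    have hle : ∀ x, t (π x) ≤ t x + (α * aw c x (π x) - β * aw r x (π x)) := by
      intro x
      by_cases hx : π x = x
      · rw [hx, aw_self, aw_self]
        simp
      · have hxS : x ∉ S₂ ∪ T := hπ.notMem hx
        have hxS' : π x ∉ S₂ ∪ T := by
          apply hπ.notMem
          intro h
          exact hx (π.injective h)
        rw [Finset.mem_union, not_or] at hxS hxS'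
        exact ht x (π x) hxS.2 hxS'.2
          ⟨hπ.1 x hx, fun h => hx h.symm, hxS.1, hxS'.1, (hπ2.rch hx).2⟩
    have hsum : ∑ x, (t x + (α * aw c x (π x) - β * aw r x (π x)) - t (π x)) = 0 := by
      rw [Finset.sum_sub_distrib, Finset.sum_add_distrib, Equiv.sum_comp π t,
        Finset.sum_sub_distrib, ← Finset.mul_sum, ← Finset.mul_sum]
      have e1 : ∑ x, aw c x (π x) = 0 := hc0
      have e2 : ∑ x, aw r x (π x) = 0 := hr0
      rw [e1, e2]
      ring
    have hall := (Finset.sum_eq_zero_iff_of_nonneg (fun x _ => by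
      have := hle x
      linarith)).1 hsum
    refine ⟨?_, hπ.2⟩
    intro x hx
    have hxS : x ∉ S₂ ∪ T := hπ.notMem hx
    have hxS' : π x ∉ S₂ ∪ T := by
      apply hπ.notMem
      intro h
      exact hx (π.injective h)
    refine ⟨hπ.1 x hx, fun h => hx h.symm, hxS, hxS', (hπ2.rch hx).2, ?_⟩
    have := hall x (Finset.mem_univ _)
    linarith

end EMx
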