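import Pool.Agent.H.MP_36be4a.Par
import Pool.Agent.H.MP_36be4a.Rla

/-! The explicit cost bound. -/

namespace EMx

/-- With `k = Q = t²` and `M = t⁶ L` the number of deleted vertices in one round is at most
`111 t¹² L²`. -/
theorem cst_bound (n : ℕ) (hn : 0 < n) (t : ℕ) (ht : n ≤ t ^ 14) (ht2 : 2 ≤ t) (d : ℕ)
    (h : Cst n (t ^ 2) (t ^ 2) (t ^ 6 * (Nat.log 2 n + 1)) d) :
    d ≤ 111 * t ^ 12 * (Nat.log 2 n + 1) ^ 2 := by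
  obtain ⟨d₁, d₂, h1, h2, h3⟩ := h
  have hlog : Nat.log 2 n ≤ Nat.log 2 n + 1 := Nat.le_succ _
  have hL : 1 ≤ Nat.log 2 n + 1 := Nat.le_add_left 1 _
  set L := Nat.log 2 n + 1 with hLdef
  have htpos : 0 < t := by omega
  have e1 : d₁ ≤ t ^ 12 * L := by
    have : t ^ 2 * d₁ ≤ t ^ 2 * (t ^ 12 * L) := by
      calc t ^ 2 * d₁ ≤ n * Nat.log 2 n := h1
        _ ≤ t ^ 14 * L := Nat.mul_le_mul ht hlog
        _ = t ^ 2 * (t ^ 12 * L) := by ring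
    exact Nat.le_of_mul_le_mul_left this (by positivity)
  have e2 : d₂ ≤ 10 * t ^ 12 := by
    have : (t ^ 8 * L) * d₂ ≤ (t ^ 8 * L) * (10 * t ^ 12) := by
      calc (t ^ 8 * L) * d₂ = t ^ 6 * L * t ^ 2 * d₂ := by ring
        _ ≤ n * (2 * (t ^ 6 * L) + 4 * (t ^ 2) ^ 2 * (2 * t ^ 2 * L)) := h2
        _ = n * (10 * (t ^ 6 * L)) := by ring
        _ ≤ t ^ 14 * (10 * (t ^ 6 * L)) := Nat.mul_le_mul_right _ ht
        _ = (t ^ 8 * L) * (10 * t ^ 12) := by ring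
    exact Nat.le_of_mul_le_mul_left this (by positivity)
  have e3 : 2 * (2 * t ^ 2 * L) + t ^ 6 * L ≤ 5 * (t ^ 6 * L) := by
    have h4 : t ^ 2 ≤ t ^ 6 := Nat.pow_le_pow_right htpos (by norm_num)
    have h5 : t ^ 2 * L ≤ t ^ 6 * L := Nat.mul_le_mul_right _ h4
    have h6 : 2 * (2 * t ^ 2 * L) = 4 * (t ^ 2 * L) := by ring
    omega
  have e4 : (2 * (2 * t ^ 2 * L) + t ^ 6 * L) ^ 2 ≤ 25 * (t ^ 12 * L ^ 2) := by
    calc (2 * (2 * t ^ 2 * L) + t ^ 6 * L) ^ 2 ≤ (5 * (t ^ 6 * L)) ^ 2 :=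
          Nat.pow_le_pow_left e3 2
      _ = 25 * (t ^ 12 * L ^ 2) := by ring
  have e5 : t ^ 12 * L ≤ t ^ 12 * L ^ 2 :=
    Nat.mul_le_mul_left _ (Nat.le_self_pow (by norm_num) L)
  have e6 : t ^ 12 ≤ t ^ 12 * L ^ 2 := Nat.le_mul_of_pos_right _ (by positivity)
  have e7 : 111 * t ^ 12 * L ^ 2 = 111 * (t ^ 12 * L ^ 2) := by ring
  rw [e7]
  omega

/-- The last stage. -/
theorem fin_bound (n : ℕ) (t : ℕ) (ht : n ≤ t ^ 14) (ht2 : 2 ≤ t) (d : ℕ)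
    (h : t * d ≤ n * Nat.log 2 n) : d ≤ t ^ 13 * (Nat.log 2 n + 1) := by
  have h1 : t * d ≤ t * (t ^ 13 * (Nat.log 2 n + 1)) := by
    calc t * d ≤ n * Nat.log 2 n := h
      _ ≤ t ^ 14 * (Nat.log 2 n + 1) := Nat.mul_le_mul ht (Nat.le_succ _)
      _ = t * (t ^ 13 * (Nat.log 2 n + 1)) := by ring
  exact Nat.le_of_mul_le_mul_left h1 (by omega)

end EMx
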