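import Pool.Agent.H.MP_36be4a.Par

/-! Size of the hitting set. -/

namespace EMx

open Finset

theorem cbd_card_le (m q : ℕ) :
    (univ.filter (fun T : Finset (Fin m × Fin m) => T.card ≤ q)).card ≤ (m ^ 2 + 1) ^ q := by
  classical
  set F : (Fin q → Option (Fin m × Fin m)) → Finset (Fin m × Fin m) :=
    fun g => univ.filter (fun e => ∃ i, g i = some e) with hF
  have hsub : (univ.filter (fun T : Finset (Fin m × Fin m) => T.card ≤ q)) ⊆ univ.image F := by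
    intro T hT
    rw [mem_filter] at hT
    rw [mem_image]
    refine ⟨fun i => if h : i.val < T.card then some (T.equivFin.symm ⟨i.val, h⟩).val else none,
      mem_univ _, ?_⟩
    ext e
    simp only [hF, mem_filter, mem_univ, true_and]
    constructor
    · rintro ⟨i, hi⟩
      by_cases h : i.val < T.card
      · rw [dif_pos h] at hi
        have := Option.some.inj hi
        rw [← this]
        exact (T.equivFin.symm ⟨i.val, h⟩).2
      · rw [dif_neg h] at hi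
        exact absurd hi (by simp)
    · intro he
      refine ⟨⟨(T.equivFin ⟨e, he⟩).val, lt_of_lt_of_le (T.equivFin ⟨e, he⟩).2 hT.2⟩, ?_⟩
      have h : (T.equivFin ⟨e, he⟩).val < T.card := (T.equivFin ⟨e, he⟩).2
      rw [dif_pos h]
      simp
  calc (univ.filter (fun T : Finset (Fin m × Fin m) => T.card ≤ q)).card
      ≤ (univ.image F).card := card_le_card hsub
    _ ≤ (univ : Finset (Fin q → Option (Fin m × Fin m))).card := card_image_le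
    _ = (m ^ 2 + 1) ^ q := by
        rw [card_univ, Fintype.card_fun, Fintype.card_option, Fintype.card_prod, Fintype.card_fin,
          Fintype.card_fin]
        congr 2
        ring

theorem cbd_geom (m J : ℕ) (hm : 0 < m) :
    ∑ b ∈ range J, (m + 1) ^ (J - 1 - b) ≤ (m + 1) ^ J := by
  rw [Finset.sum_range_reflect (fun b => (m + 1) ^ b) J]
  induction J with
  | zero => simp
  | succ n ih =>
    rw [sum_range_succ]
    have : (m + 1) ^ (n + 1) = m * (m + 1) ^ n + (m + 1) ^ n := by ring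
    rw [this]
    have h2 : (m + 1) ^ n ≤ m * (m + 1) ^ n := Nat.le_mul_of_pos_left _ hm
    omega

theorem cbd_wt_le (m a : ℕ) (T : Finset (Fin m × Fin m)) (hm : 0 < m) (i j : Fin m) :
    wt m a T i j ≤ 2 * (m + 1) ^ JJ m := by
  unfold wt
  have h1 : (if (i, j) ∈ T then 0 else (m + 1) ^ JJ m) ≤ (m + 1) ^ JJ m := by
    split_ifs
    · exact Nat.zero_le _
    · exact le_refl _
  have h2 : ∑ b ∈ range (JJ m), (m + 1) ^ (JJ m - 1 - b) *
      (if (hv m (pp m) a i j).testBit b then 1 else 0) ≤ (m + 1) ^ JJ m := by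
    refine le_trans (sum_le_sum (fun b _ => ?_)) (cbd_geom m (JJ m) hm)
    split_ifs
    · simp
    · simp
  omega

theorem cbd_lt_two_pow (m : ℕ) : m + 1 ≤ 2 ^ LL m := by
  unfold LL
  exact Nat.lt_pow_succ_log_self (by norm_num) m

theorem cbd_tt_le (m : ℕ) : tt m ≤ m + 2 := by
  unfold tt
  have := Nat.find_min' (⟨m, Nat.le_self_pow (by norm_num) m⟩ : ∃ t, m ≤ t ^ 14)
    (Nat.le_self_pow (by norm_num) m : m ≤ m ^ 14)
  omega

theorem cbd_two_le_tt (m : ℕ) : 2 ≤ tt m := by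
  unfold tt
  omega

theorem cbd_pp_le (m : ℕ) :
    pp m ≤ 2 * (m ^ 2 * (m ^ 2 * (4 * ll m + 1)) ^ (4 * ll m) + 2 * ll m + 1) := by
  obtain ⟨p, hp, h1, h2⟩ := Nat.exists_prime_lt_and_le_two_mul
    (m ^ 2 * (m ^ 2 * (4 * ll m + 1)) ^ (4 * ll m) + 2 * ll m + 1) (by omega)
  refine le_trans ?_ h2
  unfold pp
  exact Nat.find_min' _ ⟨h1.le, hp⟩

theorem cbd_J_le (m : ℕ) : JJ m ≤ 172 * tt m * LL m ^ 2 := by
  have hL1 : 1 ≤ LL m := by unfold LL; omega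
  have ht2 := cbd_two_le_tt m
  have htm := cbd_tt_le m
  have hm := cbd_lt_two_pow m
  have hLL : LL m ≤ 2 ^ LL m := Nat.lt_two_pow_self.le
  have hl : ll m = 4 * tt m * LL m := rfl
  have hl8 : 8 ≤ ll m := by
    rw [hl]
    nlinarith
  set L := LL m with hLdef
  set t := tt m with htdef
  set l := ll m with hldef
  have ht : t ≤ 2 ^ (L + 1) := by
    rw [pow_succ]
    have : 1 ≤ 2 ^ L := Nat.one_le_two_pow
    omega
  have h1 : l ≤ 2 ^ (2 * L + 3) := by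
    rw [hl]
    calc 4 * t * L ≤ 4 * 2 ^ (L + 1) * 2 ^ L := by gcongr
      _ = 2 ^ (2 * L + 3) := by
        rw [show 2 * L + 3 = (L + 1) + L + 2 by ring, pow_add _ (L + 1 + L) 2,
          pow_add _ (L + 1) L]
        ring
  have h2 : 4 * l + 1 ≤ 2 ^ (2 * L + 6) := by
    have h3 : 2 ^ (2 * L + 6) = 8 * 2 ^ (2 * L + 3) := by
      rw [show 2 * L + 6 = (2 * L + 3) + 3 by ring, pow_add]
      ring
    rw [h3]
    omega
  have hm2 : m ^ 2 ≤ 2 ^ (2 * L) := by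
    calc m ^ 2 ≤ (2 ^ L) ^ 2 := Nat.pow_le_pow_left (by omega) 2
      _ = 2 ^ (2 * L) := by rw [← pow_mul, mul_comm]
  have h4 : m ^ 2 * (4 * l + 1) ≤ 2 ^ (10 * L) := by
    calc m ^ 2 * (4 * l + 1) ≤ 2 ^ (2 * L) * 2 ^ (2 * L + 6) := Nat.mul_le_mul hm2 h2
      _ = 2 ^ (4 * L + 6) := by rw [← pow_add]; congr 1; ring
      _ ≤ 2 ^ (10 * L) := Nat.pow_le_pow_right (by norm_num) (by omega)
  have h5 : (m ^ 2 * (4 * l + 1)) ^ (4 * l) ≤ 2 ^ (40 * (l * L)) := by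
    calc (m ^ 2 * (4 * l + 1)) ^ (4 * l) ≤ (2 ^ (10 * L)) ^ (4 * l) := Nat.pow_le_pow_left h4 _
      _ = 2 ^ (40 * (l * L)) := by rw [← pow_mul]; congr 1; ring
  have hlL : 8 * L ≤ l * L := Nat.mul_le_mul_right L hl8
  have h6 : m ^ 2 * (m ^ 2 * (4 * l + 1)) ^ (4 * l) ≤ 2 ^ (41 * (l * L)) := by
    calc m ^ 2 * (m ^ 2 * (4 * l + 1)) ^ (4 * l) ≤ 2 ^ (2 * L) * 2 ^ (40 * (l * L)) :=
          Nat.mul_le_mul hm2 h5
      _ = 2 ^ (2 * L + 40 * (l * L)) := by rw [← pow_add]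
      _ ≤ 2 ^ (41 * (l * L)) := Nat.pow_le_pow_right (by norm_num) (by omega)
  have h7 : 2 * l + 1 ≤ 2 ^ (41 * (l * L)) := by
    calc 2 * l + 1 ≤ 4 * l + 1 := by omega
      _ ≤ 2 ^ (2 * L + 6) := h2
      _ ≤ 2 ^ (41 * (l * L)) := Nat.pow_le_pow_right (by norm_num) (by omega)
  have h8 : pp m < 2 ^ (41 * (l * L) + 3) := by
    have h9 := cbd_pp_le m
    rw [← hldef] at h9
    have h10 : 2 ^ (41 * (l * L) + 3) = 8 * 2 ^ (41 * (l * L)) := by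
      rw [pow_add]
      ring
    rw [h10]
    have h11 : 0 < 2 ^ (41 * (l * L)) := by positivity
    omega
  have h12 : Nat.log 2 (pp m) < 41 * (l * L) + 3 := Nat.log_lt_of_lt_pow' (by omega) h8
  have h13 : JJ m ≤ 43 * (l * L) := by
    unfold JJ
    omega
  calc JJ m ≤ 43 * (l * L) := h13
    _ = 172 * t * L ^ 2 := by rw [hl]; ring

theorem cbd_card_nat (m : ℕ) :
    (hittingSet m).card ≤ 2 ^ (100000 * (tt m ^ 13 * LL m ^ 5)) := by
  have hL1 : 1 ≤ LL m := by unfold LL; omega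
  have ht2 := cbd_two_le_tt m
  have hJ := cbd_J_le m
  have hm := cbd_lt_two_pow m
  have hpp : pp m ≤ 2 ^ JJ m := by
    unfold JJ
    exact (Nat.lt_pow_succ_log_self (by norm_num) (pp m)).le
  have hm2 : m ^ 2 + 1 ≤ 2 ^ (2 * LL m) := by
    calc m ^ 2 + 1 ≤ (m + 1) ^ 2 := by nlinarith
      _ ≤ (2 ^ LL m) ^ 2 := Nat.pow_le_pow_left hm 2
      _ = 2 ^ (2 * LL m) := by rw [← pow_mul, mul_comm]
  have h1 : (hittingSet m).card ≤ pp m * (m ^ 2 + 1) ^ qq m := by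
    unfold hittingSet
    refine le_trans card_image_le ?_
    rw [card_product, card_range]
    exact Nat.mul_le_mul_left _ (cbd_card_le m (qq m))
  have h2 : pp m * (m ^ 2 + 1) ^ qq m ≤ 2 ^ (JJ m + 2 * LL m * qq m) := by
    rw [pow_add, pow_mul]
    exact Nat.mul_le_mul hpp (Nat.pow_le_pow_left hm2 _)
  refine le_trans h1 (le_trans h2 (Nat.pow_le_pow_right (by norm_num) ?_))
  unfold qq
  set L := LL m
  set t := tt m
  have e1 : 1 ≤ t ^ 12 := Nat.one_le_pow _ _ (by omega)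
  have e2 : 1 ≤ L ^ 2 := Nat.one_le_pow _ _ (by omega)
  have e3 : 1 ≤ L ^ 3 := Nat.one_le_pow _ _ (by omega)
  have e4 : 1 ≤ L ^ 4 := Nat.one_le_pow _ _ (by omega)
  have e13 : 1 ≤ t ^ 13 := Nat.one_le_pow _ _ (by omega)
  have a1 : JJ m ≤ 172 * (t ^ 13 * L ^ 5) := by
    calc JJ m ≤ 172 * t * L ^ 2 := hJ
      _ = 172 * (t * L ^ 2) * (1 * 1) := by ring
      _ ≤ 172 * (t * L ^ 2) * (t ^ 12 * L ^ 3) := by gcongr
      _ = 172 * (t ^ 13 * L ^ 5) := by ring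
  have a2 : JJ m * (2 * (111 * t ^ 12 * L ^ 2)) ≤ 38184 * (t ^ 13 * L ^ 4) := by
    calc JJ m * (2 * (111 * t ^ 12 * L ^ 2)) ≤ (172 * t * L ^ 2) * (2 * (111 * t ^ 12 * L ^ 2)) := by
          gcongr
      _ = 38184 * (t ^ 13 * L ^ 4) := by ring
  have a3 : 1 ≤ t ^ 13 * L ^ 4 := Nat.mul_pos e13 e4
  have a4 : t ^ 13 * L ≤ t ^ 13 * L ^ 4 := by
    apply Nat.mul_le_mul_left
    exact Nat.le_self_pow (by norm_num) L
  calc JJ m + 2 * L * (JJ m * (2 * (111 * t ^ 12 * L ^ 2)) + 1 + t ^ 13 * L)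
      ≤ 172 * (t ^ 13 * L ^ 5) + 2 * L * (38184 * (t ^ 13 * L ^ 4) + t ^ 13 * L ^ 4 + t ^ 13 * L ^ 4) := by
        gcongr
    _ = 76544 * (t ^ 13 * L ^ 5) := by ring
    _ ≤ 100000 * (t ^ 13 * L ^ 5) := by gcongr; norm_num

theorem cbd_wt_nat (m : ℕ) (hm0 : 0 < m) (w : Fin m → Fin m → ℕ) (hw : w ∈ hittingSet m)
    (i j : Fin m) : w i j ≤ 2 ^ (100000 * (tt m ^ 13 * LL m ^ 5)) := by
  have hL1 : 1 ≤ LL m := by unfold LL; omega
  have ht2 := cbd_two_le_tt m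
  have hJ := cbd_J_le m
  have hm := cbd_lt_two_pow m
  unfold hittingSet at hw
  rw [mem_image] at hw
  obtain ⟨u, -, rfl⟩ := hw
  refine le_trans (cbd_wt_le m u.1 u.2 hm0 i j) ?_
  have h1 : 2 * (m + 1) ^ JJ m ≤ 2 ^ (LL m * JJ m + 1) := by
    rw [pow_succ, pow_mul, mul_comm]
    exact Nat.mul_le_mul_right 2 (Nat.pow_le_pow_left hm _)
  refine le_trans h1 (Nat.pow_le_pow_right (by norm_num) ?_)
  set L := LL m
  set t := tt m
  have e1 : 1 ≤ t ^ 12 := Nat.one_le_pow _ _ (by omega)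
  have e2 : 1 ≤ L ^ 2 := Nat.one_le_pow _ _ (by omega)
  have e13 : 1 ≤ t ^ 13 := Nat.one_le_pow _ _ (by omega)
  have e5 : 1 ≤ L ^ 5 := Nat.one_le_pow _ _ (by omega)
  have a1 : L * JJ m ≤ 172 * (t ^ 13 * L ^ 5) := by
    calc L * JJ m ≤ L * (172 * t * L ^ 2) := by gcongr
      _ = 172 * (t * L ^ 3) * (1 * 1) := by ring
      _ ≤ 172 * (t * L ^ 3) * (t ^ 12 * L ^ 2) := by gcongr
      _ = 172 * (t ^ 13 * L ^ 5) := by ring
  have a3 : 1 ≤ t ^ 13 * L ^ 5 := Nat.mul_pos e13 e5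
  omega

theorem cbd_tt_real (m : ℕ) (hm : 0 < m) : (tt m : ℝ) ≤ 4 * (m : ℝ) ^ ((1 : ℝ) / 14) := by
  have hm1 : (1 : ℝ) ≤ m := by exact_mod_cast hm
  have h1 : (1 : ℝ) ≤ (m : ℝ) ^ ((1 : ℝ) / 14) := Real.one_le_rpow hm1 (by norm_num)
  have hex : ∃ t, m ≤ t ^ 14 := ⟨m, Nat.le_self_pow (by norm_num) m⟩
  have htt : tt m = Nat.find hex + 2 := rfl
  rcases Nat.eq_zero_or_pos (Nat.find hex) with h0 | h0
  · rw [htt, h0]
    push_cast
    linarith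
  · have h2 : ¬ m ≤ (Nat.find hex - 1) ^ 14 := Nat.find_min hex (by omega)
    have h3 : (Nat.find hex - 1) ^ 14 < m := not_le.mp h2
    have h4 : (((Nat.find hex - 1 : ℕ) : ℝ)) ^ 14 < (m : ℝ) := by exact_mod_cast h3
    have h5 : ((Nat.find hex - 1 : ℕ) : ℝ) ≤ (m : ℝ) ^ ((1 : ℝ) / 14) := by
      have h6 : ((Nat.find hex - 1 : ℕ) : ℝ) = ((((Nat.find hex - 1 : ℕ) : ℝ)) ^ 14) ^ ((1 : ℝ) / 14) := by
        rw [← Real.rpow_natCast, ← Real.rpow_mul (by positivity)]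
        norm_num
      rw [h6]
      exact Real.rpow_le_rpow (by positivity) h4.le (by norm_num)
    have h7 : (tt m : ℝ) = ((Nat.find hex - 1 : ℕ) : ℝ) + 3 := by
      rw [htt]
      have : Nat.find hex + 2 = (Nat.find hex - 1) + 3 := by omega
      rw [this]
      push_cast
      ring
    rw [h7]
    linarith

theorem cbd_LL_real (m : ℕ) (hm : 0 < m) : (LL m : ℝ) ≤ 2101 * (m : ℝ) ^ ((1 : ℝ) / 1050) := by
  have hm1 : (1 : ℝ) ≤ m := by exact_mod_cast hm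
  have h1 : (1 : ℝ) ≤ (m : ℝ) ^ ((1 : ℝ) / 1050) := Real.one_le_rpow hm1 (by norm_num)
  have h2 : 2 ^ Nat.log 2 m ≤ m := Nat.pow_log_le_self 2 (by omega)
  have h3 : ((2 : ℝ)) ^ Nat.log 2 m ≤ (m : ℝ) := by exact_mod_cast h2
  have h4 : (Nat.log 2 m : ℝ) * Real.log 2 ≤ Real.log m := by
    rw [← Real.log_pow]
    exact Real.log_le_log (by positivity) h3
  have h5 : Real.log m ≤ (m : ℝ) ^ ((1 : ℝ) / 1050) / ((1 : ℝ) / 1050) :=
    Real.log_le_rpow_div (by positivity) (by norm_num)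
  have h6 : (1 / 2 : ℝ) ≤ Real.log 2 := by
    have := Real.log_two_gt_d9
    linarith
  have h7 : (Nat.log 2 m : ℝ) * (1 / 2) ≤ (Nat.log 2 m : ℝ) * Real.log 2 := by
    apply mul_le_mul_of_nonneg_left h6
    positivity
  have h8 : (LL m : ℝ) = (Nat.log 2 m : ℝ) + 1 := by
    unfold LL
    push_cast
    ring
  rw [h8]
  have h9 : (m : ℝ) ^ ((1 : ℝ) / 1050) / ((1 : ℝ) / 1050) = 1050 * (m : ℝ) ^ ((1 : ℝ) / 1050) := by
    ring
  rw [h9] at h5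
  linarith

theorem cbd_real (m : ℕ) (hm : 0 < m) :
    ((100000 * (tt m ^ 13 * LL m ^ 5) : ℕ) : ℝ) ≤
      (100000 * (4 ^ 13 * 2101 ^ 5)) * (m : ℝ) ^ ((14 : ℝ) / 15) := by
  have h1 := cbd_tt_real m hm
  have h2 := cbd_LL_real m hm
  have hm0 : (0 : ℝ) < m := by exact_mod_cast hm
  have h3 : (tt m : ℝ) ^ 13 ≤ (4 * (m : ℝ) ^ ((1 : ℝ) / 14)) ^ 13 :=
    pow_le_pow_left₀ (by positivity) h1 13
  have h4 : (LL m : ℝ) ^ 5 ≤ (2101 * (m : ℝ) ^ ((1 : ℝ) / 1050)) ^ 5 :=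
    pow_le_pow_left₀ (by positivity) h2 5
  have h5 : ((m : ℝ) ^ ((1 : ℝ) / 14)) ^ 13 * ((m : ℝ) ^ ((1 : ℝ) / 1050)) ^ 5 =
      (m : ℝ) ^ ((14 : ℝ) / 15) := by
    rw [← Real.rpow_natCast, ← Real.rpow_natCast, ← Real.rpow_mul hm0.le, ← Real.rpow_mul hm0.le,
      ← Real.rpow_add hm0]
    norm_num
  push_cast
  calc (100000 : ℝ) * ((tt m : ℝ) ^ 13 * (LL m : ℝ) ^ 5)
      ≤ 100000 * ((4 * (m : ℝ) ^ ((1 : ℝ) / 14)) ^ 13 *
          (2101 * (m : ℝ) ^ ((1 : ℝ) / 1050)) ^ 5) := by gcongr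
    _ = (100000 * (4 ^ 13 * 2101 ^ 5)) *
          (((m : ℝ) ^ ((1 : ℝ) / 14)) ^ 13 * ((m : ℝ) ^ ((1 : ℝ) / 1050)) ^ 5) := by
        rw [mul_pow, mul_pow]
        ring
    _ = (100000 * (4 ^ 13 * 2101 ^ 5)) * (m : ℝ) ^ ((14 : ℝ) / 15) := by rw [h5]

theorem cbd_lift (m : ℕ) (hm : 0 < m) (N : ℕ) (hN : N ≤ 2 ^ (100000 * (tt m ^ 13 * LL m ^ 5))) :
    (N : ℝ) ≤ 2 ^ ((100000 * (4 ^ 13 * 2101 ^ 5) : ℝ) * (m : ℝ) ^ ((14 : ℝ) / 15)) := by
  have h1 : (N : ℝ) ≤ (2 : ℝ) ^ (100000 * (tt m ^ 13 * LL m ^ 5)) := by exact_mod_cast hN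
  refine le_trans h1 ?_
  rw [← Real.rpow_natCast]
  exact Real.rpow_le_rpow_of_exponent_le (by norm_num) (cbd_real m hm)

/-- Sizes of the parameters. -/
theorem card_bound : ∃ C : ℝ, ∀ m : ℕ,
    ((hittingSet m).card : ℝ) ≤ 2 ^ (C * (m : ℝ) ^ ((14 : ℝ) / 15)) ∧
      ∀ w ∈ hittingSet m, ∀ i j, (w i j : ℝ) ≤ 2 ^ (C * (m : ℝ) ^ ((14 : ℝ) / 15)) := by
  refine ⟨(100000 * (4 ^ 13 * 2101 ^ 5) : ℝ), fun m => ?_⟩
  rcases Nat.eq_zero_or_pos m with h0 | h0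
  · subst h0
    refine ⟨?_, fun w _ i => i.elim0⟩
    have h1 : (hittingSet 0).card ≤ 1 := by
      rw [Finset.card_le_one]
      intro a _ b _
      exact Subsingleton.elim a b
    have h2 : ((hittingSet 0).card : ℝ) ≤ 1 := by exact_mod_cast h1
    rw [Nat.cast_zero, Real.zero_rpow (by norm_num), mul_zero, Real.rpow_zero]
    exact h2
  · exact ⟨cbd_lift m h0 _ (cbd_card_nat m),
      fun w hw i j => cbd_lift m h0 _ (cbd_wt_nat m h0 w hw i j)⟩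

end EMx
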