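import Pool.Agent.H.MP_36be4a.Isx

/-! The matrix of a coloured bipartite graph and its determinant. -/

namespace EMx

open Finset Polynomial

/-- The matrix of a coloured bipartite graph under the weight function `w`: the entry of an edge is
`2 ^ w`, times the variable `X` if the edge is red. -/
noncomputable def mtx {m : ℕ} (E R : Fin m → Fin m → Bool) (w : Fin m → Fin m → ℕ) :
    Matrix (Fin m) (Fin m) (Polynomial ℤ) :=
  fun i j => if E i j = true then C ((2 : ℤ) ^ w i j) * (if R i j = true then X else 1) else 0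

theorem Cfd_prod {m : ℕ} (E R : Fin m → Fin m → Bool) (w : Fin m → Fin m → ℕ) (k : ℕ)
    (σ : Equiv.Perm (Fin m)) :
    (∏ i, mtx E R w i (σ i)).coeff k =
      open Classical in if IsEx E R k σ then (2 : ℤ) ^ (∑ i, w i (σ i)) else 0 := by
  classical
  by_cases hE : ∀ i, E i (σ i) = true
  · have h1 : (∏ i, mtx E R w i (σ i)) =
        C ((2 : ℤ) ^ (∑ i, w i (σ i))) *
          X ^ (Finset.univ.filter fun i => R i (σ i) = true).card := by
      have h2 : ∀ i, mtx E R w i (σ i) =
          C ((2 : ℤ) ^ w i (σ i)) * (if R i (σ i) = true then X else 1) := by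
        intro i
        simp [mtx, hE i]
      rw [Finset.prod_congr rfl fun i _ => h2 i, Finset.prod_mul_distrib, ← map_prod,
        Finset.prod_pow_eq_pow_sum, Finset.prod_ite, Finset.prod_const, Finset.prod_const_one,
        mul_one]
    rw [h1, Polynomial.coeff_C_mul, Polynomial.coeff_X_pow]
    by_cases hk : (Finset.univ.filter fun i => R i (σ i) = true).card = k
    · rw [if_pos hk.symm, if_pos ⟨hE, hk⟩, mul_one]
    · rw [if_neg (fun h => hk h.symm), if_neg (fun h => hk h.2), mul_zero]
  · obtain ⟨i, hi⟩ := not_forall.1 hE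
    rw [if_neg (fun h => hE h.1), Finset.prod_eq_zero (Finset.mem_univ i), Polynomial.coeff_zero]
    simp [mtx, hi]

/-- Expansion of the coefficient. -/
theorem coeff_det {m : ℕ} (E R : Fin m → Fin m → Bool) (w : Fin m → Fin m → ℕ) (k : ℕ) :
    (mtx E R w).det.coeff k =
      ∑ σ : Equiv.Perm (Fin m), open Classical in
        if IsEx E R k σ then ((Equiv.Perm.sign σ : ℤˣ) : ℤ) * 2 ^ (∑ i, w i (σ i)) else 0 := by
  classical
  rw [← Matrix.det_transpose, Matrix.det_apply', Polynomial.finsetSum_coeff]
  refine Finset.sum_congr rfl fun σ _ => ?_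
  have h := Cfd_prod E R w k σ
  simp only [Matrix.transpose_apply]
  have h3 : ((((Equiv.Perm.sign σ : ℤˣ) : ℤ) : Polynomial ℤ)) =
      C (((Equiv.Perm.sign σ : ℤˣ) : ℤ)) := by simp
  rw [h3, Polynomial.coeff_C_mul, h]
  split_ifs <;> simp

end EMx
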