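import Pool.Agent.H.MP_36be4a.Cfd

/-! Non-vanishing of the coefficient. -/

namespace EMx

open Finset Polynomial

/-- A unique minimal exact matching makes the coefficient nonzero. -/
theorem coeff_ne_zero {m : ℕ} (E R : Fin m → Fin m → Bool) (w : Fin m → Fin m → ℕ) (k : ℕ)
    (σ₀ : Equiv.Perm (Fin m)) (h₀ : IsEx E R k σ₀)
    (h : ∀ σ, IsEx E R k σ → σ ≠ σ₀ → ∑ i, w i (σ₀ i) < ∑ i, w i (σ i)) :
    (mtx E R w).det.coeff k ≠ 0 := by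
  classical
  rw [coeff_det]
  intro hzero
  rw [← Finset.add_sum_erase _ _ (Finset.mem_univ σ₀), if_pos h₀] at hzero
  have hdvd : (2 : ℤ) ^ (∑ i, w i (σ₀ i) + 1) ∣ ∑ σ ∈ Finset.univ.erase σ₀,
      (if IsEx E R k σ then ((Equiv.Perm.sign σ : ℤˣ) : ℤ) * 2 ^ (∑ i, w i (σ i)) else 0) := by
    refine Finset.dvd_sum fun σ hσ => ?_
    split_ifs with hex
    · exact Dvd.dvd.mul_left (pow_dvd_pow 2 (h σ hex (Finset.ne_of_mem_erase hσ))) _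
    · exact dvd_zero _
  have h1 : (2 : ℤ) ^ (∑ i, w i (σ₀ i) + 1) ∣
      ((Equiv.Perm.sign σ₀ : ℤˣ) : ℤ) * 2 ^ (∑ i, w i (σ₀ i)) := by
    rw [eq_neg_of_add_eq_zero_left hzero]
    exact (dvd_neg).2 hdvd
  have h2 : (2 : ℤ) ^ (∑ i, w i (σ₀ i) + 1) ∣ 2 ^ (∑ i, w i (σ₀ i)) := by
    rcases Int.units_eq_one_or (Equiv.Perm.sign σ₀) with hs | hs
    · rw [hs] at h1
      simpa using h1
    · rw [hs] at h1
      simpa using h1
  have h3 := Int.le_of_dvd (by positivity) h2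
  have h4 : (2 : ℤ) ^ (∑ i, w i (σ₀ i)) < 2 ^ (∑ i, w i (σ₀ i) + 1) :=
    pow_lt_pow_right₀ (by norm_num) (Nat.lt_succ_self _)
  omega

end EMx
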