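import Pool.Agent.H.MP_36be4a.Walks

/-! Closed walks split into admissible permutations (directed cycles). -/

namespace EMx

open Finset

variable {V : Type*} [Fintype V] [DecidableEq V]

/-- The sequence of vertices of a walk. -/
theorem close_fun {A : V → V → Prop} {S : Finset V} {w : V → V → ℤ} {i : ℕ} {x y : V} {z : ℤ}
    (h : Wk A S w i x y z) :
    ∃ f : ℕ → V, f 0 = x ∧ f i = y ∧ (∀ j ≤ i, f j ∉ S) ∧
      (∀ j < i, A (f j) (f (j + 1)) ∧ f j ≠ f (j + 1)) ∧
      z = ∑ j ∈ range i, w (f j) (f (j + 1)) := by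
  induction h with
  | nil x hx => exact ⟨fun _ => x, rfl, rfl, fun _ _ => hx, fun j hj => absurd hj (by omega),
      by simp⟩
  | @cons i x y y' z hw ha hne hy ih =>
      obtain ⟨f, h0, hi, hS, hA, hz⟩ := ih
      refine ⟨fun j => if j ≤ i then f j else y', by simpa using h0, by simp, ?_, ?_, ?_⟩
      · intro j hj
        by_cases hji : j ≤ i
        · simpa [hji] using hS j hji
        · simpa [hji] using hy
      · intro j hj
        rcases Nat.lt_or_ge j i with hji | hji
        · have h1 : j ≤ i := hji.le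
          have h2 : j + 1 ≤ i := hji
          simpa [h1, h2] using hA j hji
        · have h1 : j = i := by omega
          subst h1
          simp [hi, ha, hne]
      · rw [Finset.sum_range_succ, hz]
        congr 1
        · refine Finset.sum_congr rfl fun j hj => ?_
          have hji := Finset.mem_range.1 hj
          have h1 : j ≤ i := hji.le
          have h2 : j + 1 ≤ i := hji
          simp [h1, h2]
        · simp [hi]

/-- A segment of a sequence of arcs is a walk. -/
theorem close_walk {A : V → V → Prop} {S : Finset V} {w : V → V → ℤ} {i : ℕ} {f : ℕ → V}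
    (hS : ∀ j ≤ i, f j ∉ S) (hA : ∀ j < i, A (f j) (f (j + 1)) ∧ f j ≠ f (j + 1))
    (a b : ℕ) (hab : a ≤ b) (hb : b ≤ i) :
    Wk A S w (b - a) (f a) (f b) (∑ j ∈ Ico a b, w (f j) (f (j + 1))) := by
  induction b, hab using Nat.le_induction with
  | base => simpa using Wk.nil (A := A) (w := w) (f a) (hS a hb)
  | succ b hab ih =>
      have h1 := ih (by omega)
      have h2 := hA b (by omega)
      have h3 := Wk.cons h1 h2.1 h2.2 (hS (b + 1) hb)
      rw [Finset.sum_Ico_succ_top hab]
      have h4 : b + 1 - a = b - a + 1 := by omega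
      rw [h4]
      exact h3

/-- A simple closed walk gives an admissible permutation. -/
theorem close_perm (A : V → V → Prop) (S : Finset V) (w : V → V → ℤ) (i : ℕ) (x : V) (z : ℤ)
    (f : ℕ → V) (hf0 : f 0 = x) (hfi : f i = x) (hS : ∀ j ≤ i, f j ∉ S)
    (hA : ∀ j < i, A (f j) (f (j + 1)) ∧ f j ≠ f (j + 1))
    (hz : z = ∑ j ∈ range i, w (f j) (f (j + 1))) (hi : 0 < i)
    (hinj : ∀ a b, a < b → b < i → f a ≠ f b) :
    ∃ π : Equiv.Perm V, Adm A S π ∧ π ≠ 1 ∧ π.support.card ≤ i ∧
      z = ∑ x ∈ π.support, w x (π x) := by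
  obtain ⟨n, rfl⟩ : ∃ n, i = n + 1 := ⟨i - 1, by omega⟩
  have hinj' : Function.Injective (fun j : Fin (n + 1) => f j) := by
    intro a b hab
    simp only at hab
    rcases lt_trichotomy (a : ℕ) (b : ℕ) with h | h | h
    · exact absurd hab (hinj a b h b.isLt)
    · exact Fin.ext h
    · exact absurd hab.symm (hinj b a h a.isLt)
  let g : Fin (n + 1) ↪ V := ⟨fun j => f j, hinj'⟩
  let π : Equiv.Perm V := (finRotate (n + 1)).viaFintypeEmbedding g
  have hπ : ∀ j : Fin (n + 1), π (f j) = f ((j : ℕ) + 1) := by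
    intro j
    have h1 : π (g j) = g (finRotate (n + 1) j) :=
      Equiv.Perm.viaFintypeEmbedding_apply_image _ _ _
    change π (g j) = _
    rw [h1]
    rcases Nat.lt_or_ge (j : ℕ) n with hj | hj
    · change f ((finRotate (n + 1) j : Fin (n + 1)) : ℕ) = _
      rw [coe_finRotate_of_ne_last]
      intro h
      rw [h] at hj
      simp at hj
    · have hj' : j = Fin.last n := by
        apply Fin.ext
        have := j.isLt
        simp only [Fin.val_last]
        omega
      subst hj'
      change f ((finRotate (n + 1) (Fin.last n) : Fin (n + 1)) : ℕ) = _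
      rw [finRotate_last]
      simp only [Fin.val_zero, Fin.val_last]
      rw [hf0, hfi]
  have hπ' : ∀ v, (∀ j : Fin (n + 1), f j ≠ v) → π v = v := by
    intro v hv
    apply Equiv.Perm.viaFintypeEmbedding_apply_notMem_range
    rintro ⟨j, hj⟩
    exact hv j hj
  have hsup : π.support = Finset.univ.map g := by
    ext v
    rw [Equiv.Perm.mem_support, Finset.mem_map]
    constructor
    · intro hv
      by_contra hcon
      apply hv
      apply hπ'
      intro j hj
      exact hcon ⟨j, Finset.mem_univ _, hj⟩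
    · rintro ⟨j, -, rfl⟩
      change π (f j) ≠ f j
      rw [hπ j]
      exact (hA j j.isLt).2.symm
  refine ⟨π, ⟨?_, ?_⟩, ?_, ?_, ?_⟩
  · intro v hv
    rw [← Equiv.Perm.mem_support, hsup, Finset.mem_map] at hv
    obtain ⟨j, -, rfl⟩ := hv
    change A (f j) (π (f j))
    rw [hπ j]
    exact (hA j j.isLt).1
  · intro v hv
    by_contra hcon
    rw [← Ne, ← Equiv.Perm.mem_support, hsup, Finset.mem_map] at hcon
    obtain ⟨j, -, rfl⟩ := hcon
    exact hS j j.isLt.le hv
  · intro h1
    have h2 := hπ 0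
    rw [h1] at h2
    exact (hA 0 hi).2 (by simpa using h2)
  · rw [hsup, Finset.card_map]
    simp
  · rw [hsup, Finset.sum_map, hz, Finset.sum_range]
    refine Finset.sum_congr rfl fun j _ => ?_
    change _ = w (f j) (π (f j))
    rw [hπ j]

/-- A closed walk of positive length is either (the weight of) a simple directed cycle, seen as an
admissible permutation, or it splits into two shorter closed walks. -/
theorem closed_split (A : V → V → Prop) (S : Finset V) (w : V → V → ℤ) (i : ℕ) (x : V) (z : ℤ)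
    (h : Wk A S w i x x z) (hi : 0 < i) :
    (∃ π : Equiv.Perm V, Adm A S π ∧ π ≠ 1 ∧ π.support.card ≤ i ∧
      z = ∑ x ∈ π.support, w x (π x)) ∨
    (∃ (y : V) (i₁ i₂ : ℕ) (z₁ z₂ : ℤ), Wk A S w i₁ y y z₁ ∧ Wk A S w i₂ x x z₂ ∧
      i₁ + i₂ = i ∧ z₁ + z₂ = z ∧ 0 < i₁ ∧ 0 < i₂) := by
  obtain ⟨f, hf0, hfi, hfS, hfA, hfz⟩ := close_fun h
  by_cases hinj : ∀ a b, a < b → b < i → f a ≠ f b
  · left
    exact close_perm A S w i x z f hf0 hfi hfS hfA hfz hi hinj
  · right
    push Not at hinj
    obtain ⟨a, b, hab, hbi, hfab⟩ := hinj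
    have w1 := close_walk (w := w) hfS hfA a b hab.le hbi.le
    have w2 := close_walk (w := w) hfS hfA 0 a (Nat.zero_le a) (hab.le.trans hbi.le)
    have w3 := close_walk (w := w) hfS hfA b i hbi.le le_rfl
    rw [hf0] at w2
    rw [← hfab, hfi] at w3
    rw [← hfab] at w1
    refine ⟨f a, b - a, (a - 0) + (i - b), _, _, w1, w2.append w3, ?_, ?_, ?_, ?_⟩
    · omega
    · have e1 : ∑ j ∈ Ico 0 a, w (f j) (f (j + 1)) + ∑ j ∈ Ico a b, w (f j) (f (j + 1))
          = ∑ j ∈ Ico 0 b, w (f j) (f (j + 1)) :=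
        Finset.sum_Ico_consecutive _ (Nat.zero_le a) hab.le
      have e2 : ∑ j ∈ Ico 0 b, w (f j) (f (j + 1)) + ∑ j ∈ Ico b i, w (f j) (f (j + 1))
          = ∑ j ∈ Ico 0 i, w (f j) (f (j + 1)) :=
        Finset.sum_Ico_consecutive _ (Nat.zero_le b) hbi.le
      rw [hfz, Finset.range_eq_Ico]
      linarith
    · omega
    · omega

/-- If all short admissible permutations have nonnegative weight, so have all short closed walks. -/
theorem closed_nonneg (A : V → V → Prop) (S : Finset V) (w : V → V → ℤ) (l : ℕ)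
    (hw : ∀ π : Equiv.Perm V, Adm A S π → π.support.card ≤ l → 0 ≤ ∑ x ∈ π.support, w x (π x))
    (i : ℕ) (x : V) (z : ℤ) (h : Wk A S w i x x z) (hi : i ≤ l) : 0 ≤ z := by
  induction i using Nat.strong_induction_on generalizing x z with
  | _ i ih =>
    rcases Nat.eq_zero_or_pos i with rfl | hpos
    · cases h
      exact le_rfl
    · rcases closed_split A S w i x z h hpos with ⟨π, h1, h2, h3, h4⟩ | ⟨y, i₁, i₂, z₁, z₂, h1, h2, h3, h4, h5, h6⟩
      · rw [h4]
        exact hw π h1 (h3.trans hi)
      · have a1 := ih i₁ (by omega) y z₁ h1 (by omega)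
        have a2 := ih i₂ (by omega) x z₂ h2 (by omega)
        omega

/-- A closed walk of positive length yields a short non-trivial admissible permutation. -/
theorem closed_exists (A : V → V → Prop) (S : Finset V) (i : ℕ) (x : V)
    (h : Wl A S i x x) (hi : 0 < i) :
    ∃ π : Equiv.Perm V, Adm A S π ∧ π ≠ 1 ∧ π.support.card ≤ i := by
  obtain ⟨z, hz⟩ := h.toWk (fun _ _ => 0)
  clear h
  induction i using Nat.strong_induction_on generalizing x z with
  | _ i ih =>
    rcases closed_split A S _ i x z hz hi with ⟨π, h1, h2, h3, h4⟩ | ⟨y, i₁, i₂, z₁, z₂, h1, h2, h3, h4, h5, h6⟩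
    · exact ⟨π, h1, h2, h3⟩
    · obtain ⟨π, a1, a2, a3⟩ := ih i₁ (by omega) y h5 z₁ h1
      exact ⟨π, a1, a2, by omega⟩

end EMx
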