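import Pool.Agent.H.MP_36be4a.Defs

/-! Counting integer matrices with few nonzero entries. -/

namespace EMx

open Finset

/-- There are few integer matrices with few, small nonzero entries. -/
theorem cnt (m K E : ℕ) (hm : 0 < m) :
    ∃ X : Finset (Fin m → Fin m → ℤ), X.card ≤ (m ^ 2 * (2 * E + 1)) ^ K ∧
      ∀ x : Fin m → Fin m → ℤ,
        (univ.filter (fun e : Fin m × Fin m => x e.1 e.2 ≠ 0)).card ≤ K →
        (∀ i j, |x i j| ≤ E) → x ∈ X := by
  classical
  let P : Finset (Fin K → (Fin m × Fin m) × ℤ) :=
    Fintype.piFinset (fun _ : Fin K => (univ : Finset (Fin m × Fin m)) ×ˢ Finset.Icc (-(E : ℤ)) E)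
  let Ψ : (Fin K → (Fin m × Fin m) × ℤ) → (Fin m → Fin m → ℤ) :=
    fun g i j => ∑ t, if (g t).1 = (i, j) then (g t).2 else 0
  refine ⟨P.image Ψ, ?_, ?_⟩
  · refine card_image_le.trans ?_
    have h1 : P.card = (m * m * (2 * E + 1)) ^ K := by
      have h2 : ((E : ℤ) + 1 - -(E : ℤ)).toNat = 2 * E + 1 := by omega
      simp only [P, Fintype.card_piFinset, card_product, card_univ, Fintype.card_prod,
        Fintype.card_fin, Int.card_Icc, prod_const, h2]
    rw [h1, sq]
  · intro x hF hE
    set F : Finset (Fin m × Fin m) := univ.filter (fun e : Fin m × Fin m => x e.1 e.2 ≠ 0) with hFdef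
    have hcard : Fintype.card F ≤ Fintype.card (Fin K) := by simpa using hF
    obtain ⟨φ⟩ := Function.Embedding.nonempty_of_card_le hcard
    let g : Fin K → (Fin m × Fin m) × ℤ := fun t =>
      if h : ∃ e : F, φ e = t then (h.choose.1, x h.choose.1.1 h.choose.1.2)
      else ((⟨0, hm⟩, ⟨0, hm⟩), 0)
    have hg1 : ∀ e : F, g (φ e) = (e.1, x e.1.1 e.1.2) := by
      intro e
      have h : ∃ e' : F, φ e' = φ e := ⟨e, rfl⟩
      have h2 : h.choose = e := φ.injective h.choose_spec
      simp only [g, dif_pos h, h2]
    have hg2 : ∀ t, (¬ ∃ e : F, φ e = t) → g t = ((⟨0, hm⟩, ⟨0, hm⟩), 0) := by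
      intro t ht
      simp only [g, dif_neg ht]
    have hFmem : ∀ e : F, x e.1.1 e.1.2 ≠ 0 := by
      intro e
      have h4 : ∀ e' ∈ F, x e'.1 e'.2 ≠ 0 := by
        intro e' he'
        exact (mem_filter.mp he').2
      exact h4 e.1 e.2
    rw [mem_image]
    refine ⟨g, ?_, ?_⟩
    · rw [Fintype.mem_piFinset]
      intro t
      rw [mem_product]
      refine ⟨mem_univ _, ?_⟩
      rw [mem_Icc]
      by_cases ht : ∃ e : F, φ e = t
      · obtain ⟨e, rfl⟩ := ht
        rw [hg1 e]
        exact abs_le.mp (hE _ _)
      · rw [hg2 t ht]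
        simp
    · funext i j
      show (∑ t, if (g t).1 = (i, j) then (g t).2 else 0) = x i j
      by_cases hx : x i j = 0
      · rw [hx]
        refine sum_eq_zero fun t _ => ?_
        by_cases ht : ∃ e : F, φ e = t
        · obtain ⟨e, rfl⟩ := ht
          rw [hg1 e]
          split_ifs with he
          · exfalso
            have h3 := hFmem e
            simp only at he
            rw [he] at h3
            exact h3 hx
          · rfl
        · rw [hg2 t ht]
          simp
      · have hij : (i, j) ∈ F := by
          rw [hFdef, mem_filter]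
          exact ⟨mem_univ _, hx⟩
        rw [sum_eq_single (φ ⟨(i, j), hij⟩)]
        · rw [hg1]
          simp
        · intro t _ hne
          by_cases ht : ∃ e : F, φ e = t
          · obtain ⟨e, rfl⟩ := ht
            rw [hg1 e]
            split_ifs with he
            · exfalso
              apply hne
              congr 1
              exact Subtype.ext he
            · rfl
          · rw [hg2 t ht]
            simp
        · intro h
          exact absurd (mem_univ _) h

end EMx
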