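import Pool.Agent.H.MP_36be4a.Close
import Pool.Agent.H.MP_36be4a.Ldd

/-! If there is at most one short admissible permutation, then after deleting few more vertices only
the identity is admissible. -/

namespace EMx

open Finset

variable {V : Type*} [Fintype V] [DecidableEq V]

theorem Fnl_aux (A : V → V → Prop) (S : Finset V) (l k : ℕ) (hk : 0 < k)
    (hl : 4 * k * (Nat.log 2 (Fintype.card V) + 1) ≤ l)
    (h : ∀ π : Equiv.Perm V, Adm A S π → π.support.card ≤ l → π = 1) :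
    ∃ (S' : Finset V) (d : ℕ), S ⊆ S' ∧ S'.card ≤ S.card + d ∧
      k * d ≤ Fintype.card V * Nat.log 2 (Fintype.card V) ∧ ∀ π, Adm A S' π → π = 1 := by
  obtain ⟨S', hSS', hcard, hdiam⟩ := ldd A S k hk
  refine ⟨S', (S' \ S).card, hSS', ?_, hcard, ?_⟩
  · have := Finset.card_sdiff_add_card_eq_card hSS'
    omega
  · intro π hπ
    by_contra hne
    obtain ⟨x, hx⟩ : ∃ x, π x ≠ x := by
      by_contra hall
      push Not at hall
      exact hne (Equiv.ext hall)
    obtain ⟨h1, h2⟩ := hπ.rch hx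
    obtain ⟨i1, hi1, hw1⟩ := hdiam _ _ h1 h2
    obtain ⟨i2, hi2, hw2⟩ := hdiam _ _ h2 h1
    have hpos : 0 < i1 := by
      rcases Nat.eq_zero_or_pos i1 with h0 | h0
      · subst h0
        exfalso
        generalize hy : π x = y at hw1 hx
        cases hw1
        exact hx rfl
      · exact h0
    obtain ⟨σ, hσ, hσ1, hσc⟩ := closed_exists A S' (i1 + i2) x (hw1.append hw2) (by omega)
    apply hσ1
    apply h σ (hσ.mono (fun _ _ h => h) hSS')
    have : 4 * k * (Nat.log 2 (Fintype.card V) + 1)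
      = 2 * k * (Nat.log 2 (Fintype.card V) + 1) + 2 * k * (Nat.log 2 (Fintype.card V) + 1) := by
      ring
    omega

theorem fnl (A : V → V → Prop) (S : Finset V) (l k : ℕ) (hk : 0 < k)
    (hl : 4 * k * (Nat.log 2 (Fintype.card V) + 1) ≤ l)
    (h : ∀ π₁ π₂ : Equiv.Perm V, Adm A S π₁ → Adm A S π₂ → π₁ ≠ 1 → π₂ ≠ 1 →
      π₁.support.card ≤ l → π₂.support.card ≤ l → π₁ = π₂) :
    ∃ (S' : Finset V) (d : ℕ), S ⊆ S' ∧ S'.card ≤ S.card + 1 + d ∧
      k * d ≤ Fintype.card V * Nat.log 2 (Fintype.card V) ∧ ∀ π, Adm A S' π → π = 1 := by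
  by_cases hex : ∃ π0 : Equiv.Perm V, Adm A S π0 ∧ π0 ≠ 1 ∧ π0.support.card ≤ l
  · obtain ⟨π0, h0, h01, h0c⟩ := hex
    obtain ⟨v, hv⟩ : ∃ x, π0 x ≠ x := by
      by_contra hall
      push Not at hall
      exact h01 (Equiv.ext hall)
    obtain ⟨S', d, h1, h2, h3, h4⟩ := Fnl_aux A (insert v S) l k hk hl (by
      intro π hπ hc
      by_contra hne
      have heq : π = π0 :=
        h π π0 (hπ.mono (fun _ _ h => h) (Finset.subset_insert _ _)) h0 hne h01 hc h0c
      apply hv
      rw [← heq]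
      exact hπ.2 v (Finset.mem_insert_self _ _))
    refine ⟨S', d, (Finset.subset_insert _ _).trans h1, ?_, h3, h4⟩
    have := Finset.card_insert_le v S
    omega
  · obtain ⟨S', d, h1, h2, h3, h4⟩ := Fnl_aux A S l k hk hl (by
      intro π hπ hc
      by_contra hne
      exact hex ⟨π, hπ, hne, hc⟩)
    exact ⟨S', d, h1, by omega, h3, h4⟩

end EMx
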