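import Pool.Agent.H.MP_36be4a.Itr
import Pool.Agent.H.MP_36be4a.Fnl

/-! The core isolation theorem for digraphs. -/

namespace EMx

open Finset

variable {V : Type*} [Fintype V] [DecidableEq V]

omit [DecidableEq V] in
/-- Linearity of `pw` in the digit expansion. -/
theorem Core_pw (J : ℕ) (c : ℕ → V → V → ℤ) (w : V → V → ℤ)
    (hw : ∀ x y, w x y = ∑ j ∈ range J, 2 ^ j * c j x y) (π : Equiv.Perm V) :
    pw w π = ∑ j ∈ range J, 2 ^ j * pw (c j) π := by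
  unfold pw
  simp only [Finset.mul_sum]
  rw [Finset.sum_comm]
  refine Finset.sum_congr rfl (fun x _ => ?_)
  simp only [aw]
  rw [hw, hw, ← Finset.sum_sub_distrib]
  exact Finset.sum_congr rfl (fun j _ => by ring)

theorem core (A : V → V → Prop) (r : V → V → ℤ) (hr : ∀ x y, |aw r x y| ≤ 1)
    (k Q m : ℕ) (hk : 0 < k) (hQ : 2 ≤ Q) (hm : 0 < m) (b : ℕ)
    (hb : ∀ d, Cst (Fintype.card V) k Q m d → d ≤ b)
    (J : ℕ) (c : ℕ → V → V → ℤ) (hc : ∀ j x y, |aw (c j) x y| ≤ 1)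
    (hmin : ∀ π, Adm A ∅ π → pw r π = 0 → ∀ j < J, (∀ j' < j, pw (c j') π = 0) →
      0 ≤ pw (c j) π)
    (l k' : ℕ) (hk' : 0 < k') (hl : 4 * k' * (Nat.log 2 (Fintype.card V) + 1) ≤ l)
    (w : V → V → ℤ) (hw : ∀ x y, w x y = ∑ j ∈ range J, 2 ^ j * c j x y)
    (hash : ∀ (π₁ π₂ : Equiv.Perm V) (L : ℚ), π₁ ≠ 1 → π₂ ≠ 1 → π₁.support.card ≤ l →
      π₂.support.card ≤ l → (pw w π₁ : ℚ) = L * pw r π₁ → (pw w π₂ : ℚ) = L * pw r π₂ → π₁ = π₂) :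
    ∃ (T : Finset V) (d : ℕ), T.card ≤ J * (2 * b) + 1 + d ∧
      k' * d ≤ Fintype.card V * Nat.log 2 (Fintype.card V) ∧
      ∀ π, Adm A T π → pw r π = 0 → (∀ j < J, pw (c j) π = 0) → π = 1 := by
  obtain ⟨S', A', lam, Y, Z, -, hA', hcard, hid, hlast⟩ :=
    iter A ∅ r hr k Q m hk hQ hm b hb J c hc hmin
  have hpw : ∀ π, Adm A' S' π →
      (pw w π : ℚ) = (∑ j ∈ range J, 2 ^ j * lam j) * pw r π := by
    intro π hπ
    rw [Core_pw J c w hw π]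
    push_cast
    rw [Finset.sum_mul]
    refine Finset.sum_congr rfl (fun j hj => ?_)
    rw [pw_of_identity A' S' (c j) r (lam j) (Y j) (Z j) (hid j (Finset.mem_range.mp hj)) π hπ]
    ring
  obtain ⟨T, d, hT, hTcard, hd, hT1⟩ := fnl A' S' l k' hk' hl
    (fun π₁ π₂ h₁ h₂ hn₁ hn₂ hc₁ hc₂ =>
      hash π₁ π₂ _ hn₁ hn₂ hc₁ hc₂ (hpw π₁ h₁) (hpw π₂ h₂))
  refine ⟨T, d, ?_, hd, ?_⟩
  · have : (∅ : Finset V).card = 0 := rfl
    omega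
  · intro π hπ h0 hz
    have h3 : Adm A' S' π := hlast π (hπ.mono (fun _ _ h => h) hT) h0 hz
    exact hT1 π ⟨h3.1, hπ.2⟩

end EMx
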