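import Mathlib

/-!
Basic definitions for the deterministic subexponential isolation of exact perfect matchings
(problem MP_36be4a_lc).

`V` is the common index set of rows and columns; after relabelling the columns the reference
matching is the identity.  A directed graph on `V` is a relation `A`; another perfect matching is
a permutation `π` all of whose non-trivial arcs `x → π x` lie in `A`.
-/

namespace EMx

open Finset

variable {V : Type*} [Fintype V] [DecidableEq V]

/-- Weight of the arc `x → y` relative to the identity matching. -/
def aw (f : V → V → ℤ) (x y : V) : ℤ := f x y - f x x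

/-- Weight of a permutation relative to the identity matching. -/
def pw (f : V → V → ℤ) (π : Equiv.Perm V) : ℤ := ∑ x, aw f x (π x)

/-- `π` uses only arcs of `A` and fixes all vertices of `S`. -/
def Adm (A : V → V → Prop) (S : Finset V) (π : Equiv.Perm V) : Prop :=
  (∀ x, π x ≠ x → A x (π x)) ∧ ∀ x ∈ S, π x = x

/-- `Wk A S w i x y z`: there is a walk with exactly `i` arcs (no loops) from `x` to `y` in `A`
avoiding `S`, of total weight `z`. -/
inductive Wk (A : V → V → Prop) (S : Finset V) (w : V → V → ℤ) : ℕ → V → V → ℤ → Prop
  | nil (x : V) (hx : x ∉ S) : Wk A S w 0 x x 0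
  | cons {i : ℕ} {x y y' : V} {z : ℤ} (h : Wk A S w i x y z) (ha : A y y') (hne : y ≠ y')
      (hy : y' ∉ S) : Wk A S w (i + 1) x y' (z + w y y')

/-- The unweighted version of `Wk`. -/
inductive Wl (A : V → V → Prop) (S : Finset V) : ℕ → V → V → Prop
  | nil (x : V) (hx : x ∉ S) : Wl A S 0 x x
  | cons {i : ℕ} {x y y' : V} (h : Wl A S i x y) (ha : A y y') (hne : y ≠ y')
      (hy : y' ∉ S) : Wl A S (i + 1) x y'

/-- Reachability in `A` avoiding `S`. -/
def Rch (A : V → V → Prop) (S : Finset V) (x y : V) : Prop := ∃ i, Wl A S i x y

end EMx
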