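import Pool.Agent.H.MP_36be4a.Walks

/-! The hash functions `a ^ (i m + j) mod p` separate all short integer vectors. -/

namespace EMx

open Finset

/-- The hash value of the edge `(i,j)`. -/
def hv (m p a : ℕ) (i j : Fin m) : ℕ := a ^ (i.val * m + j.val) % p

open Polynomial in
/-- The polynomial attached to a vector. -/
noncomputable def hshP (m p : ℕ) (x : Fin m → Fin m → ℤ) : (ZMod p)[X] :=
  ∑ i : Fin m, ∑ j : Fin m, C ((x i j : ℤ) : ZMod p) * X ^ (i.val * m + j.val)

open Polynomial in
theorem hshP_coeff (m p : ℕ) (x : Fin m → Fin m → ℤ) (i j : Fin m) :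
    (hshP m p x).coeff (i.val * m + j.val) = ((x i j : ℤ) : ZMod p) := by
  unfold hshP
  simp only [finsetSum_coeff, coeff_C_mul_X_pow]
  rw [sum_eq_single i]
  · rw [sum_eq_single j]
    · simp
    · intro b _ hb
      rw [if_neg]
      intro h
      apply hb
      apply Fin.ext
      omega
    · intro h; exact absurd (mem_univ _) h
  · intro b _ hb
    apply sum_eq_zero
    intro c _
    rw [if_neg]
    intro h
    apply hb
    apply Fin.ext
    have h1 := b.isLt
    have h2 := c.isLt
    have h3 := j.isLt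
    have h4 : (i.val * m + j.val) / m = i.val := by
      rw [mul_comm, Nat.mul_add_div (by omega), Nat.div_eq_of_lt h3, add_zero]
    have h5 : (b.val * m + c.val) / m = b.val := by
      rw [mul_comm, Nat.mul_add_div (by omega), Nat.div_eq_of_lt h2, add_zero]
    rw [← h5, ← h, h4]
  · intro h; exact absurd (mem_univ _) h

open Polynomial in
theorem hshP_natDegree (m p : ℕ) (x : Fin m → Fin m → ℤ) :
    (hshP m p x).natDegree ≤ m ^ 2 := by
  unfold hshP
  apply natDegree_sum_le_of_forall_le
  intro i _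
  apply natDegree_sum_le_of_forall_le
  intro j _
  refine (natDegree_C_mul_X_pow_le _ _).trans ?_
  have h1 := i.isLt
  have h3 := j.isLt
  nlinarith

open Polynomial in
theorem hshP_eval (m p a : ℕ) (x : Fin m → Fin m → ℤ) :
    (hshP m p x).eval (a : ZMod p) =
      ((∑ i, ∑ j, x i j * (hv m p a i j : ℤ) : ℤ) : ZMod p) := by
  unfold hshP hv
  simp only [eval_finsetSum, eval_mul, eval_C, eval_pow, eval_X]
  push_cast
  apply sum_congr rfl
  intro i _
  apply sum_congr rfl
  intro j _
  simp

/-- Some `a < p` separates all vectors of `X` from zero. -/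
theorem hsh (m p : ℕ) (hp : p.Prime) (X : Finset (Fin m → Fin m → ℤ))
    (hX : ∀ x ∈ X, x ≠ 0 ∧ ∀ i j, |x i j| < p) (hcard : m ^ 2 * X.card < p) :
    ∃ a < p, ∀ x ∈ X, ∑ i, ∑ j, x i j * (hv m p a i j : ℤ) ≠ 0 := by
  classical
  haveI : Fact p.Prime := ⟨hp⟩
  have hne : ∀ x ∈ X, hshP m p x ≠ 0 := by
    intro x hx h0
    obtain ⟨hx0, hxb⟩ := hX x hx
    apply hx0
    funext i j
    have h1 := hshP_coeff m p x i j
    rw [h0, Polynomial.coeff_zero] at h1
    have h2 : (p : ℤ) ∣ x i j := (ZMod.intCast_zmod_eq_zero_iff_dvd _ _).1 h1.symm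
    exact Int.eq_zero_of_abs_lt_dvd h2 (hxb i j)
  set R : Finset (ZMod p) := X.biUnion (fun x => (hshP m p x).roots.toFinset) with hR
  have hRc : R.card < Fintype.card (ZMod p) := by
    rw [ZMod.card]
    refine lt_of_le_of_lt card_biUnion_le ?_
    refine lt_of_le_of_lt (sum_le_card_nsmul X _ (m ^ 2) ?_) ?_
    · intro x hx
      refine (Multiset.toFinset_card_le _).trans ?_
      exact (Polynomial.card_roots' _).trans (hshP_natDegree m p x)
    · rw [smul_eq_mul, mul_comm]; exact hcard
  obtain ⟨a, ha⟩ : ∃ a : ZMod p, a ∉ R := by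
    by_contra hcon
    push Not at hcon
    have : R = univ := eq_univ_iff_forall.2 hcon
    rw [this, card_univ] at hRc
    exact lt_irrefl _ hRc
  refine ⟨a.val, ZMod.val_lt a, ?_⟩
  intro x hx h0
  apply ha
  rw [hR, mem_biUnion]
  refine ⟨x, hx, ?_⟩
  rw [Multiset.mem_toFinset, Polynomial.mem_roots (hne x hx), Polynomial.IsRoot.def]
  have h1 := hshP_eval m p a.val x
  rw [h0, ZMod.natCast_zmod_val] at h1
  simpa using h1

end EMx
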