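import Pool.Agent.H.MP_36be4a.Hsh
import Pool.Agent.H.MP_36be4a.Cnt

/-! The hash property. -/

namespace EMx

open Finset

/-- The signed incidence matrix of a permutation relative to the identity (columns relabelled
by `σ`). -/
def hspChi {m : ℕ} (σ π : Equiv.Perm (Fin m)) (i j : Fin m) : ℤ :=
  (if j = σ (π i) then 1 else 0) - (if j = σ i then 1 else 0)

theorem hspChi_sum {m : ℕ} (σ π : Equiv.Perm (Fin m)) (g : Fin m → Fin m → ℤ) :
    ∑ i, ∑ j, hspChi σ π i j * g i j = ∑ i, (g i (σ (π i)) - g i (σ i)) := by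
  refine Finset.sum_congr rfl (fun i _ => ?_)
  simp only [hspChi, sub_mul, ite_mul, one_mul, zero_mul, Finset.sum_sub_distrib,
    Finset.sum_ite_eq', Finset.mem_univ, if_true]

theorem hspChi_abs {m : ℕ} (σ π : Equiv.Perm (Fin m)) (i j : Fin m) : |hspChi σ π i j| ≤ 1 := by
  unfold hspChi
  split_ifs <;> simp

theorem hspChi_fixed {m : ℕ} (σ π : Equiv.Perm (Fin m)) {i : Fin m} (hi : π i = i) (j : Fin m) :
    hspChi σ π i j = 0 := by
  simp [hspChi, hi]

theorem hspChi_supp {m : ℕ} (σ π : Equiv.Perm (Fin m)) {i j : Fin m} (h : hspChi σ π i j ≠ 0) :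
    (i, j) ∈ (π.support.image (fun i => (i, σ (π i)))) ∪ (π.support.image (fun i => (i, σ i))) := by
  have hi : π i ≠ i := fun hi => h (hspChi_fixed σ π hi j)
  rw [mem_union, mem_image, mem_image]
  by_cases h1 : j = σ (π i)
  · exact Or.inl ⟨i, Equiv.Perm.mem_support.2 hi, by rw [h1]⟩
  · by_cases h2 : j = σ i
    · exact Or.inr ⟨i, Equiv.Perm.mem_support.2 hi, by rw [h2]⟩
    · exact absurd (by simp [hspChi, h1, h2]) h

theorem hspChi_moved {m : ℕ} (σ π : Equiv.Perm (Fin m)) {i : Fin m} (hi : π i ≠ i) :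
    hspChi σ π i (σ (π i)) = 1 := by
  have : ¬ σ (π i) = σ i := fun h => hi (σ.injective h)
  simp [hspChi, hi]

theorem hsp_pw_abs {m : ℕ} (r : Fin m → Fin m → ℤ) (hr : ∀ x y, |aw r x y| ≤ 1)
    (π : Equiv.Perm (Fin m)) : |pw r π| ≤ π.support.card := by
  unfold pw
  have h1 : ∑ x, aw r x (π x) = ∑ x ∈ π.support, aw r x (π x) := by
    symm
    apply Finset.sum_subset (Finset.subset_univ _)
    intro x _ hx
    have : π x = x := by simpa using hx
    rw [this, aw_self]
  rw [h1]
  refine (Finset.abs_sum_le_sum_abs _ _).trans ?_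
  refine (Finset.sum_le_sum (fun x _ => hr x (π x))).trans ?_
  simp

/-- The hash property used in `core`. -/
theorem hsp (m l p : ℕ) (hm : 0 < m) (hp : p.Prime)
    (hbig : m ^ 2 * (m ^ 2 * (4 * l + 1)) ^ (4 * l) < p) (hl : 2 * l < p) :
    ∃ a < p, ∀ (σ : Equiv.Perm (Fin m)) (r w : Fin m → Fin m → ℤ), (∀ x y, |aw r x y| ≤ 1) →
      (∀ x y, w x y = (hv m p a x (σ y) : ℤ)) →
      ∀ (π₁ π₂ : Equiv.Perm (Fin m)) (L : ℚ), π₁ ≠ 1 → π₂ ≠ 1 → π₁.support.card ≤ l →
        π₂.support.card ≤ l → (pw w π₁ : ℚ) = L * pw r π₁ → (pw w π₂ : ℚ) = L * pw r π₂ →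
        π₁ = π₂ := by
  classical
  obtain ⟨X0, hX0c, hX0⟩ := cnt m (4 * l) (2 * l) hm
  set X := X0.filter (fun x => x ≠ 0 ∧ ∀ i j, |x i j| ≤ ((2 * l : ℕ) : ℤ)) with hX
  have hXc : X.card ≤ (m ^ 2 * (4 * l + 1)) ^ (4 * l) := by
    refine (card_filter_le _ _).trans (hX0c.trans (le_of_eq ?_))
    congr 2
    ring
  have hl' : ((2 * l : ℕ) : ℤ) < (p : ℤ) := by exact_mod_cast hl
  obtain ⟨a, ha, hsep⟩ := hsh m p hp X
    (fun x hx => by
      have h := (mem_filter.1 hx).2
      exact ⟨h.1, fun i j => (h.2 i j).trans_lt hl'⟩)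
    ((Nat.mul_le_mul_left _ hXc).trans_lt hbig)
  refine ⟨a, ha, ?_⟩
  intro σ r w hr hw π₁ π₂ L h1 h2 hc1 hc2 hL1 hL2
  -- the separation property
  have key : ∀ x : Fin m → Fin m → ℤ,
      (univ.filter (fun e : Fin m × Fin m => x e.1 e.2 ≠ 0)).card ≤ 4 * l →
      (∀ i j, |x i j| ≤ ((2 * l : ℕ) : ℤ)) →
      ∑ i, ∑ j, x i j * (hv m p a i j : ℤ) = 0 → x = 0 := by
    intro x hx1 hx2 hx3
    by_contra hne
    exact hsep x (mem_filter.2 ⟨hX0 x hx1 hx2, hne, hx2⟩) hx3
  have hpw : ∀ π : Equiv.Perm (Fin m),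
      ∑ i, ∑ j, hspChi σ π i j * (hv m p a i j : ℤ) = pw w π := by
    intro π
    rw [hspChi_sum, pw]
    refine Finset.sum_congr rfl (fun i _ => ?_)
    rw [aw, hw, hw]
  have hpos : ∀ π : Equiv.Perm (Fin m), π ≠ 1 → 1 ≤ π.support.card := by
    intro π hπ
    rw [Nat.one_le_iff_ne_zero]
    intro h
    exact hπ (Equiv.Perm.card_support_eq_zero.1 h)
  have hsupp : ∀ π : Equiv.Perm (Fin m), ((π.support.image (fun i => (i, σ (π i)))) ∪
      (π.support.image (fun i => (i, σ i)))).card ≤ 2 * π.support.card := by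
    intro π
    refine (card_union_le _ _).trans ?_
    have := card_image_le (s := π.support) (f := fun i => (i, σ (π i)))
    have := card_image_le (s := π.support) (f := fun i => (i, σ i))
    omega
  have hl1 : 1 ≤ l := (hpos π₁ h1).trans hc1
  have hnz : ∀ π : Equiv.Perm (Fin m), π ≠ 1 → π.support.card ≤ l →
      (pw w π : ℚ) = L * pw r π → pw r π ≠ 0 := by
    intro π hπ hc hL hR
    rw [hR] at hL
    have hw0 : pw w π = 0 := by
      have : (pw w π : ℚ) = 0 := by rw [hL]; simp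
      exact_mod_cast this
    have hz := key (hspChi σ π) (by
      refine (card_le_card ?_).trans ((hsupp π).trans (by omega))
      intro e he
      exact hspChi_supp σ π (mem_filter.1 he).2) (by
      intro i j
      refine (hspChi_abs σ π i j).trans ?_
      push_cast
      omega) (by rw [hpw, hw0])
    apply hπ
    ext i
    by_contra hne
    have hne' : π i ≠ i := fun h => hne (by rw [h]; rfl)
    have h3 := hspChi_moved σ π hne'
    rw [hz] at h3
    simp at h3
  have hR1 := hnz π₁ h1 hc1 hL1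
  have hR2 := hnz π₂ h2 hc2 hL2
  have hx := key (fun i j => pw r π₂ * hspChi σ π₁ i j - pw r π₁ * hspChi σ π₂ i j) (by
      refine (card_le_card (t := ((π₁.support.image (fun i => (i, σ (π₁ i)))) ∪
      (π₁.support.image (fun i => (i, σ i)))) ∪ ((π₂.support.image (fun i => (i, σ (π₂ i)))) ∪
      (π₂.support.image (fun i => (i, σ i))))) ?_).trans ?_
      · intro e he
        have he2 := (mem_filter.1 he).2
        rw [mem_union]
        by_cases h3 : hspChi σ π₁ e.1 e.2 = 0
        · right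
          apply hspChi_supp σ π₂
          intro h4
          apply he2
          simp [h3, h4]
        · left
          exact hspChi_supp σ π₁ h3
      · refine (card_union_le _ _).trans ?_
        have := hsupp π₁
        have := hsupp π₂
        omega) (by
      intro i j
      have b1 := hsp_pw_abs r hr π₁
      have b2 := hsp_pw_abs r hr π₂
      have c1 := hspChi_abs σ π₁ i j
      have c2 := hspChi_abs σ π₂ i j
      have d1 : |pw r π₂ * hspChi σ π₁ i j| ≤ l := by
        rw [abs_mul]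
        have e1 : |pw r π₂| ≤ (l : ℤ) := b2.trans (by exact_mod_cast hc2)
        calc |pw r π₂| * |hspChi σ π₁ i j| ≤ l * 1 := by
              apply mul_le_mul e1 c1 (abs_nonneg _) (by positivity)
          _ = l := by ring
      have d2 : |pw r π₁ * hspChi σ π₂ i j| ≤ l := by
        rw [abs_mul]
        have e1 : |pw r π₁| ≤ (l : ℤ) := b1.trans (by exact_mod_cast hc1)
        calc |pw r π₁| * |hspChi σ π₂ i j| ≤ l * 1 := by
              apply mul_le_mul e1 c2 (abs_nonneg _) (by positivity)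
          _ = l := by ring
      have := abs_sub (pw r π₂ * hspChi σ π₁ i j) (pw r π₁ * hspChi σ π₂ i j)
      push_cast
      linarith) (by
      have e1 : ∑ i, ∑ j, (pw r π₂ * hspChi σ π₁ i j - pw r π₁ * hspChi σ π₂ i j) *
          (hv m p a i j : ℤ) = pw r π₂ * pw w π₁ - pw r π₁ * pw w π₂ := by
        rw [← hpw π₁, ← hpw π₂, Finset.mul_sum, Finset.mul_sum, ← Finset.sum_sub_distrib]
        refine Finset.sum_congr rfl (fun i _ => ?_)
        rw [Finset.mul_sum, Finset.mul_sum, ← Finset.sum_sub_distrib]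
        refine Finset.sum_congr rfl (fun j _ => ?_)
        ring
      rw [e1]
      have e2 : ((pw r π₂ * pw w π₁ - pw r π₁ * pw w π₂ : ℤ) : ℚ) = 0 := by
        push_cast
        rw [hL1, hL2]
        ring
      exact_mod_cast e2)
  have hx' : ∀ i j, pw r π₂ * hspChi σ π₁ i j = pw r π₁ * hspChi σ π₂ i j := by
    intro i j
    have := congrFun (congrFun hx i) j
    simp only [Pi.zero_apply] at this
    linarith
  -- transfer of a moved point
  have tr : ∀ π ρ : Equiv.Perm (Fin m), pw r ρ ≠ 0 →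
      (∀ i j, pw r ρ * hspChi σ π i j = pw r π * hspChi σ ρ i j) → ∀ i, π i ≠ i → ρ i = π i := by
    intro π ρ hρ hh i hi
    have h3 := hh i (σ (π i))
    rw [hspChi_moved σ π hi, mul_one] at h3
    have h4 : hspChi σ ρ i (σ (π i)) ≠ 0 := by
      intro h5
      rw [h5, mul_zero] at h3
      exact hρ h3
    by_contra h6
    apply h4
    have h7 : ¬ σ (π i) = σ (ρ i) := fun h => h6 (σ.injective h).symm
    have h8 : ¬ π i = ρ i := fun h => h6 h.symm
    simp [hspChi, h8, hi]
  apply Equiv.ext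
  intro i
  by_cases hi : π₁ i = i
  · by_cases hi2 : π₂ i = i
    · rw [hi, hi2]
    · exact tr π₂ π₁ hR1 (fun i j => (hx' i j).symm) i hi2
  · exact (tr π₁ π₂ hR2 hx' i hi).symm

end EMx
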