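import Pool.Agent.H.MP_36be4a.Defs

/-! Exact perfect matchings. -/

namespace EMx

open Finset

/-- `σ` is a perfect matching of the graph `E` with exactly `k` red edges. -/
def IsEx {m : ℕ} (E R : Fin m → Fin m → Bool) (k : ℕ) (σ : Equiv.Perm (Fin m)) : Prop :=
  (∀ i, E i (σ i) = true) ∧ (univ.filter (fun i => R i (σ i) = true)).card = k

end EMx
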