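import Pool.Agent.H.MP_36be4a.Rlb

/-! Iteration over all digits. -/

namespace EMx

open Finset

variable {V : Type*} [Fintype V] [DecidableEq V]

theorem iter (A : V → V → Prop) (S : Finset V) (r : V → V → ℤ) (hr : ∀ x y, |aw r x y| ≤ 1)
    (k Q m : ℕ) (hk : 0 < k) (hQ : 2 ≤ Q) (hm : 0 < m) (b : ℕ)
    (hb : ∀ d, Cst (Fintype.card V) k Q m d → d ≤ b)
    (J : ℕ) (c : ℕ → V → V → ℤ) (hc : ∀ j x y, |aw (c j) x y| ≤ 1)
    (hmin : ∀ π, Adm A S π → pw r π = 0 → ∀ j < J, (∀ j' < j, pw (c j') π = 0) →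
      0 ≤ pw (c j) π) :
    ∃ (S' : Finset V) (A' : V → V → Prop) (l : ℕ → ℚ) (Y Z : ℕ → V → ℚ),
      S ⊆ S' ∧ (∀ x y, A' x y → A x y) ∧ S'.card ≤ S.card + J * (2 * b) ∧
      (∀ j < J, ∀ x y, x ∉ S' → y ∉ S' → (A' x y ∨ x = y) →
        (c j x y : ℚ) = l j * r x y + Y j x + Z j y) ∧
      (∀ π, Adm A S' π → pw r π = 0 → (∀ j < J, pw (c j) π = 0) → Adm A' S' π) := by
  induction J with
  | zero =>
    exact ⟨S, A, fun _ => 0, fun _ _ => 0, fun _ _ => 0, subset_rfl, fun _ _ h => h, by omega,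
      fun j hj => absurd hj (by omega), fun π hπ _ _ => hπ⟩
  | succ J ih =>
    obtain ⟨S1, A1, l, Y, Z, hS1, hA1, hcard1, hid1, hlast1⟩ :=
      ih (fun π hπ h0 j hj => hmin π hπ h0 j (by omega))
    have hmin1 : ∀ π, Adm A1 S1 π → pw r π = 0 → 0 ≤ pw (c J) π := by
      intro π hπ h0
      refine hmin π (hπ.mono hA1 hS1) h0 J (by omega) ?_
      intro j hj
      have h1 := pw_of_identity A1 S1 (c j) r (l j) (Y j) (Z j) (hid1 j hj) π hπ
      rw [h0] at h1
      have h2 : (pw (c j) π : ℚ) = 0 := by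
        rw [h1]; simp
      exact_mod_cast h2
    obtain ⟨S2, A2, l2, Y2, Z2, hS2, hA2, hcard2, hid2, hlast2⟩ :=
      roundB A1 S1 (c J) r (hc J) hr hmin1 k Q m hk hQ hm b hb
    refine ⟨S2, A2, Function.update l J l2, Function.update Y J Y2, Function.update Z J Z2,
      hS1.trans hS2, fun x y h => hA1 x y (hA2 x y h), ?_, ?_, ?_⟩
    · have : (J + 1) * (2 * b) = J * (2 * b) + 2 * b := by ring
      omega
    · intro j hj x y hx hy hxy
      by_cases hjJ : j = J
      · subst hjJ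
        simp only [Function.update_self]
        exact hid2 x y hx hy hxy
      · rw [Function.update_of_ne hjJ, Function.update_of_ne hjJ, Function.update_of_ne hjJ]
        exact hid1 j (by omega) x y (fun h => hx (hS2 h)) (fun h => hy (hS2 h))
          (hxy.imp (hA2 x y) id)
    · intro π hπ h0 hz
      have h3 : Adm A1 S1 π :=
        hlast1 π (hπ.mono (fun _ _ h => h) hS2) h0 (fun j hj => hz j (by omega))
      exact hlast2 π ⟨h3.1, hπ.2⟩ h0 (hz J (by omega))

end EMx
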