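import Pool.Agent.H.MP_36be4a.Defs

/-! Lexicographic minima. -/

namespace EMx

/-- Lexicographically minimal elements exist. -/
theorem lexmin {α : Type*} (P : α → Prop) (h : ∃ a, P a) [Finite α] (J : ℕ) (C : ℕ → α → ℤ) :
    ∃ a, P a ∧ ∀ b, P b → ∀ j < J, (∀ j' < j, C j' b = C j' a) → C j a ≤ C j b := by
  classical
  induction J with
  | zero =>
    obtain ⟨a, ha⟩ := h
    exact ⟨a, ha, fun b _ j hj => absurd hj (Nat.not_lt_zero j)⟩
  | succ J ih =>
    obtain ⟨a, ha, hmin⟩ := ih
    have := Fintype.ofFinite α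
    have hne : (Finset.univ.filter (fun b => P b ∧ ∀ j < J, C j b = C j a)).Nonempty :=
      ⟨a, by simp [ha]⟩
    obtain ⟨a', ha', hmin'⟩ := Finset.exists_min_image _ (fun b => C J b) hne
    rw [Finset.mem_filter] at ha'
    obtain ⟨-, hPa', heq⟩ := ha'
    refine ⟨a', hPa', ?_⟩
    intro b hb j hj hjb
    rcases Nat.lt_or_ge j J with hjJ | hjJ
    · rw [heq j hjJ]
      exact hmin b hb j hjJ fun j' hj' => by rw [hjb j' hj', heq j' (hj'.trans hjJ)]
    · have hj' : j = J := by omega
      subst hj'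
      apply hmin'
      rw [Finset.mem_filter]
      exact ⟨Finset.mem_univ _, hb, fun j' hj' => by rw [hjb j' hj', heq j' hj']⟩

end EMx
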