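import Pool.Agent.H.MP_36be4a.Core
import Pool.Agent.H.MP_36be4a.Cb
import Pool.Agent.H.MP_36be4a.Hsp
import Pool.Agent.H.MP_36be4a.Lxm
import Pool.Agent.H.MP_36be4a.Isx

/-! The isolation theorem. -/

namespace EMx

open Finset

/-- Binary expansion. -/
theorem Mn_bits (J : ℕ) : ∀ x : ℕ, x < 2 ^ J →
    (x : ℤ) = ∑ b ∈ range J, 2 ^ b * (if x.testBit b then (1 : ℤ) else 0) := by
  induction J with
  | zero => intro x hx; simp at hx; simp [hx]
  | succ J ih =>
    intro x hx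
    rw [Finset.sum_range_succ']
    have h2 : x / 2 < 2 ^ J := by
      rw [Nat.div_lt_iff_lt_mul (by norm_num)]
      calc x < 2 ^ (J + 1) := hx
        _ = 2 ^ J * 2 := pow_succ 2 J
    have := ih (x / 2) h2
    have e1 : ∀ b, x.testBit (b + 1) = (x / 2).testBit b := by
      intro b
      rw [Nat.testBit_succ]
    simp only [e1]
    have e2 : ∑ b ∈ range J, (2 : ℤ) ^ (b + 1) * (if (x / 2).testBit b then (1 : ℤ) else 0) =
        2 * ∑ b ∈ range J, (2 : ℤ) ^ b * (if (x / 2).testBit b then (1 : ℤ) else 0) := by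
      rw [Finset.mul_sum]
      refine Finset.sum_congr rfl fun b _ => ?_
      rw [pow_succ]; ring
    rw [e2, ← this]
    have e3 : (if x.testBit 0 = true then (1 : ℤ) else 0) = ((x % 2 : ℕ) : ℤ) := by
      rw [Nat.testBit_zero]
      rcases Nat.mod_two_eq_zero_or_one x with h | h <;> simp [h]
    rw [e3]
    have h4 : 2 * (x / 2) + x % 2 = x := by omega
    push_cast
    omega

/-- Base `m+1` numbers with small digits are small. -/
theorem Mn_bnd (m : ℕ) (N : ℕ) : ∀ u : ℕ → ℕ, (∀ b, u b ≤ m) →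
    ∑ b ∈ range N, (m + 1) ^ (N - 1 - b) * u b < (m + 1) ^ N := by
  induction N with
  | zero => intro u _; simp
  | succ N ih =>
    intro u hu
    rw [Finset.sum_range_succ']
    have e : ∑ b ∈ range N, (m + 1) ^ (N + 1 - 1 - (b + 1)) * u (b + 1) =
        ∑ b ∈ range N, (m + 1) ^ (N - 1 - b) * u (b + 1) := by
      refine Finset.sum_congr rfl fun b _ => ?_
      congr 2
      omega
    rw [e]
    have h1 : ∑ b ∈ range N, (m + 1) ^ (N - 1 - b) * u (b + 1) < (m + 1) ^ N :=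
      ih (fun b => u (b + 1)) (fun b => hu _)
    have h2 : (m + 1) ^ (N + 1 - 1 - 0) * u 0 ≤ (m + 1) ^ N * m := by
      simp only [Nat.add_sub_cancel, Nat.sub_zero]
      exact Nat.mul_le_mul_left _ (hu 0)
    calc _ < (m + 1) ^ N + (m + 1) ^ N * m := by omega
      _ = (m + 1) ^ (N + 1) := by rw [pow_succ]; ring

/-- Lexicographic comparison. -/
theorem Mn_lex (m : ℕ) (N : ℕ) : ∀ (u v : ℕ → ℕ), (∀ b, u b ≤ m) → ∀ b₀ < N,
    (∀ b < b₀, u b = v b) → u b₀ < v b₀ →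
    ∑ b ∈ range N, (m + 1) ^ (N - 1 - b) * u b < ∑ b ∈ range N, (m + 1) ^ (N - 1 - b) * v b := by
  induction N with
  | zero => intro u v _ b₀ hb; omega
  | succ N ih =>
    intro u v hu b₀ hb₀ heq hlt
    rw [Finset.sum_range_succ', Finset.sum_range_succ']
    have e : ∀ w : ℕ → ℕ, ∑ b ∈ range N, (m + 1) ^ (N + 1 - 1 - (b + 1)) * w (b + 1) =
        ∑ b ∈ range N, (m + 1) ^ (N - 1 - b) * w (b + 1) := by
      intro w
      refine Finset.sum_congr rfl fun b _ => ?_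
      congr 2
      omega
    rw [e u, e v]
    simp only [Nat.add_sub_cancel, Nat.sub_zero]
    rcases Nat.eq_zero_or_pos b₀ with h0 | h0
    · subst h0
      have h1 : ∑ b ∈ range N, (m + 1) ^ (N - 1 - b) * u (b + 1) < (m + 1) ^ N :=
        Mn_bnd m N (fun b => u (b + 1)) (fun b => hu _)
      have h2 : (m + 1) ^ N * (u 0 + 1) ≤ (m + 1) ^ N * v 0 := Nat.mul_le_mul_left _ hlt
      have h3 : (m + 1) ^ N * (u 0 + 1) = (m + 1) ^ N * u 0 + (m + 1) ^ N := by ring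
      omega
    · obtain ⟨c, rfl⟩ : ∃ c, b₀ = c + 1 := ⟨b₀ - 1, by omega⟩
      have h1 : ∑ b ∈ range N, (m + 1) ^ (N - 1 - b) * u (b + 1) <
          ∑ b ∈ range N, (m + 1) ^ (N - 1 - b) * v (b + 1) :=
        ih (fun b => u (b + 1)) (fun b => v (b + 1)) (fun b => hu _) c (by omega)
        (fun b hb => heq (b + 1) (by omega)) hlt
      have h2 := heq 0 (by omega)
      rw [h2]
      omega

/-- For every exact instance some member of the hitting set isolates an exact matching. -/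
theorem isolate (m : ℕ) (hm : 0 < m) (E R : Fin m → Fin m → Bool) (k : ℕ)
    (h : ∃ σ, IsEx E R k σ) :
    ∃ w ∈ hittingSet m, ∃ σ₀, IsEx E R k σ₀ ∧ ∀ σ, IsEx E R k σ → σ ≠ σ₀ →
      ∑ i, w i (σ₀ i) < ∑ i, w i (σ i) := by
  classical
  obtain ⟨hp, hpbig, hpl⟩ := pp_spec m
  obtain ⟨ht, ht2⟩ := tt_spec m
  obtain ⟨a, ha, hash⟩ := hsp m (ll m) (pp m) hm hp hpbig hpl
  -- the digits
  let dn : ℕ → Fin m → Fin m → ℕ := fun b i j => if (hv m (pp m) a i j).testBit b then 1 else 0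
  have dn_le : ∀ b i j, dn b i j ≤ 1 := by
    intro b i j; show (if _ then 1 else 0) ≤ 1; split_ifs <;> omega
  let Cn : ℕ → Equiv.Perm (Fin m) → ℕ := fun b σ => ∑ i, dn b i (σ i)
  have Cn_le : ∀ b σ, Cn b σ ≤ m := by
    intro b σ
    calc Cn b σ ≤ ∑ i : Fin m, 1 := Finset.sum_le_sum fun i _ => dn_le b i (σ i)
      _ = m := by simp
  obtain ⟨σ₀, hσ₀, hlex⟩ := lexmin (IsEx E R k) h (JJ m) (fun b σ => (Cn b σ : ℤ))
  let A : Fin m → Fin m → Prop := fun x y => E x (σ₀ y) = true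
  let r : Fin m → Fin m → ℤ := fun x y => if R x (σ₀ y) = true then 1 else 0
  let c : ℕ → Fin m → Fin m → ℤ := fun b x y => (dn b x (σ₀ y) : ℤ)
  let w : Fin m → Fin m → ℤ := fun x y => (hv m (pp m) a x (σ₀ y) : ℤ)
  have hr : ∀ x y, |aw r x y| ≤ 1 := by
    intro x y
    show |(if R x (σ₀ y) = true then (1 : ℤ) else 0) - (if R x (σ₀ x) = true then 1 else 0)| ≤ 1
    split_ifs <;> simp
  have hc : ∀ b x y, |aw (c b) x y| ≤ 1 := by
    intro b x y
    show |((dn b x (σ₀ y) : ℕ) : ℤ) - ((dn b x (σ₀ x) : ℕ) : ℤ)| ≤ 1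
    have h1 := dn_le b x (σ₀ y)
    have h2 := dn_le b x (σ₀ x)
    rw [abs_le]
    constructor <;> omega
  have hpw : ∀ b (π : Equiv.Perm (Fin m)), pw (c b) π = (Cn b (σ₀ * π) : ℤ) - Cn b σ₀ := by
    intro b π
    show ∑ x, (((dn b x (σ₀ (π x)) : ℕ) : ℤ) - ((dn b x (σ₀ x) : ℕ) : ℤ)) =
      ((∑ i, dn b i ((σ₀ * π) i) : ℕ) : ℤ) - ((∑ i, dn b i (σ₀ i) : ℕ) : ℤ)
    rw [Finset.sum_sub_distrib]
    push_cast
    rfl
  have hred : ∀ (σ : Equiv.Perm (Fin m)),
      ((univ.filter (fun i => R i (σ i) = true)).card : ℤ) =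
        ∑ i, (if R i (σ i) = true then (1 : ℤ) else 0) := by
    intro σ
    rw [Finset.card_filter]
    push_cast
    rfl
  have hpwr : ∀ (π : Equiv.Perm (Fin m)), pw r π =
      ((univ.filter (fun i => R i ((σ₀ * π) i) = true)).card : ℤ) -
      ((univ.filter (fun i => R i (σ₀ i) = true)).card : ℤ) := by
    intro π
    rw [hred, hred, ← Finset.sum_sub_distrib]
    rfl
  have hmin : ∀ π, Adm A ∅ π → pw r π = 0 → ∀ j < JJ m, (∀ j' < j, pw (c j') π = 0) →
      0 ≤ pw (c j) π := by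
    intro π hπ hrπ j hj hj'
    have hex : IsEx E R k (σ₀ * π) := by
      refine ⟨fun i => ?_, ?_⟩
      · by_cases hi : π i = i
        · show E i (σ₀ (π i)) = true
          rw [hi]; exact hσ₀.1 i
        · exact hπ.1 i hi
      · have := hpwr π
        rw [hrπ, hσ₀.2] at this
        omega
    have := hlex _ hex j hj (fun j' hj2 => by
      have h3 := hj' j' hj2
      rw [hpw] at h3
      show (Cn j' (σ₀ * π) : ℤ) = Cn j' σ₀
      omega)
    rw [hpw]
    have h4 : (Cn j σ₀ : ℤ) ≤ Cn j (σ₀ * π) := this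
    omega
  have hvlt : ∀ i j, hv m (pp m) a i j < 2 ^ JJ m := by
    intro i j
    calc hv m (pp m) a i j < pp m := Nat.mod_lt _ hp.pos
      _ < 2 ^ JJ m := Nat.lt_pow_succ_log_self (by norm_num) _
  have hw : ∀ x y, w x y = ∑ j ∈ range (JJ m), 2 ^ j * c j x y := by
    intro x y
    show ((hv m (pp m) a x (σ₀ y) : ℕ) : ℤ) = _
    rw [Mn_bits (JJ m) _ (hvlt x (σ₀ y))]
    refine Finset.sum_congr rfl fun b _ => ?_
    show _ = 2 ^ b * (((if (hv m (pp m) a x (σ₀ y)).testBit b then 1 else 0 : ℕ)) : ℤ)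
    push_cast
    rfl
  have hcst : ∀ d, Cst (Fintype.card (Fin m)) (tt m ^ 2) (tt m ^ 2) (tt m ^ 6 * LL m) d →
      d ≤ 111 * tt m ^ 12 * LL m ^ 2 := by
    intro d hd
    rw [Fintype.card_fin] at hd
    exact cst_bound m hm (tt m) ht ht2 d hd
  have hLL : 0 < LL m := Nat.succ_pos _
  obtain ⟨T, d, hT, hd, hcore⟩ := core A r hr (tt m ^ 2) (tt m ^ 2) (tt m ^ 6 * LL m)
    (by positivity) (by nlinarith) (by positivity) (111 * tt m ^ 12 * LL m ^ 2) hcst
    (JJ m) c hc hmin (ll m) (tt m) (by omega)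
    (by rw [Fintype.card_fin]; exact le_of_eq rfl) w hw
    (hash σ₀ r w hr (fun x y => rfl))
  rw [Fintype.card_fin] at hd
  have hd' : d ≤ tt m ^ 13 * LL m := fin_bound m (tt m) ht ht2 d hd
  let T' : Finset (Fin m × Fin m) := T.image (fun x => (x, σ₀ x))
  have hT' : T'.card ≤ qq m := by
    calc T'.card ≤ T.card := Finset.card_image_le
      _ ≤ JJ m * (2 * (111 * tt m ^ 12 * LL m ^ 2)) + 1 + d := hT
      _ ≤ qq m := by unfold qq; omega
  have memT' : ∀ i j, (i, j) ∈ T' ↔ i ∈ T ∧ σ₀ i = j := by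
    intro i j
    simp only [T', Finset.mem_image, Prod.mk.injEq]
    constructor
    · rintro ⟨x, hx, rfl, rfl⟩; exact ⟨hx, rfl⟩
    · rintro ⟨hx, rfl⟩; exact ⟨i, hx, rfl, rfl⟩
  refine ⟨wt m a T', ?_, σ₀, hσ₀, ?_⟩
  · unfold hittingSet
    rw [Finset.mem_image]
    exact ⟨(a, T'), by simp [ha, hT'], rfl⟩
  intro σ hσ hne
  -- expansion of the weight
  let ct : Equiv.Perm (Fin m) → ℕ := fun τ => ∑ i, (if (i, τ i) ∈ T' then 0 else 1)
  have hW : ∀ τ : Equiv.Perm (Fin m), ∑ i, wt m a T' i (τ i) =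
      (m + 1) ^ JJ m * ct τ + ∑ b ∈ range (JJ m), (m + 1) ^ (JJ m - 1 - b) * Cn b τ := by
    intro τ
    unfold wt
    rw [Finset.sum_add_distrib, Finset.sum_comm]
    congr 1
    · show _ = (m + 1) ^ JJ m * ∑ i, (if (i, τ i) ∈ T' then 0 else 1)
      rw [Finset.mul_sum]
      refine Finset.sum_congr rfl fun i _ => ?_
      split_ifs <;> simp
    · refine Finset.sum_congr rfl fun b _ => ?_
      show _ = (m + 1) ^ (JJ m - 1 - b) * ∑ i, dn b i (τ i)
      rw [Finset.mul_sum]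
  rw [hW, hW]
  have hbnd := Mn_bnd m (JJ m) (fun b => Cn b σ₀) (fun b => Cn_le b σ₀)
  have ct_le : ∀ i, (if (i, σ₀ i) ∈ T' then 0 else 1) ≤ (if (i, σ i) ∈ T' then 0 else 1) := by
    intro i
    by_cases h1 : (i, σ₀ i) ∈ T'
    · simp [h1]
    · have h2 : (i, σ i) ∉ T' := by
        intro h3
        rw [memT'] at h3
        exact h1 ((memT' _ _).2 ⟨h3.1, rfl⟩)
      simp [h1, h2]
  have hct : ct σ₀ ≤ ct σ := Finset.sum_le_sum fun i _ => ct_le i
  by_cases hfix : ∃ x ∈ T, σ x ≠ σ₀ x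
  · obtain ⟨x, hx, hxne⟩ := hfix
    have hlt : ct σ₀ < ct σ := by
      refine Finset.sum_lt_sum (fun i _ => ct_le i) ⟨x, Finset.mem_univ x, ?_⟩
      have h1 : (x, σ₀ x) ∈ T' := (memT' _ _).2 ⟨hx, rfl⟩
      have h2 : (x, σ x) ∉ T' := by
        intro h3
        exact hxne ((memT' _ _).1 h3).2.symm
      simp [h1, h2]
    have h5 : (m + 1) ^ JJ m * (ct σ₀ + 1) ≤ (m + 1) ^ JJ m * ct σ := Nat.mul_le_mul_left _ hlt
    have h6 : (m + 1) ^ JJ m * (ct σ₀ + 1) = (m + 1) ^ JJ m * ct σ₀ + (m + 1) ^ JJ m := by ring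
    omega
  · push Not at hfix
    have hmul : σ₀ * (σ₀⁻¹ * σ) = σ := by rw [mul_inv_cancel_left]
    set π : Equiv.Perm (Fin m) := σ₀⁻¹ * σ with hπ
    have hσπ : ∀ x, σ₀ (π x) = σ x := by
      intro x
      have := congrArg (fun τ : Equiv.Perm (Fin m) => τ x) hmul
      exact this
    have hrπ : pw r π = 0 := by
      rw [hpwr, hmul, hσ.2, hσ₀.2]; ring
    have hadm : Adm A T π := by
      refine ⟨fun x _ => ?_, fun x hx => ?_⟩
      · show E x (σ₀ (π x)) = true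
        rw [hσπ]; exact hσ.1 x
      · apply σ₀.injective
        rw [hσπ]; exact hfix x hx
    have hadm0 : Adm A ∅ π := ⟨hadm.1, fun x hx => absurd hx (Finset.notMem_empty x)⟩
    have hex : ∃ j, j < JJ m ∧ pw (c j) π ≠ 0 := by
      by_contra hcon
      push Not at hcon
      have h1 := hcore π hadm hrπ hcon
      apply hne
      rw [← hmul, h1, mul_one]
    have hj := Nat.find_spec hex
    have hj' : ∀ j' < Nat.find hex, pw (c j') π = 0 := by
      intro j' hj2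
      by_contra hcon
      exact Nat.find_min hex hj2 ⟨by omega, hcon⟩
    have hpos := hmin π hadm0 hrπ _ hj.1 hj'
    have hlt2 : Cn (Nat.find hex) σ₀ < Cn (Nat.find hex) σ := by
      have h1 := hj.2
      rw [hpw, hmul] at h1 hpos
      omega
    have heq2 : ∀ j' < Nat.find hex, Cn j' σ₀ = Cn j' σ := by
      intro j' hj2
      have h1 := hj' j' hj2
      rw [hpw, hmul] at h1
      omega
    have h7 := Mn_lex m (JJ m) (fun b => Cn b σ₀) (fun b => Cn b σ) (fun b => Cn_le b σ₀)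
      (Nat.find hex) hj.1 heq2 hlt2
    have h8 : (m + 1) ^ JJ m * ct σ₀ ≤ (m + 1) ^ JJ m * ct σ := Nat.mul_le_mul_left _ hct
    omega

end EMx
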