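import Pool.Agent.H.MP_36be4a.Hsh

/-! The explicit parameters and the explicit hitting set. -/

namespace EMx

open Finset

/-- The least `t` with `m ≤ t ^ 14` (about `m ^ (1/14)`), at least 2. -/
def tt (m : ℕ) : ℕ := (Nat.find (⟨m, Nat.le_self_pow (by norm_num) m⟩ : ∃ t, m ≤ t ^ 14)) + 2

/-- `⌊log₂ m⌋ + 1`. -/
def LL (m : ℕ) : ℕ := Nat.log 2 m + 1

/-- Length scale of the short cycles killed at the end. -/
def ll (m : ℕ) : ℕ := 4 * tt m * LL m

/-- The prime modulus of the hash: the least prime exceeding the stated bound. -/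
def pp (m : ℕ) : ℕ :=
  Nat.find (Nat.exists_infinite_primes (m ^ 2 * (m ^ 2 * (4 * ll m + 1)) ^ (4 * ll m) + 2 * ll m + 1))

/-- Number of binary digits of the hash values. -/
def JJ (m : ℕ) : ℕ := Nat.log 2 (pp m) + 1

/-- Maximal number of forced edges. -/
def qq (m : ℕ) : ℕ := JJ m * (2 * (111 * tt m ^ 12 * LL m ^ 2)) + 1 + tt m ^ 13 * LL m

/-- The weight function attached to a hash parameter `a` and a set `T` of forced edges: edges
outside `T` get the large weight `(m+1)^J`, and then the binary digits of the hash value of the edge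
are read in base `m + 1`, the least significant digit first. -/
def wt (m a : ℕ) (T : Finset (Fin m × Fin m)) (i j : Fin m) : ℕ :=
  (if (i, j) ∈ T then 0 else (m + 1) ^ JJ m) +
    ∑ b ∈ range (JJ m), (m + 1) ^ (JJ m - 1 - b) * (if (hv m (pp m) a i j).testBit b then 1 else 0)

/-- The explicit hitting set. -/
def hittingSet (m : ℕ) : Finset (Fin m → Fin m → ℕ) :=
  ((range (pp m)) ×ˢ (univ.filter (fun T : Finset (Fin m × Fin m) => T.card ≤ qq m))).image
    (fun u => wt m u.1 u.2)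

theorem tt_spec (m : ℕ) : m ≤ tt m ^ 14 ∧ 2 ≤ tt m := by
  have hex : ∃ t, m ≤ t ^ 14 := ⟨m, Nat.le_self_pow (by norm_num) m⟩
  have h1 : m ≤ (Nat.find hex) ^ 14 := Nat.find_spec hex
  have h2 : tt m = Nat.find hex + 2 := rfl
  rw [h2]
  exact ⟨h1.trans (Nat.pow_le_pow_left (by omega) 14), by omega⟩

theorem pp_spec (m : ℕ) : (pp m).Prime ∧
    m ^ 2 * (m ^ 2 * (4 * ll m + 1)) ^ (4 * ll m) < pp m ∧ 2 * ll m < pp m := by
  have h := Nat.find_spec (Nat.exists_infinite_primes
    (m ^ 2 * (m ^ 2 * (4 * ll m + 1)) ^ (4 * ll m) + 2 * ll m + 1))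
  have h0 : pp m = Nat.find (Nat.exists_infinite_primes
    (m ^ 2 * (m ^ 2 * (4 * ll m + 1)) ^ (4 * ll m) + 2 * ll m + 1)) := rfl
  rw [← h0] at h
  exact ⟨h.2, by omega, by omega⟩

end EMx
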