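import Pool.Agent.H.MP_36be4a.Rla

/-! Two rounds in a row give a nonzero coefficient of `c`. -/

namespace EMx

open Finset

variable {V : Type*} [Fintype V] [DecidableEq V]

/-- If `f x y = λ r x y + Y x + Z y` on all arcs and loops outside `S`, then
`pw f π = λ pw r π` for admissible `π`. -/
theorem pw_of_identity (A : V → V → Prop) (S : Finset V) (f r : V → V → ℤ) (l : ℚ) (Y Z : V → ℚ)
    (h : ∀ x y, x ∉ S → y ∉ S → (A x y ∨ x = y) → (f x y : ℚ) = l * r x y + Y x + Z y)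
    (π : Equiv.Perm V) (hπ : Adm A S π) : (pw f π : ℚ) = l * pw r π := by
  have key : ∀ x, ((aw f x (π x) : ℤ) : ℚ) = l * ((aw r x (π x) : ℤ) : ℚ) + (Z (π x) - Z x) := by
    intro x
    by_cases hx : π x = x
    · simp [aw, hx]
    · have h1 : x ∉ S := hπ.notMem hx
      have h2 : π x ∉ S := hπ.notMem (fun hh => hx (π.injective hh))
      have h3 := h x (π x) h1 h2 (Or.inl (hπ.1 x hx))
      have h4 := h x x h1 h1 (Or.inr rfl)
      simp only [aw]
      push_cast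
      rw [h3, h4]
      ring
  unfold pw
  push_cast
  rw [Finset.sum_congr rfl (fun x _ => key x), Finset.sum_add_distrib, Finset.sum_sub_distrib,
    Equiv.sum_comp π Z, sub_self, add_zero, Finset.mul_sum]

omit [Fintype V] [DecidableEq V] in
/-- Division of the integral identity by a nonzero coefficient. -/
theorem Rlb_div (A : V → V → Prop) (S : Finset V) (c r : V → V → ℤ) (α β : ℤ) (Y Z : V → ℤ)
    (hα : α ≠ 0)
    (h : ∀ x y, x ∉ S → y ∉ S → (A x y ∨ x = y) → α * c x y - β * r x y = Y x + Z y) :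
    ∀ x y, x ∉ S → y ∉ S → (A x y ∨ x = y) →
      (c x y : ℚ) = ((β : ℚ) / α) * r x y + ((Y x : ℚ) / α) + ((Z y : ℚ) / α) := by
  intro x y hx hy hxy
  have h1 := h x y hx hy hxy
  have h2 : ((α * c x y - β * r x y : ℤ) : ℚ) = ((Y x + Z y : ℤ) : ℚ) := by rw [h1]
  push_cast at h2
  have h3 : (α : ℚ) ≠ 0 := by exact_mod_cast hα
  field_simp
  linarith

omit [Fintype V] in
theorem Rlb_card {S S' : Finset V} {b : ℕ} (hS : S ⊆ S') (h : (S' \ S).card ≤ b) :
    S'.card ≤ S.card + b := by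
  have := Finset.card_sdiff_add_card_eq_card hS
  omega

theorem roundB (A : V → V → Prop) (S : Finset V) (c r : V → V → ℤ)
    (hc : ∀ x y, |aw c x y| ≤ 1) (hr : ∀ x y, |aw r x y| ≤ 1)
    (hmin : ∀ π, Adm A S π → pw r π = 0 → 0 ≤ pw c π)
    (k Q m : ℕ) (hk : 0 < k) (hQ : 2 ≤ Q) (hm : 0 < m) (b : ℕ)
    (hb : ∀ d, Cst (Fintype.card V) k Q m d → d ≤ b) :
    ∃ (S' : Finset V) (A' : V → V → Prop) (l : ℚ) (Y Z : V → ℚ),
      S ⊆ S' ∧ (∀ x y, A' x y → A x y) ∧ S'.card ≤ S.card + 2 * b ∧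
      (∀ x y, x ∉ S' → y ∉ S' → (A' x y ∨ x = y) → (c x y : ℚ) = l * r x y + Y x + Z y) ∧
      (∀ π, Adm A S' π → pw r π = 0 → pw c π = 0 → Adm A' S' π) := by
  obtain ⟨S1, A1, α1, β1, Y1, Z1, hS1, hA1, hC1, hα1, hne1, -, hid1, hlast1⟩ :=
    roundA A S c r hc hr hmin k Q m hk hQ hm
  have hcard1 := Rlb_card hS1 (hb _ hC1)
  by_cases hα : α1 = 0
  · -- second round
    have hβ : β1 ≠ 0 := by
      rcases hne1 with h | h
      · exact absurd hα h
      · exact h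
    have hid1' : ∀ x y, x ∉ S1 → y ∉ S1 → (A1 x y ∨ x = y) →
        (-β1) * r x y - 0 * c x y = Y1 x + Z1 y := by
      intro x y hx hy hxy
      have := hid1 x y hx hy hxy
      rw [hα] at this
      linarith
    have hr0 : ∀ π, Adm A1 S1 π → pw r π = 0 := by
      intro π hπ
      have h1 := Rlb_div A1 S1 r c (-β1) 0 Y1 Z1 (neg_ne_zero.mpr hβ) hid1'
      have h2 := pw_of_identity A1 S1 r c _ _ _ h1 π hπ
      have h3 : (pw r π : ℚ) = 0 := by
        rw [h2]; simp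
      exact_mod_cast h3
    have hmin1 : ∀ π, Adm A1 S1 π → pw r π = 0 → 0 ≤ pw c π :=
      fun π hπ h0 => hmin π (hπ.mono hA1 hS1) h0
    obtain ⟨S2, A2, α2, β2, Y2, Z2, hS2, hA2, hC2, hα2, hne2, hge2, hid2, hlast2⟩ :=
      roundA A1 S1 c r hc hr hmin1 k Q m hk hQ hm
    have hcard2 := Rlb_card hS2 (hb _ hC2)
    have hpos : 1 ≤ α2 := hge2 hr0
    refine ⟨S2, A2, _, _, _, hS1.trans hS2, fun x y h => hA1 x y (hA2 x y h), by omega,
      Rlb_div A2 S2 c r α2 β2 Y2 Z2 (by omega) hid2, ?_⟩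
    intro π hπ h1 h2
    have h3 : Adm A1 S1 π := hlast1 π (hπ.mono (fun _ _ h => h) hS2) h1 h2
    exact hlast2 π ⟨h3.1, hπ.2⟩ h1 h2
  · refine ⟨S1, A1, _, _, _, hS1, hA1, by omega,
      Rlb_div A1 S1 c r α1 β1 Y1 Z1 hα hid1, ?_⟩
    intro π hπ h1 h2
    exact hlast1 π hπ h1 h2

end EMx
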