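import Pool.Agent.H.MP_36be4a.Mn
import Pool.Agent.H.MP_36be4a.Cfn
import Pool.Agent.H.MP_36be4a.Cbd

/-! The main theorem. -/

namespace EMx

open Finset Polynomial

/-- The hitting set is nonempty. -/
theorem top_nonempty (m : ℕ) : (hittingSet m).Nonempty := by
  unfold hittingSet
  refine Finset.Nonempty.image ?_ _
  refine Finset.Nonempty.product ?_ ⟨∅, by simp⟩
  exact ⟨0, Finset.mem_range.2 (pp_spec m).1.pos⟩

/-- A nonzero coefficient gives an exact matching. -/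
theorem top_back {m : ℕ} (E R : Fin m → Fin m → Bool) (w : Fin m → Fin m → ℕ) (k : ℕ)
    (h : (mtx E R w).det.coeff k ≠ 0) : ∃ σ, IsEx E R k σ := by
  classical
  by_contra hno
  push Not at hno
  apply h
  rw [coeff_det]
  exact Finset.sum_eq_zero fun σ _ => if_neg (hno σ)

theorem main : ∃ K : ℝ, ∀ m : ℕ,
    ((hittingSet m).card : ℝ) ≤ 2 ^ (K * (m : ℝ) ^ ((14 : ℝ) / 15)) ∧
    (∀ w ∈ hittingSet m, ∀ i j, (w i j : ℝ) ≤ 2 ^ (K * (m : ℝ) ^ ((14 : ℝ) / 15))) ∧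
    ∀ (E R : Fin m → Fin m → Bool) (k : ℕ),
      (∃ σ, IsEx E R k σ) ↔ ∃ w ∈ hittingSet m, (mtx E R w).det.coeff k ≠ 0 := by
  obtain ⟨K, hK⟩ := card_bound
  refine ⟨K, fun m => ⟨(hK m).1, (hK m).2, fun E R k => ⟨fun h => ?_, fun h => ?_⟩⟩⟩
  · rcases Nat.eq_zero_or_pos m with rfl | hm
    · obtain ⟨w, hw⟩ := top_nonempty 0
      obtain ⟨σ, hσ⟩ := h
      exact ⟨w, hw, coeff_ne_zero E R w k σ hσ fun τ _ hne => absurd (Subsingleton.elim τ σ) hne⟩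
    · obtain ⟨w, hw, σ₀, h₀, huniq⟩ := isolate m hm E R k h
      exact ⟨w, hw, coeff_ne_zero E R w k σ₀ h₀ huniq⟩
  · obtain ⟨w, _, hw⟩ := h
    exact top_back E R w k hw

end EMx
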