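import Pool.Agent.H.MP_36be4a.Defs

/-! Elementary facts about walks and admissible permutations. -/

namespace EMx

open Finset

variable {V : Type*} [Fintype V] [DecidableEq V]
variable {A A' : V → V → Prop} {S S' : Finset V} {w : V → V → ℤ} {i j : ℕ} {x y t : V} {z z' : ℤ}

theorem Wk.left_notMem (h : Wk A S w i x y z) : x ∉ S := by
  induction h with
  | nil x hx => exact hx
  | cons _ _ _ _ ih => exact ih

theorem Wk.right_notMem (h : Wk A S w i x y z) : y ∉ S := by
  cases h with
  | nil x hx => exact hx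
  | cons _ _ _ hy => exact hy

theorem Wl.left_notMem (h : Wl A S i x y) : x ∉ S := by
  induction h with
  | nil x hx => exact hx
  | cons _ _ _ _ ih => exact ih

theorem Wl.right_notMem (h : Wl A S i x y) : y ∉ S := by
  cases h with
  | nil x hx => exact hx
  | cons _ _ _ hy => exact hy

theorem Wk.toWl (h : Wk A S w i x y z) : Wl A S i x y := by
  induction h with
  | nil x hx => exact .nil x hx
  | cons _ ha hne hy ih => exact .cons ih ha hne hy

theorem Wl.toWk (w : V → V → ℤ) (h : Wl A S i x y) : ∃ z, Wk A S w i x y z := by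
  induction h with
  | nil x hx => exact ⟨0, .nil x hx⟩
  | cons _ ha hne hy ih =>
      obtain ⟨z, hz⟩ := ih
      exact ⟨_, .cons hz ha hne hy⟩

theorem Wk.append (h : Wk A S w i x y z) (h' : Wk A S w j y t z') :
    Wk A S w (i + j) x t (z + z') := by
  induction h' with
  | nil y hy => simpa using h
  | cons _ ha hne hy ih =>
      have := Wk.cons (ih h) ha hne hy
      simpa [add_assoc] using this

theorem Wl.append (h : Wl A S i x y) (h' : Wl A S j y t) : Wl A S (i + j) x t := by
  induction h' with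
  | nil y hy => simpa using h
  | cons _ ha hne hy ih =>
      have := Wl.cons (ih h) ha hne hy
      simpa [add_assoc] using this

theorem Wk.mono (hA : ∀ x y, A x y → A' x y) (hS : S' ⊆ S) (h : Wk A S w i x y z) :
    Wk A' S' w i x y z := by
  induction h with
  | nil x hx => exact .nil x (fun h => hx (hS h))
  | cons _ ha hne hy ih => exact .cons ih (hA _ _ ha) hne (fun h => hy (hS h))

theorem Wl.mono (hA : ∀ x y, A x y → A' x y) (hS : S' ⊆ S) (h : Wl A S i x y) :
    Wl A' S' i x y := by
  induction h with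
  | nil x hx => exact .nil x (fun h => hx (hS h))
  | cons _ ha hne hy ih => exact .cons ih (hA _ _ ha) hne (fun h => hy (hS h))

theorem Rch.mono (hA : ∀ x y, A x y → A' x y) (hS : S' ⊆ S) (h : Rch A S x y) :
    Rch A' S' x y := by
  obtain ⟨i, hi⟩ := h
  exact ⟨i, hi.mono hA hS⟩

theorem Rch.trans (h : Rch A S x y) (h' : Rch A S y t) : Rch A S x t := by
  obtain ⟨i, hi⟩ := h
  obtain ⟨j, hj⟩ := h'
  exact ⟨_, hi.append hj⟩

theorem Rch.refl (hx : x ∉ S) : Rch A S x x := ⟨0, .nil x hx⟩

theorem Rch.arc (hx : x ∉ S) (hy : y ∉ S) (ha : A x y) (hne : x ≠ y) : Rch A S x y :=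
  ⟨1, .cons (.nil x hx) ha hne hy⟩

/-- Weight bound for walks. -/
theorem Wk.abs_le {B : ℤ} (hB : ∀ x y, A x y → |w x y| ≤ B) (h : Wk A S w i x y z) :
    |z| ≤ B * i := by
  induction h with
  | nil x hx => simp
  | cons _ ha _ _ ih =>
      have h1 := hB _ _ ha
      have h2 := abs_add_le (a := _) (b := _) |>.trans (add_le_add ih h1)
      push_cast
      linarith

omit [Fintype V] in
theorem aw_self (f : V → V → ℤ) (x : V) : aw f x x = 0 := by simp [aw]

theorem Adm.one (A : V → V → Prop) (S : Finset V) : Adm A S 1 := by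
  constructor <;> simp

theorem Adm.mono {π : Equiv.Perm V} (hA : ∀ x y, A x y → A' x y) (hS : S' ⊆ S)
    (h : Adm A S π) : Adm A' S' π :=
  ⟨fun x hx => hA _ _ (h.1 x hx), fun x hx => h.2 x (hS hx)⟩

theorem Adm.notMem {π : Equiv.Perm V} (h : Adm A S π) (hx : π x ≠ x) : x ∉ S :=
  fun hS => hx (h.2 x hS)

set_option linter.unusedSectionVars false in
theorem Walks_pow_moved {π : Equiv.Perm V} {y : V} (hy : π y ≠ y) (n : ℕ) :
    π ((π ^ n) y) ≠ (π ^ n) y := by
  intro h
  apply hy
  have h1 : (π ^ n) (π y) = (π ^ n) y := by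
    rw [← h, ← Equiv.Perm.mul_apply, ← Equiv.Perm.mul_apply, ← pow_succ, ← pow_succ']
  exact (π ^ n).injective h1

set_option linter.unusedSectionVars false in
theorem Walks_wl_pow {π : Equiv.Perm V} (h : Adm A S π) {y : V} (hy : π y ≠ y) (n : ℕ) :
    Wl A S n y ((π ^ n) y) := by
  induction n with
  | zero => exact .nil y (h.notMem hy)
  | succ n ih =>
    have h1 := Walks_pow_moved hy n
    have h2 := Walks_pow_moved hy (n + 1)
    have h3 : (π ^ (n + 1)) y = π ((π ^ n) y) := by
      rw [pow_succ', Equiv.Perm.mul_apply]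
    rw [h3] at h2 ⊢
    exact .cons ih (h.1 _ h1) (Ne.symm h1) (h.notMem h2)

/-- Along an admissible permutation, `x` and `π x` are mutually reachable. -/
theorem Adm.rch {π : Equiv.Perm V} (h : Adm A S π) (hx : π x ≠ x) :
    Rch A S x (π x) ∧ Rch A S (π x) x := by
  constructor
  · refine ⟨1, ?_⟩
    have := Walks_wl_pow h hx 1
    rwa [pow_one] at this
  · have hx' : π (π x) ≠ π x := fun h1 => hx (π.injective h1)
    refine ⟨orderOf π - 1, ?_⟩
    have h1 := Walks_wl_pow h hx' (orderOf π - 1)
    have h2 : (π ^ (orderOf π - 1)) (π x) = x := by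
      rw [← Equiv.Perm.mul_apply, ← pow_succ, Nat.sub_add_cancel (orderOf_pos π),
        pow_orderOf_eq_one]
      rfl
    rwa [h2] at h1

end EMx
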